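import Mathlib

/-! Set-up for MP_18dec4_ag: the polynomial ring `A`, the automorphism `g`. -/

open MvPolynomial

namespace LcP

/-- `A = ℤ_p[t_{a,j} : a ∈ {0,1}, 0 ≤ j ≤ p-2]`. -/
abbrev PolyA (p : ℕ) [Fact p.Prime] : Type := MvPolynomial (Fin 2 × Fin (p - 1)) ℤ_[p]

/-- Image of the variable `t_{a,j}` under the automorphism `g`:
`t_{a,j} ↦ t_{a,j} + t_{a,j+1}` for `j < p-2` and
`t_{a,p-2} ↦ t_{a,p-2} - ∑_k (p choose (k+1)) t_{a,k}`. -/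
noncomputable def gvar (p : ℕ) [Fact p.Prime] (i : Fin 2 × Fin (p - 1)) : PolyA p :=
  if h : (i.2 : ℕ) + 1 < p - 1 then X i + X (i.1, ⟨(i.2 : ℕ) + 1, h⟩)
  else X i - ∑ k : Fin (p - 1), C ((p.choose ((k : ℕ) + 1) : ℕ) : ℤ_[p]) * X (i.1, k)

/-- The endomorphism `g` of `A`. -/
noncomputable def gHom (p : ℕ) [Fact p.Prime] : PolyA p →ₐ[ℤ_[p]] PolyA p :=
  aeval (gvar p)

/-- The ring of invariants `B = A^g`. -/
noncomputable def InvB (p : ℕ) [Fact p.Prime] : Subalgebra ℤ_[p] (PolyA p) :=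
  AlgHom.equalizer (gHom p) (AlgHom.id ℤ_[p] (PolyA p))

end LcP
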