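import Mathlib
import Pool.Agent.Helper142.Lc.Setup

/-! Helper lemmas for MP_18dec4_ag, part A1 (team job 13358). -/

set_option linter.all false

namespace LcP.A1

open MvPolynomial

/-- `g` as a linear endomorphism -/
noncomputable def gLin (p : ℕ) [Fact p.Prime] : Module.End ℤ_[p] (PolyA p) :=
  (gHom p).toLinearMap

/-- `g - 1` -/
noncomputable def gNil (p : ℕ) [Fact p.Prime] : Module.End ℤ_[p] (PolyA p) := gLin p - 1

theorem gLin_eq (p : ℕ) [Fact p.Prime] : gLin p = gNil p + 1 := by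
  unfold gNil; abel

theorem gNil_apply (p : ℕ) [Fact p.Prime] (x : PolyA p) : gNil p x = gHom p x - x := rfl

theorem gNil_X_lt (p : ℕ) [Fact p.Prime] (a : Fin 2) (j : ℕ) (hj : j < p - 1) (h : j + 1 < p - 1) :
    gNil p (X (a, ⟨j, hj⟩)) = X (a, ⟨j + 1, h⟩) := by
  rw [gNil_apply, gHom, aeval_X, gvar]
  rw [dif_pos (show (((a, ⟨j, hj⟩) : Fin 2 × Fin (p - 1)).2 : ℕ) + 1 < p - 1 from h)]
  ring

theorem gNil_X_last (p : ℕ) [Fact p.Prime] (a : Fin 2) (j : ℕ) (hj : j < p - 1)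
    (h : ¬ j + 1 < p - 1) :
    gNil p (X (a, ⟨j, hj⟩)) = - ∑ k : Fin (p - 1), (p.choose ((k : ℕ) + 1)) • X (a, k) := by
  rw [gNil_apply, gHom, aeval_X, gvar]
  rw [dif_neg (show ¬ (((a, ⟨j, hj⟩) : Fin 2 × Fin (p - 1)).2 : ℕ) + 1 < p - 1 from h)]
  have h1 : ∀ k : Fin (p - 1), (C ((p.choose ((k : ℕ) + 1) : ℕ) : ℤ_[p]) * X (a, k) : PolyA p) =
      (p.choose ((k : ℕ) + 1)) • X (a, k) := by
    intro k
    rw [nsmul_eq_mul, map_natCast]
  simp only [h1]
  ring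

theorem gNil_pow (p : ℕ) [Fact p.Prime] (a : Fin 2) (h0 : 0 < p - 1) :
    ∀ (j : ℕ) (hj : j < p - 1), (gNil p ^ j) (X (a, ⟨0, h0⟩)) = X (a, ⟨j, hj⟩) := by
  intro j
  induction j with
  | zero => intro hj; rfl
  | succ j ih =>
    intro hj
    rw [pow_succ', Module.End.mul_apply, ih (by omega), gNil_X_lt p a j (by omega) hj]

theorem gNil_sum (p : ℕ) [Fact p.Prime] (a : Fin 2) (h0 : 0 < p - 1) :
    ∑ k ∈ Finset.range p, (p.choose (k + 1)) • (gNil p ^ k) (X (a, ⟨0, h0⟩)) = 0 := by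
  obtain ⟨m, hm⟩ : ∃ m, p = m + 1 + 1 := ⟨p - 2, by omega⟩
  have hp1 : p = (p - 1) + 1 := by omega
  have h1 : Finset.range p = Finset.range ((p - 1) + 1) := by rw [← hp1]
  rw [h1, Finset.sum_range_succ, ← hp1, Nat.choose_self, one_smul]
  have h2 : (gNil p ^ (p - 1)) (X (a, ⟨0, h0⟩)) =
      - ∑ k : Fin (p - 1), (p.choose ((k : ℕ) + 1)) • X (a, k) := by
    have h3 : p - 1 = (p - 2) + 1 := by omega
    have h4 : gNil p ^ (p - 1) = gNil p * gNil p ^ (p - 2) := by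
      rw [← pow_succ']
      exact congrArg (fun n => gNil p ^ n) h3
    rw [h4, Module.End.mul_apply, gNil_pow p a h0 (p - 2) (by omega),
      gNil_X_last p a (p - 2) (by omega) (by omega)]
  rw [h2, Finset.sum_range]
  have h5 : ∀ k : Fin (p - 1), (gNil p ^ (k : ℕ)) (X (a, ⟨0, h0⟩)) = X (a, k) :=
    fun k => gNil_pow p a h0 k k.2
  simp only [h5]
  exact add_neg_cancel _

theorem gLin_pow_zero (p : ℕ) [Fact p.Prime] (a : Fin 2) (h0 : 0 < p - 1) :
    (gLin p ^ p) (X (a, ⟨0, h0⟩)) = X (a, ⟨0, h0⟩) := by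
  rw [gLin_eq, (Commute.one_right (gNil p)).add_pow, LinearMap.sum_apply,
    Finset.sum_range_succ']
  have h1 : ∀ m : ℕ, (gNil p ^ m * 1 ^ (p - m) * ((p.choose m : ℕ) : Module.End ℤ_[p] (PolyA p)))
      (X (a, ⟨0, h0⟩)) = (p.choose m) • (gNil p ^ m) (X (a, ⟨0, h0⟩)) := by
    intro m
    rw [one_pow, mul_one, Module.End.mul_apply, Module.End.natCast_apply, map_nsmul]
  simp only [h1]
  have h2 : ∀ k : ℕ, (p.choose (k + 1)) • (gNil p ^ (k + 1)) (X (a, ⟨0, h0⟩) : PolyA p) =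
      gNil p ((p.choose (k + 1)) • (gNil p ^ k) (X (a, ⟨0, h0⟩))) := by
    intro k
    rw [map_nsmul, pow_succ', Module.End.mul_apply]
  simp only [h2]
  rw [← map_sum, gNil_sum p a h0, map_zero, zero_add, Nat.choose_zero_right, one_smul, pow_zero]
  rfl

theorem gLin_pow_X (p : ℕ) [Fact p.Prime] (i : Fin 2 × Fin (p - 1)) :
    (gLin p ^ p) (X i) = X i := by
  obtain ⟨a, j, hj⟩ := i
  have h0 : 0 < p - 1 := by omega
  rw [← gNil_pow p a h0 j hj, ← Module.End.mul_apply]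
  have hc : Commute (gLin p ^ p) (gNil p ^ j) := by
    refine Commute.pow_pow ?_ _ _
    unfold gNil
    exact (Commute.refl _).sub_right (Commute.one_right _)
  rw [hc.eq, Module.End.mul_apply, gLin_pow_zero]

theorem gAlg_exists (p : ℕ) [Fact p.Prime] (f : PolyA p →ₐ[ℤ_[p]] PolyA p) (n : ℕ) :
    ∃ h : PolyA p →ₐ[ℤ_[p]] PolyA p, ∀ x, h x = f^[n] x := by
  induction n with
  | zero => exact ⟨AlgHom.id _ _, fun x => rfl⟩
  | succ n ih =>
    obtain ⟨h, hh⟩ := ih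
    refine ⟨h.comp f, fun x => ?_⟩
    rw [Function.iterate_succ_apply, ← hh]
    rfl

/-- TARGET: `g` has order dividing `p`. -/
theorem gHom_iterate (p : ℕ) [Fact p.Prime] (x : PolyA p) : (gHom p)^[p] x = x := by
  obtain ⟨h, hh⟩ := gAlg_exists p (gHom p) p
  have h1 : h = AlgHom.id _ _ := by
    apply MvPolynomial.algHom_ext
    intro i
    have h2 := gLin_pow_X p i
    rw [Module.End.pow_apply] at h2
    rw [hh]
    exact h2
  rw [← hh, h1]
  rfl

end LcP.A1
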