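import Mathlib
import Pool.Agent.Helper142.Lc.Setup
import Pool.Agent.Helper142.Lc.A1

/-! Helper lemmas for MP_18dec4_ag, part A3 (team job 13359). -/

set_option linter.all false

namespace LcP.A3

open LcP.A1
open MvPolynomial

/-- the integral matrix of the substitution -/
def M0 (p : ℕ) : Matrix (Fin 2 × Fin (p - 1)) (Fin 2 × Fin (p - 1)) ℤ :=
  Matrix.of fun i k => if h : (i.2 : ℕ) + 1 < p - 1 then
    (if k = i then 1 else 0) + (if k = (i.1, ⟨(i.2 : ℕ) + 1, h⟩) then 1 else 0)
  else (if k = i then 1 else 0) - (if k.1 = i.1 then ((p.choose ((k.2 : ℕ) + 1) : ℕ) : ℤ) else 0)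

theorem gvar_eq (p : ℕ) [Fact p.Prime] (i : Fin 2 × Fin (p - 1)) :
    gvar p i = ∑ k, C ((M0 p i k : ℤ) : ℤ_[p]) * X k := by
  unfold gvar M0
  simp only [Matrix.of_apply]
  by_cases h : (i.2 : ℕ) + 1 < p - 1
  · simp only [dif_pos h]
    simp only [Int.cast_add, Int.cast_ite, Int.cast_one, Int.cast_zero, C_add, add_mul,
      Finset.sum_add_distrib, apply_ite C, C_1, C_0, ite_mul, one_mul, zero_mul,
      Finset.sum_ite_eq', Finset.mem_univ, if_true]
  · simp only [dif_neg h]
    simp only [Int.cast_sub, Int.cast_ite, Int.cast_one, Int.cast_zero, C_sub, sub_mul,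
      Finset.sum_sub_distrib, apply_ite C, C_1, C_0, ite_mul, one_mul, zero_mul,
      Finset.sum_ite_eq', Finset.mem_univ, if_true]
    congr 1
    rw [Fintype.sum_prod_type]
    simp only
    rw [Finset.sum_eq_single i.1]
    · refine Finset.sum_congr rfl fun k _ => ?_
      rw [if_pos rfl]
      simp
    · intro b _ hb
      refine Finset.sum_eq_zero fun k _ => ?_
      rw [if_neg hb]
    · intro h1
      exact absurd (Finset.mem_univ _) h1

theorem gHom_X (p : ℕ) [Fact p.Prime] (i : Fin 2 × Fin (p - 1)) :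
    gHom p (X i) = ∑ k, C ((M0 p i k : ℤ) : ℤ_[p]) * X k := by
  unfold gHom
  rw [aeval_X, gvar_eq]

theorem gHom_C (p : ℕ) [Fact p.Prime] (a : ℤ_[p]) : gHom p (C a) = C a := by
  unfold gHom
  rw [← MvPolynomial.algebraMap_eq, AlgHom.commutes]

theorem chain (p : ℕ) [Fact p.Prime] (k : Fin 2 × Fin (p - 1)) (f : PolyA p) :
    pderiv k (gHom p f) = ∑ j, C ((M0 p j k : ℤ) : ℤ_[p]) * gHom p (pderiv j f) := by
  induction f using MvPolynomial.induction_on with
  | C a =>
    rw [gHom_C, pderiv_C]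
    simp
  | add f g hf hg =>
    rw [map_add, map_add, hf, hg, ← Finset.sum_add_distrib]
    refine Finset.sum_congr rfl fun j _ => ?_
    rw [map_add, map_add, mul_add]
  | mul_X f n hf =>
    rw [map_mul, pderiv_mul, hf, gHom_X]
    have h1 : pderiv k (∑ l, C ((M0 p n l : ℤ) : ℤ_[p]) * X l : PolyA p) =
        C ((M0 p n k : ℤ) : ℤ_[p]) := by
      rw [map_sum]
      rw [Finset.sum_eq_single k]
      · rw [pderiv_C_mul, pderiv_X_self, mul_one]
      · intro b _ hb
        rw [pderiv_C_mul, pderiv_X_of_ne hb, mul_zero]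
      · intro h1
        exact absurd (Finset.mem_univ _) h1
    rw [h1]
    have h2 : ∀ j, C ((M0 p j k : ℤ) : ℤ_[p]) * gHom p (pderiv j (f * X n)) =
        C ((M0 p j k : ℤ) : ℤ_[p]) * gHom p (pderiv j f) * gHom p (X n) +
        (if j = n then gHom p f * C ((M0 p j k : ℤ) : ℤ_[p]) else 0) := by
      intro j
      rw [pderiv_mul, map_add, map_mul, map_mul]
      by_cases hj : j = n
      · subst hj
        rw [pderiv_X_self, if_pos rfl, map_one]
        ring
      · rw [pderiv_X_of_ne (Ne.symm hj), if_neg hj, map_zero]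
        ring
    rw [Finset.sum_congr rfl fun j _ => h2 j, Finset.sum_add_distrib, Finset.sum_ite_eq',
      if_pos (Finset.mem_univ n), ← Finset.sum_mul, gHom_X]

theorem iter_X (p : ℕ) [Fact p.Prime] (n : ℕ) (i : Fin 2 × Fin (p - 1)) :
    (gHom p)^[n] (X i) = ∑ k, C ((((M0 p) ^ n) i k : ℤ) : ℤ_[p]) * X k := by
  induction n with
  | zero =>
    rw [Function.iterate_zero, id, pow_zero]
    simp only [Matrix.one_apply]
    rw [Finset.sum_eq_single i]
    · simp
    · intro b _ hb
      rw [if_neg (Ne.symm hb)]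
      simp
    · intro h1
      exact absurd (Finset.mem_univ _) h1
  | succ n ih =>
    rw [Function.iterate_succ_apply', ih, map_sum]
    have h1 : ∀ k, gHom p (C ((((M0 p) ^ n) i k : ℤ) : ℤ_[p]) * X k) =
        ∑ l, C ((((M0 p) ^ n) i k * M0 p k l : ℤ) : ℤ_[p]) * X l := by
      intro k
      rw [map_mul, gHom_C, gHom_X, Finset.mul_sum]
      refine Finset.sum_congr rfl fun l _ => ?_
      rw [Int.cast_mul, C_mul, mul_assoc]
    rw [Finset.sum_congr rfl fun k _ => h1 k, Finset.sum_comm]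
    refine Finset.sum_congr rfl fun l _ => ?_
    rw [pow_succ, Matrix.mul_apply, Int.cast_sum, map_sum, Finset.sum_mul]

theorem M0_pow (p : ℕ) [Fact p.Prime] : (M0 p) ^ p = 1 := by
  ext i k
  have h1 := gHom_iterate p (X i)
  rw [iter_X] at h1
  have h2 := congrArg (pderiv k) h1
  rw [map_sum, Finset.sum_eq_single k] at h2
  · rw [pderiv_C_mul, pderiv_X_self, mul_one] at h2
    by_cases hik : i = k
    · subst hik
      rw [pderiv_X_self, ← C_1] at h2
      have h3 := C_injective _ _ h2
      rw [Matrix.one_apply_eq]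
      exact_mod_cast h3
    · rw [pderiv_X_of_ne hik, ← C_0] at h2
      have h3 := C_injective _ _ h2
      rw [Matrix.one_apply_ne hik]
      exact_mod_cast h3
  · intro b _ hb
    rw [pderiv_C_mul, pderiv_X_of_ne hb, mul_zero]
  · intro h1
    exact absurd (Finset.mem_univ _) h1

theorem M0_det (p : ℕ) [Fact p.Prime] (hp : 2 < p) : (M0 p).det = 1 := by
  have h1 : (M0 p).det ^ p = 1 := by
    rw [← Matrix.det_pow, M0_pow, Matrix.det_one]
  have hodd : Odd p := (Fact.out : p.Prime).odd_of_ne_two (by omega)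
  exact hodd.strictMono_pow.injective (by simpa using h1)

/-- TARGET: the Jacobian determinant of `g`-invariant polynomials is `g`-invariant. -/
theorem A3_det_invariant (p : ℕ) [Fact p.Prime] (hp : 2 < p)
    (z : Fin 2 × Fin (p - 1) → PolyA p) (hz : ∀ i, gHom p (z i) = z i) :
    gHom p (Matrix.of (fun i j => pderiv j (z i))).det =
      (Matrix.of (fun i j => pderiv j (z i))).det := by
  classical
  set J : Matrix (Fin 2 × Fin (p - 1)) (Fin 2 × Fin (p - 1)) (PolyA p) :=
    Matrix.of (fun i j => pderiv j (z i)) with hJ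
  have h1 : J = (J.map (gHom p)) * ((M0 p).map (fun a : ℤ => (C (a : ℤ_[p]) : PolyA p))) := by
    ext1 i k
    rw [Matrix.mul_apply]
    show pderiv k (z i) = ∑ j, gHom p (pderiv j (z i)) * C ((M0 p j k : ℤ) : ℤ_[p])
    conv_lhs => rw [← hz i]
    rw [chain]
    exact Finset.sum_congr rfl fun j _ => mul_comm _ _
  have h2 : J.det = (J.map (gHom p)).det * ((M0 p).map (fun a : ℤ => (C (a : ℤ_[p]) : PolyA p))).det := by
    conv_lhs => rw [h1]
    rw [Matrix.det_mul]
  have h3 : ((M0 p).map (fun a : ℤ => (C (a : ℤ_[p]) : PolyA p))).det = 1 := by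
    have h4 := ((C : ℤ_[p] →+* PolyA p).comp (Int.castRingHom ℤ_[p])).map_det (M0 p)
    rw [M0_det p hp, map_one] at h4
    exact h4.symm
  have h5 : (J.map (gHom p)).det = gHom p J.det := by
    have h4 := ((gHom p : PolyA p →ₐ[ℤ_[p]] PolyA p) : PolyA p →+* PolyA p).map_det J
    exact h4.symm
  rw [h3, mul_one, h5] at h2
  exact h2.symm

end LcP.A3
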