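import Mathlib

/-! Helper lemmas for MP_18dec4_ag, part A4 (team job 13361). -/

set_option linter.all false

namespace LcP.A4

private theorem A4_poly {R₀ A : Type*} [CommRing R₀] [CommRing A] [IsDomain A]
    [Algebra R₀ A] (g : A →ₐ[R₀] A) (n : ℕ) (hn : 0 < n)
    (hg : ∀ x, g^[n] x = x) (B : Subalgebra R₀ A) (hB : ∀ a, a ∈ B ↔ g a = a) (a : A) :
    IsIntegral B a := by
  classical
  let f : ℕ → Polynomial A := fun i => Polynomial.X - Polynomial.C (g^[i] a)
  let P : Polynomial A := ∏ i ∈ Finset.range n, f i
  have hPm : P.Monic := Polynomial.monic_prod_of_monic _ _ (fun i _ => Polynomial.monic_X_sub_C _)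
  have hf : ∀ i, Polynomial.map (g : A →+* A) (f i) = f (i + 1) := by
    intro i
    simp only [f]
    rw [Polynomial.map_sub, Polynomial.map_X, Polynomial.map_C]
    congr 2
    rw [Function.iterate_succ_apply']
    rfl
  have hmap : Polynomial.map (g : A →+* A) P = P := by
    have h1 : Polynomial.map (g : A →+* A) P = ∏ i ∈ Finset.range n, f (i + 1) := by
      simp only [P]
      rw [Polynomial.map_prod]
      exact Finset.prod_congr rfl (fun i _ => hf i)
    have h2 : (∏ i ∈ Finset.range n, f (i + 1)) * f 0 = P * f n := by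
      rw [← Finset.prod_range_succ', Finset.prod_range_succ]
    have h3 : f n = f 0 := by simp only [f, hg]; rfl
    rw [h1]
    rw [h3] at h2
    exact mul_right_cancel₀ (Polynomial.X_sub_C_ne_zero _) h2
  have hlift : P ∈ Polynomial.lifts (algebraMap B A) := by
    rw [Polynomial.lifts_iff_coeff_lifts]
    intro j
    refine ⟨⟨P.coeff j, ?_⟩, rfl⟩
    rw [hB]
    conv_rhs => rw [← hmap]
    rw [Polynomial.coeff_map]
    rfl
  obtain ⟨q, hq, -, hqm⟩ := Polynomial.lifts_and_natDegree_eq_and_monic hlift hPm
  refine ⟨q, hqm, ?_⟩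
  rw [← Polynomial.eval_map, hq]
  simp only [P]
  rw [Polynomial.eval_prod]
  refine Finset.prod_eq_zero (Finset.mem_range.2 hn) ?_
  simp [f]

/-- Fixed ring of an automorphism of finite order: integrality, finiteness, normality,
torsion-freeness. -/
theorem A4_fixed_ring {R₀ A : Type*} [CommRing R₀] [IsNoetherianRing R₀] [CommRing A] [IsDomain A]
    [Algebra R₀ A] [Algebra.FiniteType R₀ A] (g : A →ₐ[R₀] A) (n : ℕ) (hn : 0 < n)
    (hg : ∀ x, g^[n] x = x) (B : Subalgebra R₀ A) (hB : ∀ a, a ∈ B ↔ g a = a) :
    Algebra.IsIntegral B A ∧ Algebra.FiniteType R₀ B ∧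
      (IsIntegrallyClosed A → IsIntegrallyClosed B) ∧
      (∀ c : R₀, (∀ a : A, c • a = 0 → a = 0) → ∀ b : B, ∀ a : A, (b : A) = c • a →
        ∃ b' : B, b = c • b') := by
  have hint : Algebra.IsIntegral B A := ⟨fun a => A4_poly g n hn hg B hB a⟩
  refine ⟨hint, ?_, ?_, ?_⟩
  · have hft : Algebra.FiniteType B A := Algebra.FiniteType.of_restrictScalars_finiteType R₀ B A
    have hfin : Module.Finite B A := Algebra.IsIntegral.finite
    refine ⟨?_⟩
    exact fg_of_fg_of_fg R₀ B A Algebra.FiniteType.out hfin.fg_top Subtype.val_injective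
  · intro hA
    rw [isIntegrallyClosed_iff (FractionRing B)]
    intro x hx
    have hinj : Function.Injective (algebraMap B (FractionRing A)) := by
      rw [IsScalarTower.algebraMap_eq B A (FractionRing A)]
      exact (IsFractionRing.injective A (FractionRing A)).comp Subtype.val_injective
    let F : FractionRing B →+* FractionRing A := IsFractionRing.lift hinj
    have hF : ∀ b : B, F (algebraMap B (FractionRing B) b) = algebraMap B (FractionRing A) b :=
      fun b => IsFractionRing.lift_algebraMap hinj b
    have hFx : IsIntegral A (F x) := by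
      obtain ⟨p, hpm, hp⟩ := hx
      have h1 : IsIntegral B (F x) := by
        refine ⟨p, hpm, ?_⟩
        have h2 := congrArg F hp
        rw [map_zero, Polynomial.hom_eval₂] at h2
        rw [← h2]
        congr 1
        ext b
        exact (hF b).symm
      exact h1.tower_top
    obtain ⟨a, ha⟩ := (isIntegrallyClosed_iff (FractionRing A)).1 hA hFx
    obtain ⟨b1, b2, hb2, hb⟩ := IsFractionRing.div_surjective (A := B) x
    have hb2' : algebraMap B (FractionRing B) b2 ≠ 0 := by
      intro h
      exact nonZeroDivisors.ne_zero hb2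
        (IsFractionRing.injective B (FractionRing B) (by rw [h, map_zero]))
    have hx2 : x * algebraMap B (FractionRing B) b2 = algebraMap B (FractionRing B) b1 := by
      rw [← hb, div_mul_cancel₀ _ hb2']
    have hab : a * (b2 : A) = (b1 : A) := by
      apply IsFractionRing.injective A (FractionRing A)
      rw [map_mul, ha]
      have h3 := congrArg F hx2
      rw [map_mul, hF, hF] at h3
      exact h3
    have hb2A : (b2 : A) ≠ 0 := by
      intro h
      exact nonZeroDivisors.ne_zero hb2 (Subtype.ext h)
    have haB : a ∈ B := by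
      rw [hB]
      have h4 : g a * (b2 : A) = (b1 : A) := by
        have h5 := congrArg g hab
        rw [map_mul, (hB _).1 b2.2, (hB _).1 b1.2] at h5
        exact h5
      exact mul_right_cancel₀ hb2A (h4.trans hab.symm)
    refine ⟨⟨a, haB⟩, ?_⟩
    apply mul_right_cancel₀ hb2'
    rw [hx2, ← map_mul]
    congr 1
    exact Subtype.ext hab
  · intro c hc b a hba
    have h1 : g a = a := by
      have h2 : c • (g a - a) = 0 := by
        rw [smul_sub, ← hba, ← map_smul, ← hba, (hB _).1 b.2, sub_self]
      exact sub_eq_zero.1 (hc _ h2)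
    exact ⟨⟨a, (hB a).2 h1⟩, Subtype.ext hba⟩

end LcP.A4
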