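import Mathlib

/-! Helper lemmas for MP_18dec4_ag, part A5 (team job 13362). -/

set_option linter.all false

namespace LcP.A5

theorem A5_fraction_fields {R₀ A : Type*} [CommRing R₀] [CommRing A] [IsDomain A] [Algebra R₀ A]
    (g : A →ₐ[R₀] A) (p : ℕ) (hp : p.Prime) (hg : ∀ x, g^[p] x = x) (hg1 : ∃ x, g x ≠ x)
    (B : Subalgebra R₀ A) (hB : ∀ a, a ∈ B ↔ g a = a)
    {K L : Type*} [Field K] [Field L] [Algebra B K] [IsFractionRing B K]
    [Algebra A L] [IsFractionRing A L] [Algebra K L] [Algebra B L] [IsScalarTower B K L]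
    [IsScalarTower B A L] :
    FiniteDimensional K L ∧ ∃ σ : L ≃ₐ[K] L,
      (∀ a : A, σ (algebraMap A L a) = algebraMap A L (g a)) ∧ σ ^ p = 1 ∧ σ ≠ 1 ∧
      ∀ x, σ x = x → x ∈ Set.range (algebraMap K L) := by
  classical
  have hp0 : 0 < p := hp.pos
  obtain ⟨q, hq⟩ : ∃ q, p = q + 1 := ⟨p - 1, by omega⟩
  have hit : ∀ x, g (g^[q] x) = x := by
    intro x
    have := hg x
    rw [hq, Function.iterate_succ_apply'] at this
    exact this
  have hit' : ∀ x, g^[q] (g x) = x := by
    intro x
    have := hg x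
    rw [hq, Function.iterate_succ_apply] at this
    exact this
  let ge : A ≃+* A :=
    { toFun := g
      invFun := g^[q]
      left_inv := hit'
      right_inv := hit
      map_mul' := map_mul g
      map_add' := map_add g }
  let σ₀ : L ≃+* L := IsFractionRing.ringEquivOfRingEquiv ge
  have hσ₀ : ∀ a : A, σ₀ (algebraMap A L a) = algebraMap A L (g a) := fun a =>
    IsFractionRing.ringEquivOfRingEquiv_algebraMap ge a
  have hinj : Function.Injective (algebraMap A L) := IsFractionRing.injective A L
  have hBL : ∀ b : B, algebraMap K L (algebraMap B K b) = algebraMap A L (b : A) := by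
    intro b
    have h1 : (b • (1 : K)) • (1 : L) = b • ((1 : K) • (1 : L)) := smul_assoc b (1 : K) (1 : L)
    have h2 : b • (1 : L) = (b : A) • (1 : L) := rfl
    rw [one_smul, h2, Algebra.smul_def, Algebra.smul_def, Algebra.smul_def, mul_one, mul_one,
      mul_one] at h1
    exact h1
  have hfix : ∀ k : K, σ₀ (algebraMap K L k) = algebraMap K L k := by
    intro k
    obtain ⟨b, c, hc, rfl⟩ := IsFractionRing.div_surjective (A := B) k
    have hb : ∀ b : B, σ₀ (algebraMap K L (algebraMap B K b)) = algebraMap K L (algebraMap B K b) := by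
      intro b
      rw [hBL, hσ₀]
      congr 1
      exact (hB _).1 b.2
    rw [map_div₀, map_div₀, hb, hb]
  let σ : L ≃ₐ[K] L := AlgEquiv.ofRingEquiv (f := σ₀) hfix
  have hσ : ∀ a : A, σ (algebraMap A L a) = algebraMap A L (g a) := hσ₀
  have hσn : ∀ (n : ℕ) (a : A), (σ ^ n) (algebraMap A L a) = algebraMap A L (g^[n] a) := by
    intro n
    induction n with
    | zero => intro a; rfl
    | succ n ih =>
      intro a
      rw [pow_succ, AlgEquiv.mul_apply, hσ, ih, Function.iterate_succ_apply]
  have hσp : σ ^ p = 1 := by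
    ext x
    obtain ⟨a, b, _, rfl⟩ := IsFractionRing.div_surjective (A := A) x
    rw [map_div₀, hσn, hσn, hg, hg]
    rfl
  have hσ1 : σ ≠ 1 := by
    intro h
    obtain ⟨x, hx⟩ := hg1
    apply hx
    have := hσ x
    rw [h] at this
    exact (hinj this).symm
  have hrange : ∀ x, σ x = x → x ∈ Set.range (algebraMap K L) := by
    intro x hx
    obtain ⟨a, b, hb, rfl⟩ := IsFractionRing.div_surjective (A := A) x
    have hb0 : b ≠ 0 := nonZeroDivisors.ne_zero hb
    let N : A := ∏ i ∈ Finset.range p, g^[i] b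
    let M : A := ∏ i ∈ Finset.range q, g^[i + 1] b
    have hNM : N = b * M := by
      simp only [N, M, hq]
      rw [Finset.prod_range_succ', mul_comm]
      rfl
    have hN : g N = N := by
      simp only [N]
      rw [map_prod]
      have : ∀ i, g (g^[i] b) = g^[i + 1] b := fun i => (Function.iterate_succ_apply' _ _ _).symm
      simp only [this]
      rw [hq, Finset.prod_range_succ, ← hq, hg, mul_comm]
      exact hNM.symm
    have hN0 : N ≠ 0 := by
      refine Finset.prod_ne_zero_iff.2 (fun i _ => ?_)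
      intro h0
      apply hb0
      have hinjg : Function.Injective g := ge.injective
      have hz0 : ∀ j, g^[j] 0 = 0 := by
        intro j
        induction j with
        | zero => rfl
        | succ j ih => rw [Function.iterate_succ_apply, map_zero, ih]
      have hz : g^[i] b = g^[i] 0 := by rw [h0, hz0]
      exact hinjg.iterate i hz
    have hM0 : M ≠ 0 := fun h => hN0 (by rw [hNM, h, mul_zero])
    have hbL : algebraMap A L b ≠ 0 := fun h => hb0 (hinj (by rw [h, map_zero]))
    have hML : algebraMap A L M ≠ 0 := fun h => hM0 (hinj (by rw [h, map_zero]))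
    have hNL : algebraMap A L N ≠ 0 := fun h => hN0 (hinj (by rw [h, map_zero]))
    have hxN : algebraMap A L a / algebraMap A L b = algebraMap A L (a * M) / algebraMap A L N := by
      rw [hNM, map_mul, map_mul, mul_div_mul_right _ _ hML]
    rw [hxN] at hx ⊢
    rw [map_div₀, hσ, hσ, hN, div_left_inj' hNL] at hx
    have haM : a * M ∈ B := (hB _).2 (hinj hx)
    have hNB : N ∈ B := (hB _).2 hN
    refine ⟨algebraMap B K ⟨a * M, haM⟩ / algebraMap B K ⟨N, hNB⟩, ?_⟩
    rw [map_div₀, hBL, hBL]
  refine ⟨?_, σ, hσ, hσp, hσ1, hrange⟩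
  have hfo : IsOfFinOrder σ := isOfFinOrder_iff_pow_eq_one.2 ⟨p, hp0, hσp⟩
  haveI hfin : Finite (Subgroup.zpowers σ) := by
    have := hfo.finite_zpowers
    exact this
  haveI hFD : FiniteDimensional (FixedPoints.subfield (Subgroup.zpowers σ) L) L := inferInstance
  have hmem : ∀ k : K, algebraMap K L k ∈ FixedPoints.subfield (Subgroup.zpowers σ) L := by
    intro k τ
    exact τ.1.commutes k
  let e0 : K →+* FixedPoints.subfield (Subgroup.zpowers σ) L :=
    (algebraMap K L).codRestrict (FixedPoints.subfield (Subgroup.zpowers σ) L) hmem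
  have hsurj : Function.Surjective e0 := by
    intro x
    have hx : σ x.1 = x.1 := x.2 ⟨σ, Subgroup.mem_zpowers σ⟩
    obtain ⟨k, hk⟩ := hrange x.1 hx
    exact ⟨k, Subtype.ext hk⟩
  let e : K ≃+* FixedPoints.subfield (Subgroup.zpowers σ) L :=
    RingEquiv.ofBijective e0 ⟨e0.injective, hsurj⟩
  refine Module.Finite.of_equiv_equiv e.symm (RingEquiv.refl L) ?_
  ext x
  have h1 : e (e.symm x) = x := e.apply_symm_apply x
  have h2 : (algebraMap K L) (e.symm x) = (e (e.symm x) : L) := rfl
  rw [h1] at h2
  exact h2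

end LcP.A5
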