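import Mathlib
import Pool.Agent.Helper142.Lc.A4
import Pool.Agent.Helper142.Lc.A5

/-! Helper lemmas for MP_18dec4_ag, part A4p (team job 13776). -/

set_option linter.all false

namespace LcP.A4p

open LcP.A4 LcP.A5
/-- TARGET 1: the same for an abstract ring `B` identified with the fixed ring. -/
theorem A4_fixed_ring' {R₀ A B : Type*} [CommRing R₀] [IsNoetherianRing R₀] [CommRing A]
    [IsDomain A] [Algebra R₀ A] [Algebra.FiniteType R₀ A] (g : A →ₐ[R₀] A) (n : ℕ) (hn : 0 < n)
    (hg : ∀ x, g^[n] x = x) [CommRing B] [Algebra R₀ B] [Algebra B A] [IsScalarTower R₀ B A]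
    (hinj : Function.Injective (algebraMap B A))
    (hB : ∀ a, a ∈ Set.range (algebraMap B A) ↔ g a = a) :
    Algebra.IsIntegral B A ∧ Algebra.FiniteType R₀ B ∧
      (IsIntegrallyClosed A → IsIntegrallyClosed B) ∧
      (∀ c : R₀, (∀ a : A, c • a = 0 → a = 0) → ∀ b : B, ∀ a : A, algebraMap B A b = c • a →
        ∃ b' : B, b = c • b') := by
  classical
  let φ : B →ₐ[R₀] A := IsScalarTower.toAlgHom R₀ B A
  have hφ : ∀ b, φ b = algebraMap B A b := fun b => rfl
  have hφi : Function.Injective φ := hinj
  let e : B ≃ₐ[R₀] φ.range := AlgEquiv.ofInjective φ hφi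
  have he : ∀ b, ((e b : φ.range) : A) = algebraMap B A b := fun b => rfl
  have he' : ∀ b : φ.range, algebraMap B A (e.symm b) = (b : A) := by
    intro b
    rw [← he, e.apply_symm_apply]
  obtain ⟨h1, h2, h3, h4⟩ := A4_fixed_ring g n hn hg φ.range (by
    intro a
    rw [← hB]
    rfl)
  refine ⟨?_, ?_, ?_, ?_⟩
  · constructor
    intro a
    obtain ⟨q, hq, hq'⟩ := h1.isIntegral a
    refine ⟨q.map (e.symm : φ.range →+* B), hq.map _, ?_⟩
    rw [Polynomial.eval₂_map]
    have h5 : (algebraMap B A).comp (e.symm : φ.range →+* B) = algebraMap φ.range A := by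
      ext b
      exact he' b
    rw [h5]
    exact hq'
  · exact h2.equiv e.symm
  · intro hA
    have h5 := h3 hA
    exact IsIntegrallyClosed.of_equiv e.symm.toRingEquiv
  · intro c hc b a hba
    obtain ⟨b', hb'⟩ := h4 c hc (e b) a (by rw [he, hba])
    refine ⟨e.symm b', ?_⟩
    apply e.injective
    rw [hb', map_smul, e.apply_symm_apply]

/-- TARGET 2: the same for an abstract ring `B` identified with the fixed ring. -/
theorem A5_fraction_fields' {R₀ A B : Type*} [CommRing R₀] [CommRing A] [IsDomain A] [Algebra R₀ A]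
    (g : A →ₐ[R₀] A) (p : ℕ) (hp : p.Prime) (hg : ∀ x, g^[p] x = x) (hg1 : ∃ x, g x ≠ x)
    [CommRing B] [Algebra R₀ B] [Algebra B A] [IsScalarTower R₀ B A]
    (hinj : Function.Injective (algebraMap B A))
    (hB : ∀ a, a ∈ Set.range (algebraMap B A) ↔ g a = a)
    {K L : Type*} [Field K] [Field L] [Algebra B K] [IsFractionRing B K]
    [Algebra A L] [IsFractionRing A L] [Algebra K L] [Algebra B L] [IsScalarTower B K L]
    [IsScalarTower B A L] :
    FiniteDimensional K L ∧ ∃ σ : L ≃ₐ[K] L,
      (∀ a : A, σ (algebraMap A L a) = algebraMap A L (g a)) ∧ σ ^ p = 1 ∧ σ ≠ 1 ∧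
      ∀ x, σ x = x → x ∈ Set.range (algebraMap K L) := by
  classical
  let φ : B →ₐ[R₀] A := IsScalarTower.toAlgHom R₀ B A
  have hφ : ∀ b, φ b = algebraMap B A b := fun b => rfl
  have hφi : Function.Injective φ := hinj
  let e : B ≃ₐ[R₀] φ.range := AlgEquiv.ofInjective φ hφi
  have he : ∀ b, ((e b : φ.range) : A) = algebraMap B A b := fun b => rfl
  have he' : ∀ b : φ.range, algebraMap B A (e.symm b) = (b : A) := by
    intro b
    rw [← he, e.apply_symm_apply]
  let algK : Algebra φ.range K := ((algebraMap B K).comp e.toRingEquiv.symm.toRingHom).toAlgebra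
  have hfr : IsFractionRing φ.range K := by
    have h1 := IsLocalization.isLocalization_of_base_ringEquiv (nonZeroDivisors B) K e.toRingEquiv
    have h2 : (nonZeroDivisors B).map (e.toRingEquiv : B →* φ.range) =
        nonZeroDivisors φ.range := MulEquivClass.map_nonZeroDivisors e.toRingEquiv
    show IsLocalization (nonZeroDivisors φ.range) K
    rw [← h2]
    exact h1
  have htow : IsScalarTower φ.range K L := by
    apply IsScalarTower.of_algebraMap_eq
    intro b
    have h1 : algebraMap φ.range K b = algebraMap B K (e.symm b) := rfl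
    rw [h1, ← IsScalarTower.algebraMap_apply B K L, IsScalarTower.algebraMap_apply B A L, he']
    rfl
  exact A5_fraction_fields g p hp hg hg1 φ.range (by
    intro a
    rw [← hB]
    rfl)

end LcP.A4p
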