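import Mathlib

/-! Helper lemmas for MP_18dec4_ag, part A6 (team job 13363). -/

set_option linter.all false

namespace LcP.A6

theorem A6_integral_closure {R K L : Type*} [CommRing R] [IsDomain R] [IsDiscreteValuationRing R]
    [Field K] [Field L] [CharZero K] [Algebra R K] [IsFractionRing R K] [Algebra K L]
    [Algebra R L] [IsScalarTower R K L] [FiniteDimensional K L]
    (σ : L ≃ₐ[K] L) (p : ℕ) (hσ : σ ^ p = 1) (hσ1 : σ ≠ 1)
    (hσK : ∀ x, σ x = x → x ∈ Set.range (algebraMap K L)) :
    IsDedekindDomain (integralClosure R L) ∧ Module.Finite R (integralClosure R L) ∧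
      IsFractionRing (integralClosure R L) L ∧
      Function.Injective (algebraMap R (integralClosure R L)) ∧
      ∃ τ : integralClosure R L ≃ₐ[R] integralClosure R L,
        (∀ x, ((τ x : integralClosure R L) : L) = σ x) ∧ τ ^ p = 1 ∧ τ ≠ 1 ∧
        ∀ x, τ x = x → x ∈ Set.range (algebraMap R (integralClosure R L)) := by
  haveI : Algebra.IsSeparable K L := inferInstance
  haveI hded : IsDedekindDomain (integralClosure R L) := integralClosure.isDedekindDomain R K L
  haveI hfin : Module.Finite R (integralClosure R L) :=
    IsIntegralClosure.finite R K L (integralClosure R L)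
  haveI hfr : IsFractionRing (integralClosure R L) L :=
    integralClosure.isFractionRing_of_finite_extension K L
  have hRL : Function.Injective (algebraMap R L) := by
    rw [IsScalarTower.algebraMap_eq R K L]
    exact (algebraMap K L).injective.comp (IsFractionRing.injective R K)
  have hinj : Function.Injective (algebraMap R (integralClosure R L)) := by
    intro a b hab
    apply hRL
    have := congrArg Subtype.val hab
    exact this
  obtain ⟨τ, hτ⟩ : ∃ τ : integralClosure R L ≃ₐ[R] integralClosure R L,
      ∀ x, ((τ x : integralClosure R L) : L) = σ x :=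
    ⟨(σ.restrictScalars R).mapIntegralClosure, fun x => rfl⟩
  have hpow : ∀ (n : ℕ) (x : integralClosure R L),
      (((τ ^ n) x : integralClosure R L) : L) = (σ ^ n) x := by
    intro n
    induction n with
    | zero => intro x; rfl
    | succ n ih =>
      intro x
      rw [pow_succ, pow_succ]
      show (((τ ^ n) (τ x) : integralClosure R L) : L) = (σ ^ n) (σ x)
      rw [ih, hτ]
  refine ⟨hded, hfin, hfr, hinj, τ, hτ, ?_, ?_, ?_⟩
  · apply AlgEquiv.ext
    intro x
    apply Subtype.ext
    rw [hpow, hσ]
    rfl
  · intro h1
    apply hσ1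
    apply AlgEquiv.ext
    intro y
    obtain ⟨a, b, -, rfl⟩ := IsFractionRing.div_surjective (A := integralClosure R L) y
    rw [map_div₀]
    have ha : σ (a : L) = a := by rw [← hτ, h1]; rfl
    have hb : σ (b : L) = b := by rw [← hτ, h1]; rfl
    show σ (a : L) / σ (b : L) = (a : L) / (b : L)
    rw [ha, hb]
  · intro x hx
    have h1 : σ (x : L) = x := by rw [← hτ, hx]
    obtain ⟨k, hk⟩ := hσK _ h1
    have h2 : IsIntegral R (algebraMap K L k) := by
      rw [hk]
      exact x.2
    have h3 : IsIntegral R k := (isIntegral_algebraMap_iff (algebraMap K L).injective).1 h2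
    obtain ⟨r, hr⟩ := IsIntegrallyClosed.isIntegral_iff.1 h3
    refine ⟨r, ?_⟩
    apply Subtype.ext
    show algebraMap R L r = x
    rw [IsScalarTower.algebraMap_apply R K L, hr, hk]

end LcP.A6
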