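import Mathlib

/-! Helper lemmas for MP_18dec4_ag, part A7 (team job 13364). -/

set_option linter.all false

namespace LcP.A7

open KaehlerDifferential MvPolynomial

/-- Existence of reference coordinates. -/
theorem A7a_exists {R₀ B K : Type*} [CommRing R₀] [CommRing B] [IsDomain B] [Field K]
    [Algebra R₀ B] [Algebra B K] [IsFractionRing B K] [Algebra R₀ K] [IsScalarTower R₀ B K]
    [Algebra.EssFiniteType R₀ K] :
    ∃ (n : ℕ) (z : Fin n → B),
      LinearIndependent K (fun i => D R₀ K (algebraMap B K (z i))) ∧
      Submodule.span K (Set.range fun i => D R₀ K (algebraMap B K (z i))) = ⊤ := by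
  classical
  have hfin : Module.Finite K (Ω[K⁄R₀]) := inferInstance
  have hspan : Submodule.span K (Set.range fun b : B => D R₀ K (algebraMap B K b)) = ⊤ := by
    rw [← span_range_map_derivation_of_isLocalization R₀ B K (nonZeroDivisors B)]
    congr 1
    ext x
    simp [map_D]
  obtain ⟨b, hbs, hb1, hb2⟩ := exists_linearIndependent K
    (Set.range fun b : B => D R₀ K (algebraMap B K b))
  have hbf : b.Finite := hb2.setFinite
  have : Fintype b := hbf.fintype
  let e := (Fintype.equivFin b).symm
  choose z hz using fun i : Fin (Fintype.card b) => hbs (e i).2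
  have hfun : (fun i => D R₀ K (algebraMap B K (z i))) = (Subtype.val : b → _) ∘ e := by
    funext i
    exact hz i
  refine ⟨Fintype.card b, z, ?_, ?_⟩
  · rw [hfun]
    exact hb2.comp _ e.injective
  · rw [hfun, Set.range_comp, e.surjective.range_eq, Set.image_univ, Subtype.range_coe, hb1, hspan]

/-- Bases of differentials under finite separable extensions. -/
theorem A7b_extend {R₀ K L ι : Type*} [CommRing R₀] [Field K] [Field L] [CharZero K]
    [Algebra R₀ K] [Algebra K L] [Algebra R₀ L] [IsScalarTower R₀ K L] [FiniteDimensional K L]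
    (z : ι → K) (h1 : LinearIndependent K (fun i => D R₀ K (z i)))
    (h2 : Submodule.span K (Set.range fun i => D R₀ K (z i)) = ⊤) :
    LinearIndependent L (fun i => D R₀ L (algebraMap K L (z i))) ∧
      Submodule.span L (Set.range fun i => D R₀ L (algebraMap K L (z i))) = ⊤ := by
  have hsep : Algebra.IsSeparable K L := inferInstance
  have hE : Algebra.FormallyEtale K L := Algebra.FormallyEtale.of_isSeparable K L
  let b := Module.Basis.mk h1 h2.ge
  let b' := (b.baseChange L).map (tensorKaehlerEquivOfFormallyEtale R₀ K L)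
  have hb' : ∀ i, b' i = D R₀ L (algebraMap K L (z i)) := by
    intro i
    simp only [b', b, Module.Basis.map_apply, Module.Basis.baseChange_apply, Module.Basis.mk_apply]
    rw [← tensorKaehlerEquivOfFormallyEtale_symm_D_algebraMap, LinearEquiv.apply_symm_apply]
  have hfun : (fun i => D R₀ L (algebraMap K L (z i))) = b' := by
    funext i; exact (hb' i).symm
  rw [hfun]
  exact ⟨b'.linearIndependent, b'.span_eq⟩

/-- The differentials of the variables form a basis over the fraction field of a polynomial
ring. -/
theorem A7c_polynomial {R₀ ι L : Type*} [CommRing R₀] [IsDomain R₀] [Field L]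
    [Algebra (MvPolynomial ι R₀) L] [IsFractionRing (MvPolynomial ι R₀) L] [Algebra R₀ L]
    [IsScalarTower R₀ (MvPolynomial ι R₀) L] :
    LinearIndependent L (fun i : ι => D R₀ L (algebraMap (MvPolynomial ι R₀) L (X i))) ∧
      Submodule.span L (Set.range fun i : ι =>
        D R₀ L (algebraMap (MvPolynomial ι R₀) L (X i))) = ⊤ := by
  have hE : Algebra.FormallyEtale (MvPolynomial ι R₀) L :=
    Algebra.FormallyEtale.of_isLocalization (nonZeroDivisors (MvPolynomial ι R₀))
  let b' := ((mvPolynomialBasis R₀ ι).baseChange L).map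
    (tensorKaehlerEquivOfFormallyEtale R₀ (MvPolynomial ι R₀) L)
  have hb' : ∀ i, b' i = D R₀ L (algebraMap (MvPolynomial ι R₀) L (X i)) := by
    intro i
    simp only [b', Module.Basis.map_apply, Module.Basis.baseChange_apply, mvPolynomialBasis_apply]
    rw [← tensorKaehlerEquivOfFormallyEtale_symm_D_algebraMap, LinearEquiv.apply_symm_apply]
  have hfun : (fun i : ι => D R₀ L (algebraMap (MvPolynomial ι R₀) L (X i))) = b' := by
    funext i; exact (hb' i).symm
  rw [hfun]
  exact ⟨b'.linearIndependent, b'.span_eq⟩

/-- Expansion of `D f` in the basis of the `D X_i`. -/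
theorem A7d_expand {R₀ ι : Type*} [CommRing R₀] [Fintype ι] (f : MvPolynomial ι R₀) :
    D R₀ (MvPolynomial ι R₀) f = ∑ j, pderiv j f • D R₀ (MvPolynomial ι R₀) (X j) := by
  have h := (mvPolynomialBasis R₀ ι).sum_repr (D R₀ (MvPolynomial ι R₀) f)
  rw [← h]
  apply Finset.sum_congr rfl
  intro j _
  rw [mvPolynomialBasis_repr_apply, mvPolynomialBasis_apply]

end LcP.A7
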