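import Mathlib

/-! Helper lemmas for MP_18dec4_ag, part C1 (team job 11615). -/

set_option linter.all false

namespace LcP.C1

open IsLocalRing

/-- algebraicity over the residue field of `C` from the transcendence basis. -/
theorem C1_alg {k K' L : Type} [Field k] [Field K'] [Field L] [Algebra k K'] [Algebra k L]
    [Algebra K' L] [IsScalarTower k K' L] {ι : Type} (x : ι → L) (hx : IsTranscendenceBasis k x)
    (hr : ∀ i, x i ∈ Set.range (algebraMap K' L)) : Algebra.IsAlgebraic K' L := by
  choose y hy using hr
  have hB : ∀ a : Algebra.adjoin k (Set.range x), (a : L) ∈ (IsScalarTower.toAlgHom k K' L).range := by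
    intro a
    have h : Algebra.adjoin k (Set.range x) ≤ (IsScalarTower.toAlgHom k K' L).range := by
      rw [Algebra.adjoin_le_iff]
      rintro _ ⟨i, rfl⟩
      exact ⟨y i, hy i⟩
    exact h a.2
  choose ψ hψ using hB
  have hinj : Function.Injective (algebraMap K' L) := (algebraMap K' L).injective
  have hψ' : ∀ a, algebraMap K' L (ψ a) = a := hψ
  let Ψ : Algebra.adjoin k (Set.range x) →+* K' :=
    { toFun := ψ
      map_one' := hinj (by rw [hψ', map_one]; rfl)
      map_mul' := fun a b => hinj (by rw [hψ', map_mul, hψ', hψ']; rfl)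
      map_zero' := hinj (by rw [hψ', map_zero]; rfl)
      map_add' := fun a b => hinj (by rw [hψ', map_add, hψ', hψ']; rfl) }
  let _ : Algebra (Algebra.adjoin k (Set.range x)) K' := Ψ.toAlgebra
  have : IsScalarTower (Algebra.adjoin k (Set.range x)) K' L :=
    IsScalarTower.of_algebraMap_eq fun a => (hψ' a).symm
  have hal := hx.isAlgebraic
  refine ⟨fun z => (hal.isAlgebraic z).extendScalars ?_⟩
  intro a b hab
  have : algebraMap K' L (ψ a) = algebraMap K' L (ψ b) := congrArg _ hab
  rw [hψ', hψ'] at this
  exact Subtype.ext this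

/-- General version. -/
theorem C1_general {R : Type} [CommRing R] [IsDomain R] [IsDiscreteValuationRing R] (ϖ : R)
    (hϖ : maximalIdeal R = Ideal.span {ϖ}) {S : Type} [CommRing S] [IsDomain S]
    [IsDiscreteValuationRing S] [Algebra R S] [IsLocalHom (algebraMap R S)]
    (hϖ0 : algebraMap R S ϖ ≠ 0) [Algebra.EssFiniteType R S] :
    ∃ (C : Type) (_ : CommRing C) (_ : IsDomain C) (_ : IsDiscreteValuationRing C)
      (_ : Algebra R C) (_ : Algebra C S) (_ : IsScalarTower R C S)
      (_ : IsLocalHom (algebraMap C S)),
      maximalIdeal C = Ideal.span {(algebraMap R C ϖ)} ∧ Function.Injective (algebraMap C S) ∧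
      Algebra.EssFiniteType C S ∧ Module.Finite (ResidueField C) (ResidueField S) := by
  -- residue field extension
  have hess1 : Algebra.EssFiniteType R (ResidueField S) :=
    Algebra.EssFiniteType.comp R S (ResidueField S)
  have hess2 : Algebra.EssFiniteType (ResidueField R) (ResidueField S) :=
    Algebra.EssFiniteType.of_comp R (ResidueField R) (ResidueField S)
  obtain ⟨s, hs⟩ := exists_finset_isTranscendenceBasis (ResidueField R) (ResidueField S)
  -- lift
  choose g hg using fun i : s => IsLocalRing.residue_surjective (R := S) (i : ResidueField S)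
  let f : MvPolynomial s R →ₐ[R] S := MvPolynomial.aeval g
  let P : Ideal (MvPolynomial s R) := Ideal.comap f (maximalIdeal S)
  have hP : P.IsPrime := Ideal.comap_isPrime _ _
  have hred : ∀ q : MvPolynomial s R, residue S (f q) =
      MvPolynomial.aeval (fun i : s => (i : ResidueField S)) (MvPolynomial.map (residue R) q) := by
    intro q
    induction q using MvPolynomial.induction_on with
    | C a =>
      simp only [f, MvPolynomial.aeval_C, MvPolynomial.map_C]
      rfl
    | add p q hp hq => simp only [map_add, hp, hq]
    | mul_X p i hp =>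
      simp only [map_mul, hp, MvPolynomial.map_X, MvPolynomial.aeval_X]
      simp only [f, MvPolynomial.aeval_X, hg]
  have hPeq : P = Ideal.span {(MvPolynomial.C ϖ : MvPolynomial s R)} := by
    have h1 : P = RingHom.ker (MvPolynomial.map (σ := s) (residue R)) := by
      ext q
      rw [RingHom.mem_ker, Ideal.mem_comap, ← residue_eq_zero_iff]
      change residue S (f q) = 0 ↔ _
      rw [hred q]
      exact map_eq_zero_iff _ hs.1
    rw [h1, MvPolynomial.ker_map, ker_residue, hϖ, Ideal.map_span, Set.image_singleton]
  let C := Localization.AtPrime P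
  have hunit : ∀ y : P.primeCompl, IsUnit ((f : MvPolynomial s R →+* S) y) := by
    intro y
    by_contra hy
    exact y.2 ((mem_maximalIdeal _).2 hy)
  let φ : C →+* S := IsLocalization.lift (M := P.primeCompl) (S := C) hunit
  have hφ : ∀ x, φ (algebraMap (MvPolynomial s R) C x) = f x := fun x =>
    IsLocalization.lift_eq _ _
  let algCS : Algebra C S := φ.toAlgebra
  have hst : IsScalarTower R C S := by
    refine IsScalarTower.of_algebraMap_eq fun x => ?_
    change _ = φ _
    rw [IsScalarTower.algebraMap_apply R (MvPolynomial s R) C, hφ]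
    simp [f]
  have hloc : IsLocalHom (algebraMap C S) := by
    constructor
    intro a ha
    obtain ⟨x, y, rfl⟩ := IsLocalization.exists_mk'_eq P.primeCompl a
    have h2 := (IsLocalization.lift_mk'_spec (S := C) (hg := hunit) x
      (algebraMap C S (IsLocalization.mk' C x y)) y).1 rfl
    have h3 : IsUnit (f x) := by
      have : IsUnit ((f : MvPolynomial s R →+* S) x) := by
        rw [h2]
        exact (hunit y).mul ha
      exact this
    rw [IsLocalization.AtPrime.isUnit_mk'_iff C P]
    intro hx
    exact (mem_maximalIdeal _).1 hx h3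
  have hmax : maximalIdeal C = Ideal.span {(algebraMap R C ϖ)} := by
    rw [← Localization.AtPrime.map_eq_maximalIdeal]
    have h3 : Ideal.map (algebraMap (MvPolynomial s R) C) P =
      Ideal.map (algebraMap (MvPolynomial s R) C)
        (Ideal.span {(MvPolynomial.C ϖ : MvPolynomial s R)}) := congrArg _ hPeq
    rw [h3, Ideal.map_span, Set.image_singleton]
    rfl
  have hnoeth : IsNoetherianRing C := IsLocalization.isNoetherianRing P.primeCompl C inferInstance
  have hdom : IsDomain C := inferInstance
  have hmap : ∀ r : R, algebraMap C S (algebraMap R C r) = algebraMap R S r := fun r =>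
    (IsScalarTower.algebraMap_apply R C S r).symm
  have hϖC : algebraMap R C ϖ ≠ 0 := by
    intro h
    apply hϖ0
    rw [← hmap, h, map_zero]
  have hdvr : IsDiscreteValuationRing C := by
    have hnf : ¬ IsField C := by
      rw [IsLocalRing.isField_iff_maximalIdeal_eq, hmax, Ideal.span_singleton_eq_bot]
      exact hϖC
    have h5 := (IsDiscreteValuationRing.TFAE C hnf).out 0 4
    exact h5.2 ⟨⟨_, hmax⟩⟩
  have hinj : Function.Injective (algebraMap C S) := by
    rw [injective_iff_map_eq_zero]
    intro a ha
    by_contra ha0
    have hirr : Irreducible (algebraMap R C ϖ) :=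
      (IsDiscreteValuationRing.irreducible_iff_uniformizer _).2 hmax
    obtain ⟨n, u, rfl⟩ := IsDiscreteValuationRing.eq_unit_mul_pow_irreducible ha0 hirr
    rw [map_mul, map_pow, hmap] at ha
    rcases mul_eq_zero.1 ha with h | h
    · exact (u.isUnit.map (algebraMap C S)).ne_zero h
    · exact pow_ne_zero n hϖ0 h
  refine ⟨C, inferInstance, hdom, hdvr, inferInstance, inferInstance, hst, hloc, hmax, hinj, ?_, ?_⟩
  · exact Algebra.EssFiniteType.of_comp R C S
  · have e1 : Algebra.EssFiniteType C S := Algebra.EssFiniteType.of_comp R C S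
    have e2 : Algebra.EssFiniteType C (ResidueField S) :=
      Algebra.EssFiniteType.comp C S (ResidueField S)
    have e3 : Algebra.EssFiniteType (ResidueField C) (ResidueField S) :=
      Algebra.EssFiniteType.of_comp C (ResidueField C) (ResidueField S)
    have hl : IsLocalHom (algebraMap R C) := by
      constructor
      intro a ha
      have := ha.map (algebraMap C S)
      rw [hmap] at this
      exact (isUnit_map_iff (algebraMap R S) a).1 this
    have t1 : IsScalarTower (ResidueField R) (ResidueField C) (ResidueField S) := by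
      refine IsScalarTower.of_algebraMap_eq fun x => ?_
      obtain ⟨x, rfl⟩ := residue_surjective x
      simp only [ResidueField.algebraMap_residue]
      rw [hmap]
    have hal : Algebra.IsAlgebraic (ResidueField C) (ResidueField S) := by
      refine C1_alg _ hs ?_
      intro i
      refine ⟨residue C (algebraMap (MvPolynomial s R) C (MvPolynomial.X i)), ?_⟩
      rw [ResidueField.algebraMap_residue]
      have : algebraMap C S (algebraMap (MvPolynomial s R) C (MvPolynomial.X i)) = g i := by
        change φ _ = _
        rw [hφ]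
        simp [f]
      rw [this, hg]
    exact Algebra.finite_of_essFiniteType_of_isAlgebraic

theorem C1_exists_base (p : ℕ) [Fact p.Prime] {S : Type} [CommRing S] [IsDomain S]
    [IsDiscreteValuationRing S] [Algebra ℤ_[p] S] [CharZero S] [Algebra.EssFiniteType ℤ_[p] S]
    (hp : (p : S) ∈ maximalIdeal S) :
    ∃ (C : Type) (_ : CommRing C) (_ : IsDomain C) (_ : IsDiscreteValuationRing C)
      (_ : Algebra ℤ_[p] C) (_ : Algebra C S) (_ : IsScalarTower ℤ_[p] C S)
      (_ : IsLocalHom (algebraMap C S)),
      maximalIdeal C = Ideal.span {(p : C)} ∧ Function.Injective (algebraMap C S) ∧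
      Algebra.EssFiniteType C S ∧ Module.Finite (ResidueField C) (ResidueField S) := by
  have hm := PadicInt.maximalIdeal_eq_span_p (p := p)
  have hloc : IsLocalHom (algebraMap ℤ_[p] S) := by
    constructor
    intro a ha
    by_contra h
    have h1 : a ∈ maximalIdeal ℤ_[p] := (mem_maximalIdeal _).2 h
    rw [hm, Ideal.mem_span_singleton] at h1
    obtain ⟨b, rfl⟩ := h1
    rw [map_mul, map_natCast] at ha
    exact (mem_maximalIdeal _).1 hp (isUnit_of_mul_isUnit_left ha)
  have h0 : algebraMap ℤ_[p] S (p : ℤ_[p]) ≠ 0 := by
    rw [map_natCast]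
    exact_mod_cast (Fact.out : p.Prime).ne_zero
  obtain ⟨C, i1, i2, i3, i4, i5, i6, i7, h1, h2, h3, h4⟩ := C1_general (p : ℤ_[p]) hm h0
  refine ⟨C, i1, i2, i3, i4, i5, i6, i7, ?_, h2, h3, h4⟩
  rw [h1, map_natCast]

end LcP.C1
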