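import Mathlib

/-! Helper lemmas for MP_18dec4_ag, part C2 (team job 11616). -/

set_option linter.all false

namespace LcP.C2

open IsLocalRing KaehlerDifferential

/-- derivations and divisibility: iterating -/
theorem C2_torsion_iter {C S : Type*} [CommRing C] [CommRing S] [Algebra C S]
    (d : Derivation C S S) (x : S) (a : C) (n : ℕ) :
    ∀ (f : Polynomial C) (j : ℕ), f.natDegree ≤ n →
      algebraMap C S a ∣ Polynomial.aeval x f * (d x) ^ j →
      algebraMap C S a ∣ (n.factorial : S) * algebraMap C S (f.coeff n) * (d x) ^ (j + 2 * n) := by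
  induction n with
  | zero =>
    intro f j hf h
    have hf0 : f = Polynomial.C (f.coeff 0) :=
      Polynomial.eq_C_of_natDegree_eq_zero (by omega)
    rw [hf0, Polynomial.aeval_C] at h
    simpa using h
  | succ n ih =>
    intro f j hf h
    have hdeg : (Polynomial.derivative f).natDegree ≤ n :=
      (Polynomial.natDegree_derivative_le f).trans (by omega)
    have h2 : algebraMap C S a ∣ Polynomial.aeval x (Polynomial.derivative f) * (d x) ^ (j + 2) := by
      have h3 : algebraMap C S a ∣ d (Polynomial.aeval x f * (d x) ^ j) := by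
        obtain ⟨r, hr⟩ := h
        rw [hr]
        rw [← Algebra.smul_def, d.map_smul, Algebra.smul_def]
        exact dvd_mul_right _ _
      have h4 : d (Polynomial.aeval x f * (d x) ^ j) * d x
          = Polynomial.aeval x (Polynomial.derivative f) * (d x) ^ (j + 2)
            + (Polynomial.aeval x f * (d x) ^ j) * ((j : S) * d (d x)) := by
        rw [d.leibniz, d.leibniz_pow, d.map_aeval]
        rcases Nat.eq_zero_or_pos j with rfl | hj
        · simp; ring
        · obtain ⟨i, rfl⟩ : ∃ i, j = i + 1 := ⟨j - 1, by omega⟩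
          simp only [Nat.add_sub_cancel, smul_eq_mul, nsmul_eq_mul]
          push_cast
          ring
      have h5 : Polynomial.aeval x (Polynomial.derivative f) * (d x) ^ (j + 2)
          = d (Polynomial.aeval x f * (d x) ^ j) * d x
            - (Polynomial.aeval x f * (d x) ^ j) * ((j : S) * d (d x)) := by
        rw [h4]; ring
      rw [h5]
      exact dvd_sub (h3.mul_right _) (h.mul_right _)
    have h6 := ih (Polynomial.derivative f) (j + 2) hdeg h2
    rw [Polynomial.coeff_derivative] at h6
    have h7 : ((n + 1).factorial : S) * algebraMap C S (f.coeff (n + 1)) * (d x) ^ (j + 2 * (n + 1))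
        = (n.factorial : S) * algebraMap C S (f.coeff (n + 1) * (↑n + 1)) *
          (d x) ^ (j + 2 + 2 * n) := by
      rw [Nat.factorial_succ, map_mul]
      have : j + 2 * (n + 1) = j + 2 + 2 * n := by ring
      rw [this]
      push_cast
      ring
    rw [h7]
    exact h6

/-- Cayley-Hamilton step -/
theorem C2_torsion_ch {C S : Type*} [CommRing C] [Nontrivial C] [CommRing S] [Algebra C S]
    {m : ℕ} (y : Fin m → S) (a : C)
    (H : ∀ s : S, ∃ b : Fin m → C, algebraMap C S a ∣ s - ∑ i, b i • y i) (x : S) :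
    ∃ f : Polynomial C, f.Monic ∧ f.natDegree = m ∧ algebraMap C S a ∣ Polynomial.aeval x f := by
  classical
  choose A hA using fun i : Fin m => H (x * y i)
  let B : Matrix (Fin m) (Fin m) C := Matrix.of A
  refine ⟨B.charpoly, B.charpoly_monic, by simp, ?_⟩
  have he : Polynomial.aeval x B.charpoly
      = (Matrix.scalar (Fin m) x - B.map (algebraMap C S)).det := by
    rw [← Matrix.eval_charpoly, Matrix.charpoly_map,
      Polynomial.eval_map, Polynomial.aeval_def]
  set N : Matrix (Fin m) (Fin m) S := Matrix.scalar (Fin m) x - B.map (algebraMap C S) with hN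
  have h1 : ∀ i, algebraMap C S a ∣ (N.mulVec y) i := by
    intro i
    have : (N.mulVec y) i = x * y i - ∑ j, A i j • y j := by
      rw [hN, Matrix.sub_mulVec]
      simp only [Pi.sub_apply, Matrix.mulVec, dotProduct, Matrix.map_apply]
      congr 1
      · simp [Matrix.diagonal_apply]
      · refine Finset.sum_congr rfl fun j _ => ?_
        rw [Algebra.smul_def]
        rfl
    rw [this]
    exact hA i
  have h2 : ∀ i, algebraMap C S a ∣ N.det * y i := by
    intro i
    have : N.det * y i = (N.adjugate.mulVec (N.mulVec y)) i := by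
      rw [Matrix.mulVec_mulVec, Matrix.adjugate_mul, Matrix.smul_mulVec, Matrix.one_mulVec]
      rfl
    rw [this]
    simp only [Matrix.mulVec, dotProduct]
    refine Finset.dvd_sum fun j _ => ?_
    exact (h1 j).mul_left _
  rw [he]
  obtain ⟨b, hb⟩ := H 1
  have h3 : N.det = N.det * (1 - ∑ i, b i • y i) + ∑ i, algebraMap C S (b i) * (N.det * y i) := by
    rw [mul_sub, Finset.mul_sum]
    simp only [Algebra.smul_def]
    rw [mul_one]
    have : ∑ i, algebraMap C S (b i) * (N.det * y i)
        = ∑ i, N.det * (algebraMap C S (b i) * y i) :=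
      Finset.sum_congr rfl fun i _ => by ring
    rw [this]
    ring
  rw [h3]
  refine dvd_add (hb.mul_left _) (Finset.dvd_sum fun i _ => (h2 i).mul_left _)

/-- finite generation modulo powers -/
theorem C2_torsion_fg {C S : Type*} [CommRing C] [IsDomain C] [IsDiscreteValuationRing C]
    [CommRing S] [IsDomain S] [IsDiscreteValuationRing S] [Algebra C S]
    [IsLocalHom (algebraMap C S)] (hinj : Function.Injective (algebraMap C S))
    [Module.Finite (ResidueField C) (ResidueField S)] (c : C) (hc : Irreducible c) :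
    ∃ (m : ℕ) (y : Fin m → S), ∀ (k : ℕ) (s : S),
      ∃ b : Fin m → C, algebraMap C S (c ^ k) ∣ s - ∑ i, b i • y i := by
  classical
  obtain ⟨π, hπ⟩ := IsDiscreteValuationRing.exists_irreducible S
  have hc0 : algebraMap C S c ≠ 0 := by
    intro h
    exact hc.ne_zero (hinj (by rw [h, map_zero]))
  obtain ⟨e, he⟩ := IsDiscreteValuationRing.associated_pow_irreducible hc0 hπ
  -- lifts of generators of the residue field
  obtain ⟨p, z, hz⟩ := Module.Finite.exists_fin (R := ResidueField C) (M := ResidueField S)
  choose y hy using fun i : Fin p => residue_surjective (z i)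
  have key0 : ∀ s : S, ∃ t ∈ Submodule.span C (Set.range y), π ∣ s - t := by
    intro s
    have hs : residue S s ∈ Submodule.span (ResidueField C) (Set.range z) := by
      rw [hz]; trivial
    rw [Submodule.mem_span_range_iff_exists_fun] at hs
    obtain ⟨g, hg⟩ := hs
    choose b hb using fun i : Fin p => residue_surjective (g i)
    refine ⟨∑ i, b i • y i, Submodule.sum_mem _ fun i _ =>
      Submodule.smul_mem _ _ (Submodule.subset_span ⟨i, rfl⟩), ?_⟩
    have h1 : residue S (s - ∑ i, b i • y i) = 0 := by
      rw [map_sub, ← hg, map_sum, sub_eq_zero]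
      refine Finset.sum_congr rfl fun i _ => ?_
      rw [← hb i, ← hy i, Algebra.smul_def, Algebra.smul_def, map_mul]
      rfl
    have h2 : s - ∑ i, b i • y i ∈ maximalIdeal S := by
      rwa [residue_eq_zero_iff] at h1
    rw [hπ.maximalIdeal_eq, Ideal.mem_span_singleton] at h2
    exact h2
  have key1 : ∀ j : ℕ, ∃ N : Submodule C S, N.FG ∧ ∀ s : S, ∃ t ∈ N, π ^ j ∣ s - t := by
    intro j
    induction j with
    | zero => exact ⟨⊥, Submodule.fg_bot, fun s => ⟨0, Submodule.zero_mem _, by simp⟩⟩
    | succ j ih =>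
      obtain ⟨N, hN, h⟩ := ih
      refine ⟨Submodule.span C (Set.range y) ⊔ N.map (LinearMap.mulLeft C π),
        Submodule.FG.sup (Submodule.fg_span (Set.finite_range y)) (hN.map _), ?_⟩
      intro s
      obtain ⟨t, ht, r, hr⟩ := key0 s
      obtain ⟨t', ht', r', hr'⟩ := h r
      refine ⟨t + π * t', Submodule.add_mem_sup ht ⟨t', ht', rfl⟩, r', ?_⟩
      have e1 : s = t + π * r := by rw [← hr]; ring
      have e2 : r = t' + π ^ j * r' := by rw [← hr']; ring
      rw [e1, e2]
      ring
  obtain ⟨N, hN, h⟩ := key1 e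
  have hdvd : algebraMap C S c ∣ π ^ e := he.dvd
  have key2 : ∀ k : ℕ, ∀ s : S, ∃ t ∈ N, algebraMap C S (c ^ k) ∣ s - t := by
    intro k
    induction k with
    | zero => intro s; exact ⟨0, Submodule.zero_mem _, by simp⟩
    | succ k ih =>
      intro s
      obtain ⟨t, ht, h1⟩ := h s
      obtain ⟨r, hr⟩ := hdvd.trans h1
      obtain ⟨t', ht', r', hr'⟩ := ih r
      refine ⟨t + c • t', Submodule.add_mem _ ht (Submodule.smul_mem _ _ ht'), r', ?_⟩
      have e1 : s = t + algebraMap C S c * r := by rw [← hr]; ring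
      have e2 : r = t' + algebraMap C S (c ^ k) * r' := by rw [← hr']; ring
      rw [e1, e2, Algebra.smul_def]
      simp only [map_pow]
      ring
  obtain ⟨m, g, hg⟩ := Submodule.fg_iff_exists_fin_generating_family.1 hN
  refine ⟨m, g, fun k s => ?_⟩
  obtain ⟨t, ht, hd⟩ := key2 k s
  rw [← hg, Submodule.mem_span_range_iff_exists_fun] at ht
  obtain ⟨b, hb⟩ := ht
  exact ⟨b, by rw [hb]; exact hd⟩

/-- every derivation vanishes -/
theorem C2_torsion_der {C S : Type*} [CommRing C] [IsDomain C] [IsDiscreteValuationRing C]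
    [CommRing S] [IsDomain S] [IsDiscreteValuationRing S] [CharZero S] [Algebra C S]
    [IsLocalHom (algebraMap C S)] (hinj : Function.Injective (algebraMap C S))
    [Module.Finite (ResidueField C) (ResidueField S)] (d : Derivation C S S) (x : S) :
    d x = 0 := by
  obtain ⟨c, hc⟩ := IsDiscreteValuationRing.exists_irreducible C
  obtain ⟨m, y, H⟩ := C2_torsion_fg (S := S) hinj c hc
  have h1 : ∀ k : ℕ, algebraMap C S (c ^ k) ∣ (m.factorial : S) * (d x) ^ (2 * m) := by
    intro k
    obtain ⟨f, hf1, hf2, hf3⟩ := C2_torsion_ch y (c ^ k) (H k) x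
    have := C2_torsion_iter d x (c ^ k) m f 0 hf2.le (by simpa using hf3)
    have hcoef : f.coeff m = 1 := by rw [← hf2]; exact hf1
    rw [hcoef] at this
    simpa using this
  have hne : Ideal.span {algebraMap C S c} ≠ ⊤ := by
    rw [Ne, Ideal.span_singleton_eq_top]
    intro hu
    exact hc.not_isUnit (isUnit_of_map_unit (algebraMap C S) c hu)
  have h2 : (m.factorial : S) * (d x) ^ (2 * m) ∈ (⨅ i : ℕ, Ideal.span {algebraMap C S c} ^ i) := by
    rw [Ideal.mem_iInf]
    intro i
    rw [Ideal.span_singleton_pow, Ideal.mem_span_singleton, ← map_pow]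
    exact h1 i
  rw [Ideal.iInf_pow_eq_bot_of_isLocalRing _ hne, Ideal.mem_bot] at h2
  rcases mul_eq_zero.1 h2 with h3 | h3
  · exact absurd (Nat.cast_eq_zero.1 h3) (Nat.factorial_ne_zero m)
  · exact eq_zero_of_pow_eq_zero h3

/-- `Ω[S⁄C]` is torsion for a quasi-finite local extension of DVRs in characteristic zero. -/
theorem C2_torsion {C S : Type*} [CommRing C] [IsDomain C] [IsDiscreteValuationRing C]
    [CommRing S] [IsDomain S] [IsDiscreteValuationRing S] [CharZero S] [Algebra C S]
    [IsLocalHom (algebraMap C S)] (hinj : Function.Injective (algebraMap C S))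
    [Algebra.EssFiniteType C S] [Module.Finite (ResidueField C) (ResidueField S)]
    (w : Ω[S⁄C]) : ∃ s : S, s ≠ 0 ∧ s • w = 0 := by
  classical
  by_contra hcon
  push Not at hcon
  have hfin : Module.Finite S (Ω[S⁄C]) := inferInstance
  let T := Submodule.torsion S (Ω[S⁄C])
  have hfree : Module.Free S (Ω[S⁄C] ⧸ T) := Module.free_of_finite_type_torsion_free'
  have hw : T.mkQ w ≠ 0 := by
    intro h
    rw [Submodule.mkQ_apply, Submodule.Quotient.mk_eq_zero] at h
    obtain ⟨a, ha⟩ := (Submodule.mem_torsion_iff w).1 h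
    exact hcon a (nonZeroDivisors.ne_zero a.2) ha
  -- functional
  obtain ⟨φ, hφ⟩ : ∃ φ : (Ω[S⁄C] ⧸ T) →ₗ[S] S, φ (T.mkQ w) ≠ 0 := by
    by_contra hno
    push Not at hno
    apply hw
    let b := Module.Free.chooseBasis S (Ω[S⁄C] ⧸ T)
    refine b.ext_elem fun i => ?_
    have := hno (b.coord i)
    simpa using this
  let d : Derivation C S S := (φ ∘ₗ T.mkQ).compDer (KaehlerDifferential.D C S)
  have hd : ∀ x, d x = 0 := fun x => C2_torsion_der hinj d x
  have hker : (⊤ : Submodule S (Ω[S⁄C])) ≤ LinearMap.ker (φ ∘ₗ T.mkQ) := by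
    rw [← KaehlerDifferential.span_range_derivation, Submodule.span_le]
    rintro _ ⟨x, rfl⟩
    exact hd x
  exact hφ (hker (Submodule.mem_top : w ∈ ⊤))

end LcP.C2
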