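import Mathlib

/-! Helper lemmas for MP_18dec4_ag, part C3a (team job 11617). -/

set_option linter.all false

namespace LcP.C3a

open IsLocalRing

/-- A local ring essentially of finite type over `C` is a quotient of a localisation of a
polynomial ring over `C` at a prime. -/
theorem C3a_presentation {C S : Type*} [CommRing C] [CommRing S] [IsLocalRing S] [Algebra C S]
    [Algebra.EssFiniteType C S] :
    ∃ (m : ℕ) (f : MvPolynomial (Fin m) C →ₐ[C] S),
      ∀ s : S, ∃ x y : MvPolynomial (Fin m) C, IsUnit (f y) ∧ s * f y = f x := by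
  classical
  obtain ⟨t, ht⟩ := (Algebra.essFiniteType_iff C S).mp inferInstance
  obtain ⟨g, hg⟩ : ∃ g : Fin t.card → S, g = fun i => (t.equivFin.symm i : S) := ⟨_, rfl⟩
  have hrange : Set.range g = (t : Set S) := by
    ext x
    constructor
    · rintro ⟨i, rfl⟩
      rw [hg]
      exact (t.equivFin.symm i).2
    · intro hx
      refine ⟨t.equivFin ⟨x, hx⟩, ?_⟩
      rw [hg]
      simp
  have hadj : Algebra.adjoin C (t : Set S) = (MvPolynomial.aeval g).range := by
    rw [← hrange, Algebra.adjoin_range_eq_range_aeval]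
  refine ⟨t.card, MvPolynomial.aeval g, fun s => ?_⟩
  obtain ⟨b, hb, hbu, hbs⟩ := ht s
  rw [hadj] at hb hbs
  obtain ⟨y, hy⟩ := hb
  obtain ⟨x, hx⟩ := hbs
  refine ⟨x, y, ?_, ?_⟩
  · change (MvPolynomial.aeval g) y = b at hy
    rw [hy]; exact hbu
  · change (MvPolynomial.aeval g) y = b at hy
    change (MvPolynomial.aeval g) x = s * b at hx
    rw [hy, hx]

end LcP.C3a
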