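import Mathlib

/-! Helper lemmas for MP_18dec4_ag, part C3b (team job 11618). -/

set_option linter.all false

namespace LcP.C3b

open IsLocalRing

theorem C3b_pad {B : Type*} [CommRing B] (I : Ideal B) (hfg : I.FG) (m : ℕ)
    (hm : Submodule.spanFinrank I ≤ m) : ∃ g : Fin m → B, Ideal.span (Set.range g) = I := by
  classical
  have hfin : (Submodule.generators I).Finite := Submodule.FG.finite_generators hfg
  have hcard : hfin.toFinset.card ≤ m := by
    rw [← Set.ncard_eq_toFinset_card _ hfin, Submodule.FG.generators_ncard hfg]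
    exact hm
  let e := hfin.toFinset.equivFin.symm
  refine ⟨fun i => if h : i.1 < hfin.toFinset.card then (e ⟨i.1, h⟩ : B) else 0, ?_⟩
  have hspan : Ideal.span (Submodule.generators I) = I := Submodule.span_generators I
  apply le_antisymm
  · rw [Ideal.span_le]
    rintro _ ⟨i, rfl⟩
    dsimp only
    split_ifs with h
    · have h1 : (e ⟨i.1, h⟩ : B) ∈ Submodule.generators I :=
        (hfin.mem_toFinset).1 (e ⟨i.1, h⟩).2
      have h2 : (e ⟨i.1, h⟩ : B) ∈ Ideal.span (Submodule.generators I) := Ideal.subset_span h1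
      rw [hspan] at h2
      exact h2
    · exact I.zero_mem
  · refine hspan.symm.le.trans ?_
    rw [Ideal.span_le]
    intro x hx
    have hx' : x ∈ hfin.toFinset := hfin.mem_toFinset.2 hx
    apply Ideal.subset_span
    refine ⟨⟨(e.symm ⟨x, hx'⟩).1, lt_of_lt_of_le (e.symm ⟨x, hx'⟩).2 hcard⟩, ?_⟩
    dsimp only
    rw [dif_pos (e.symm ⟨x, hx'⟩).2]
    have : (⟨(e.symm ⟨x, hx'⟩).1, (e.symm ⟨x, hx'⟩).2⟩ : Fin hfin.toFinset.card) =
      e.symm ⟨x, hx'⟩ := rfl
    rw [this, Equiv.apply_symm_apply]

/-- Let `C` be a Noetherian local ring with principal maximal ideal `(c)` and `𝔫` a prime of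
`C[X₁..X_m]` containing `c`.  The maximal ideal of `C[X]_𝔫` is generated by `c` and `m` elements. -/
theorem C3b_generators {C : Type*} [CommRing C] [IsLocalRing C] [IsNoetherianRing C] (c : C)
    (hc : maximalIdeal C = Ideal.span {c}) (m : ℕ) (𝔫 : Ideal (MvPolynomial (Fin m) C))
    [𝔫.IsPrime] (h : MvPolynomial.C c ∈ 𝔫) :
    ∃ g : Fin m → Localization.AtPrime 𝔫,
      maximalIdeal (Localization.AtPrime 𝔫) =
        Ideal.span (insert (algebraMap C (Localization.AtPrime 𝔫) c) (Set.range g)) := by
  classical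
  let φ : MvPolynomial (Fin m) C →+* MvPolynomial (Fin m) (ResidueField C) :=
    MvPolynomial.map (IsLocalRing.residue C)
  have hφ : Function.Surjective φ := MvPolynomial.map_surjective _ (residue_surjective (R := C))
  have hker : RingHom.ker φ = Ideal.span {MvPolynomial.C c} := by
    rw [MvPolynomial.ker_map, IsLocalRing.ker_residue, hc, Ideal.map_span, Set.image_singleton]
  have hkle : RingHom.ker φ ≤ 𝔫 := by
    rw [hker, Ideal.span_le, Set.singleton_subset_iff]; exact h
  let 𝔪 : Ideal (MvPolynomial (Fin m) (ResidueField C)) := 𝔫.map φ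
  haveI h𝔪 : 𝔪.IsPrime := Ideal.map_isPrime_of_surjective hφ hkle
  have hcomap : 𝔫 = 𝔪.comap φ := by
    rw [Ideal.comap_map_of_surjective φ hφ]
    refine (sup_eq_left.2 ?_).symm
    exact hkle
  -- the local ring of the fibre
  haveI hreg : IsRegularLocalRing (Localization.AtPrime 𝔪) :=
    IsRegularRing.isRegularLocalRing_localization 𝔪
  have hdim : ringKrullDim (Localization.AtPrime 𝔪) ≤ m := by
    rw [IsLocalization.AtPrime.ringKrullDim_eq_height 𝔪 (Localization.AtPrime 𝔪)]
    refine (Ideal.height_le_ringKrullDim_of_isPrime).trans ?_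
    rw [MvPolynomial.ringKrullDim_of_isNoetherianRing, ringKrullDim_eq_zero_of_field]
    simp
  have hrank : (maximalIdeal (Localization.AtPrime 𝔪)).spanFinrank ≤ m := by
    rw [← IsRegularLocalRing.spanFinrank_maximalIdeal] at hdim
    exact_mod_cast hdim
  obtain ⟨hb, hbspan⟩ := C3b_pad _ (maximalIdeal (Localization.AtPrime 𝔪)).fg_of_isNoetherianRing
    m hrank
  let ψ : Localization.AtPrime 𝔫 →+* Localization.AtPrime 𝔪 :=
    Localization.localRingHom 𝔫 𝔪 φ hcomap
  have hψ : Function.Surjective ψ := by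
    intro b
    obtain ⟨x, s, rfl⟩ := IsLocalization.exists_mk'_eq 𝔪.primeCompl b
    obtain ⟨x', rfl⟩ := hφ x
    obtain ⟨s', hs'⟩ := hφ s.1
    have hs2 : s' ∈ 𝔫.primeCompl := by
      intro h1
      apply s.2
      rw [← hs']
      exact Ideal.mem_map_of_mem φ h1
    refine ⟨IsLocalization.mk' _ x' ⟨s', hs2⟩, ?_⟩
    rw [Localization.localRingHom_mk']
    congr 1
    exact Subtype.ext hs'
  haveI : IsLocalHom ψ := Localization.isLocalHom_localRingHom 𝔫 𝔪 φ hcomap
  have hkerψ : Ideal.comap ψ ⊥ = Ideal.span {algebraMap C (Localization.AtPrime 𝔫) c} := by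
    have halg : algebraMap C (Localization.AtPrime 𝔫) c =
        algebraMap (MvPolynomial (Fin m) C) (Localization.AtPrime 𝔫) (MvPolynomial.C c) := by
      rw [IsScalarTower.algebraMap_apply C (MvPolynomial (Fin m) C) (Localization.AtPrime 𝔫)]
      rfl
    apply le_antisymm
    · intro a ha
      rw [Ideal.mem_comap, Ideal.mem_bot] at ha
      obtain ⟨x, s, rfl⟩ := IsLocalization.exists_mk'_eq 𝔫.primeCompl a
      rw [Localization.localRingHom_mk', IsLocalization.mk'_eq_zero_iff] at ha
      obtain ⟨t, ht⟩ := ha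
      obtain ⟨t', ht'⟩ := hφ t.1
      have ht2 : t' ∈ 𝔫.primeCompl := by
        intro h1
        apply t.2
        rw [← ht']
        exact Ideal.mem_map_of_mem φ h1
      have h3 : t' * x ∈ RingHom.ker φ := by
        rw [RingHom.mem_ker, map_mul, ht']; exact ht
      rw [hker, Ideal.mem_span_singleton] at h3
      obtain ⟨y, hy⟩ := h3
      rw [Ideal.mem_span_singleton, halg]
      have h4 : IsLocalization.mk' (Localization.AtPrime 𝔫) x s =
          IsLocalization.mk' (Localization.AtPrime 𝔫) (t' * x)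
            (⟨t', ht2⟩ * s : 𝔫.primeCompl) := by
        rw [IsLocalization.mk'_eq_iff_eq]
        congr 1
        simp only [Submonoid.coe_mul]
        ring
      rw [h4, hy, ← IsLocalization.mul_mk'_eq_mk'_of_mul]
      exact Dvd.intro _ rfl
    · rw [Ideal.span_le, Set.singleton_subset_iff]
      change ψ _ = 0
      rw [halg, Localization.localRingHom_to_map]
      have : φ (MvPolynomial.C c) = 0 := by
        rw [← RingHom.mem_ker, hker]
        exact Ideal.mem_span_singleton_self _
      rw [this, map_zero]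
  choose g hg using fun i => hψ (hb i)
  refine ⟨g, ?_⟩
  have h1 : maximalIdeal (Localization.AtPrime 𝔫) =
      (maximalIdeal (Localization.AtPrime 𝔪)).comap ψ := (IsLocalRing.maximalIdeal_comap ψ).symm
  have h2 : maximalIdeal (Localization.AtPrime 𝔪) = (Ideal.span (Set.range g)).map ψ := by
    rw [Ideal.map_span, ← hbspan, ← Set.range_comp]
    congr 2
    funext i
    exact (hg i).symm
  rw [h1, h2, Ideal.comap_map_of_surjective ψ hψ, hkerψ, Ideal.span_insert, sup_comm]

end LcP.C3b
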