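import Mathlib

/-! Helper lemmas for MP_18dec4_ag, part C3c (team job 11619). -/

set_option linter.all false

namespace LcP.C3c

open IsLocalRing

theorem C3c_kernel {P S : Type*} [CommRing P] [IsLocalRing P] [IsNoetherianRing P]
    [CommRing S] [IsDomain S] [IsDiscreteValuationRing S] (φ : P →+* S)
    (hφ : Function.Surjective φ) (m : ℕ) (ϖ : P) (g : Fin m → P)
    (hg : maximalIdeal P = Ideal.span (insert ϖ (Set.range g))) (f₁ : P) (hf₁ : φ f₁ = 0)
    (hf₁' : f₁ - ϖ ∈ maximalIdeal P ^ 2) :
    (∃ f : Fin m → P, RingHom.ker φ = Ideal.span (Set.range f) ∧ ∃ i, f i = f₁) ∨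
      (∃ k < m, ∃ f : Fin k → P, RingHom.ker φ = Ideal.span (Set.range f)) := by
  classical
  left
  have hcomap : (maximalIdeal S).comap φ = maximalIdeal P :=
    IsLocalRing.eq_maximalIdeal (Ideal.comap_isMaximal_of_surjective φ hφ)
  have hmem : ∀ x, x ∈ maximalIdeal P ↔ φ x ∈ maximalIdeal S := by
    intro x
    rw [← hcomap, Ideal.mem_comap]
  have hKm : RingHom.ker φ ≤ maximalIdeal P := by
    intro x hx
    rw [hmem, (RingHom.mem_ker).mp hx]
    exact zero_mem _
  have hf₁m : f₁ ∈ maximalIdeal P := hKm ((RingHom.mem_ker).mpr hf₁)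
  have hjac : maximalIdeal P ≤ Ideal.jacobson ⊥ := IsLocalRing.maximalIdeal_le_jacobson _
  have hgm : ∀ i, g i ∈ maximalIdeal P := by
    intro i
    rw [hg]
    exact Ideal.subset_span (Set.mem_insert_of_mem _ ⟨i, rfl⟩)
  -- change of generators
  have hm1 : maximalIdeal P = Ideal.span (insert f₁ (Set.range g)) := by
    apply le_antisymm
    · refine Submodule.le_of_le_smul_of_le_jacobson_bot (I := maximalIdeal P)
        (IsNoetherian.noetherian _) hjac ?_
      conv_lhs => rw [hg]
      rw [Ideal.span_le]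
      intro x hx
      rcases hx with rfl | hx
      · have h1 : x = f₁ + -(f₁ - x) := by ring
        rw [h1]
        refine Submodule.add_mem_sup (Ideal.subset_span (Set.mem_insert _ _)) ?_
        rw [smul_eq_mul, ← pow_two]
        exact neg_mem hf₁'
      · exact Submodule.mem_sup_left (Ideal.subset_span (Set.mem_insert_of_mem _ hx))
    · rw [Ideal.span_le]
      intro x hx
      rcases hx with rfl | ⟨i, rfl⟩
      · exact hf₁m
      · exact hgm i
  obtain ⟨π, hπ⟩ := IsDiscreteValuationRing.exists_irreducible S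
  have hmS : maximalIdeal S = Ideal.span {π} := hπ.maximalIdeal_eq
  have hi0 : ∃ i0, φ (g i0) ∉ Ideal.span {π ^ 2} := by
    by_contra hcon
    push Not at hcon
    obtain ⟨p, hp⟩ := hφ π
    have hpm : p ∈ maximalIdeal P := by
      rw [hmem, hp, hmS]
      exact Ideal.mem_span_singleton_self _
    rw [hm1] at hpm
    have h1 : π ∈ (Ideal.span (insert f₁ (Set.range g))).map φ := by
      rw [← hp]
      exact Ideal.mem_map_of_mem _ hpm
    rw [Ideal.map_span] at h1
    have h2 : Ideal.span (φ '' (insert f₁ (Set.range g))) ≤ Ideal.span {π ^ 2} := by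
      rw [Ideal.span_le]
      rintro _ ⟨x, hx, rfl⟩
      rcases hx with rfl | ⟨i, rfl⟩
      · rw [hf₁]
        exact zero_mem _
      · exact hcon i
    have h3 := h2 h1
    rw [Ideal.mem_span_singleton] at h3
    obtain ⟨c, hc⟩ := h3
    have h4 : π * 1 = π * (π * c) := by rw [mul_one, ← mul_assoc, ← pow_two]; exact hc
    have h5 := mul_left_cancel₀ hπ.ne_zero h4
    exact hπ.not_isUnit (IsUnit.of_mul_eq_one _ h5.symm)
  obtain ⟨i0, hi0⟩ := hi0
  have hs : ∃ u : S, IsUnit u ∧ φ (g i0) = π * u := by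
    have h1 := (hmem _).mp (hgm i0)
    rw [hmS, Ideal.mem_span_singleton] at h1
    obtain ⟨u, hu⟩ := h1
    refine ⟨u, ?_, hu⟩
    by_contra hnu
    have h2 : u ∈ maximalIdeal S := hnu
    rw [hmS, Ideal.mem_span_singleton] at h2
    obtain ⟨c, hc⟩ := h2
    apply hi0
    rw [hu, hc, Ideal.mem_span_singleton]
    exact ⟨c, by ring⟩
  obtain ⟨u, hu, hsu⟩ := hs
  have hs0 : φ (g i0) ≠ 0 := by
    rw [hsu]
    exact mul_ne_zero hπ.ne_zero hu.ne_zero
  have ha : ∀ i, ∃ a : P, φ (g i) = φ a * φ (g i0) := by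
    intro i
    have h1 := (hmem _).mp (hgm i)
    rw [hmS, Ideal.mem_span_singleton] at h1
    obtain ⟨c, hc⟩ := h1
    obtain ⟨v, hv⟩ := hu.exists_right_inv
    obtain ⟨a, ha⟩ := hφ (c * v)
    refine ⟨a, ?_⟩
    rw [ha, hsu, hc]
    calc π * c = π * c * (u * v) := by rw [hv, mul_one]
      _ = _ := by ring
  choose a ha using ha
  let f : Fin m → P := fun i => if i = i0 then f₁ else g i - a i * g i0
  have hfK : ∀ i, f i ∈ RingHom.ker φ := by
    intro i
    rw [RingHom.mem_ker]
    by_cases h : i = i0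
    · simp only [f, if_pos h]; exact hf₁
    · simp only [f, if_neg h, map_sub, map_mul]
      rw [← ha i, sub_self]
  refine ⟨f, le_antisymm ?_ ?_, i0, by simp [f]⟩
  · refine Submodule.le_of_le_smul_of_le_jacobson_bot (I := maximalIdeal P)
      (IsNoetherian.noetherian _) hjac ?_
    intro x hx
    have hxm : x ∈ Ideal.span {g i0} ⊔ Ideal.span (Set.range f) := by
      have h1 : maximalIdeal P ≤ Ideal.span {g i0} ⊔ Ideal.span (Set.range f) := by
        rw [hm1, Ideal.span_le]
        intro y hy
        rcases hy with rfl | ⟨i, rfl⟩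
        · exact Submodule.mem_sup_right (Ideal.subset_span ⟨i0, by simp [f]⟩)
        · by_cases h : i = i0
          · rw [h]
            exact Submodule.mem_sup_left (Ideal.mem_span_singleton_self _)
          · have h2 : g i = a i * g i0 + f i := by
              simp only [f, if_neg h]; ring
            show g i ∈ _
            rw [h2]
            exact Submodule.add_mem_sup (Ideal.mul_mem_left _ _ (Ideal.mem_span_singleton_self _))
              (Ideal.subset_span ⟨i, rfl⟩)
      exact h1 (hKm hx)
    obtain ⟨y, hy, z, hz, rfl⟩ := Submodule.mem_sup.mp hxm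
    rw [Ideal.mem_span_singleton] at hy
    obtain ⟨c, rfl⟩ := hy
    have hzK : z ∈ RingHom.ker φ := by
      have : Ideal.span (Set.range f) ≤ RingHom.ker φ := by
        rw [Ideal.span_le]
        rintro _ ⟨i, rfl⟩
        exact hfK i
      exact this hz
    have hcK : c ∈ RingHom.ker φ := by
      rw [RingHom.mem_ker] at hx hzK ⊢
      rw [map_add, map_mul, hzK, add_zero] at hx
      rcases mul_eq_zero.mp hx with h | h
      · exact absurd h hs0
      · exact h
    rw [add_comm]
    refine Submodule.add_mem_sup hz ?_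
    rw [← smul_eq_mul]
    exact Submodule.smul_mem_smul (hgm i0) hcK
  · rw [Ideal.span_le]
    rintro _ ⟨i, rfl⟩
    exact hfK i

end LcP.C3c
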