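import Mathlib

/-! Helper lemmas for MP_18dec4_ag, part C3d (team job 11620). -/

set_option linter.all false

namespace LcP.C3d

open KaehlerDifferential
open scoped TensorProduct

theorem C3d_span {C P S : Type*} [CommRing C] [CommRing P] [CommRing S]
    [Algebra C P] [Algebra P S] [Algebra C S] [IsScalarTower C P S]
    (hsurj : Function.Surjective (algebraMap P S)) (k : ℕ) (f : Fin k → P)
    (hf : RingHom.ker (algebraMap P S) = Ideal.span (Set.range f))
    (z : S ⊗[P] Ω[P⁄C]) (hz : KaehlerDifferential.mapBaseChange C P S z = 0) :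
    z ∈ Submodule.span S (Set.range (fun i => (1 : S) ⊗ₜ[P] D C P (f i))) := by
  have hex := KaehlerDifferential.exact_kerCotangentToTensor_mapBaseChange C P S hsurj
  obtain ⟨y, rfl⟩ := (hex z).1 hz
  obtain ⟨x, rfl⟩ := Ideal.toCotangent_surjective _ y
  rw [KaehlerDifferential.kerCotangentToTensor_toCotangent]
  obtain ⟨x, hx⟩ := x
  simp only
  have hx' : x ∈ Ideal.span (Set.range f) := hf ▸ hx
  clear hx hz
  refine Submodule.span_induction
    (p := fun x _ => (1 : S) ⊗ₜ[P] D C P x ∈
      Submodule.span S (Set.range (fun i => (1 : S) ⊗ₜ[P] D C P (f i)))) ?_ ?_ ?_ ?_ hx'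
  · rintro _ ⟨i, rfl⟩
    exact Submodule.subset_span ⟨i, rfl⟩
  · simp
  · intro a b _ _ ha hb
    rw [map_add, TensorProduct.tmul_add]
    exact Submodule.add_mem _ ha hb
  · intro a b hb ih
    have hb' : algebraMap P S b = 0 := by
      have : b ∈ RingHom.ker (algebraMap P S) := by rw [hf]; exact hb
      exact this
    have e1 : (1 : S) ⊗ₜ[P] D C P (a • b) = (algebraMap P S a) • ((1 : S) ⊗ₜ[P] D C P b) := by
      rw [smul_eq_mul, Derivation.leibniz, TensorProduct.tmul_add, TensorProduct.tmul_smul,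
        TensorProduct.tmul_smul, TensorProduct.smul_tmul' b, ← Algebra.algebraMap_eq_smul_one, hb',
        TensorProduct.zero_tmul, add_zero, algebraMap_smul]
    rw [e1]
    exact Submodule.smul_mem _ _ ih

theorem C3d_card {S M : Type*} [CommRing S] [IsDomain S] [AddCommGroup M] [Module S M] (m : ℕ)
    (b : Module.Basis (Fin m) S M) (T : Finset M)
    (hT : ∀ j, ∃ s : S, s ≠ 0 ∧ s • b j ∈ Submodule.span S (T : Set M)) : m ≤ T.card := by
  choose s hs hmem using hT
  have li : LinearIndependent S (fun j => s j • b j) := by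
    rw [Fintype.linearIndependent_iff]
    intro c hc i
    have h1 := Fintype.linearIndependent_iff.1 b.linearIndependent (fun j => c j * s j)
      (by simpa [mul_smul] using hc) i
    simpa [hs i] using h1
  have h2 := linearIndependent_le_span' (fun j => s j • b j) li (T : Set M) (by
    rintro _ ⟨j, rfl⟩
    exact hmem j)
  simpa using h2

theorem C3d_rank {C P S : Type*} [CommRing C] [CommRing P] [CommRing S] [IsDomain S]
    [Algebra C P] [Algebra P S] [Algebra C S] [IsScalarTower C P S]
    (hsurj : Function.Surjective (algebraMap P S)) (m : ℕ)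
    (b : Module.Basis (Fin m) P (Ω[P⁄C]))
    (htors : ∀ w : Ω[S⁄C], ∃ s : S, s ≠ 0 ∧ s • w = 0) (k : ℕ) (f : Fin k → P)
    (hf : RingHom.ker (algebraMap P S) = Ideal.span (Set.range f)) :
    m ≤ k ∧ (k = m → LinearIndependent S (fun i => (1 : S) ⊗ₜ[P] D C P (f i))) := by
  classical
  set g : Fin k → S ⊗[P] Ω[P⁄C] := fun i => (1 : S) ⊗ₜ[P] D C P (f i) with hg
  have key : ∀ w : S ⊗[P] Ω[P⁄C], ∃ s : S, s ≠ 0 ∧ s • w ∈ Submodule.span S (Set.range g) := by
    intro w
    obtain ⟨s, hs, h⟩ := htors (KaehlerDifferential.mapBaseChange C P S w)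
    refine ⟨s, hs, C3d_span hsurj k f hf _ ?_⟩
    rw [map_smul, h]
  let B : Module.Basis (Fin m) S (S ⊗[P] Ω[P⁄C]) := b.baseChange S
  refine ⟨?_, ?_⟩
  · have h1 := C3d_card m B (Finset.univ.image g) (by
      intro j
      obtain ⟨s, hs, h⟩ := key (B j)
      refine ⟨s, hs, ?_⟩
      rw [Finset.coe_image, Finset.coe_univ, Set.image_univ]
      exact h)
    exact h1.trans (Finset.card_image_le.trans (by simp))
  · intro hkm
    by_contra hli
    obtain ⟨r, hr, i0, hi0⟩ := Fintype.not_linearIndependent_iff.1 hli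
    have hsp : ∀ x ∈ Submodule.span S (Set.range g),
        r i0 • x ∈ Submodule.span S (((Finset.univ.erase i0).image g : Finset _) : Set (S ⊗[P] Ω[P⁄C])) := by
      intro x hx
      refine Submodule.span_induction (p := fun x _ => r i0 • x ∈
        Submodule.span S (((Finset.univ.erase i0).image g : Finset _) : Set (S ⊗[P] Ω[P⁄C]))) ?_ ?_ ?_ ?_ hx
      · rintro _ ⟨i, rfl⟩
        by_cases hi : i = i0
        · subst hi
          have h3 : r i • g i = - ∑ j ∈ Finset.univ.erase i, r j • g j := by
            rw [eq_neg_iff_add_eq_zero, Finset.add_sum_erase _ (fun j => r j • g j) (Finset.mem_univ i)]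
            exact hr
          rw [h3]
          refine Submodule.neg_mem _ (Submodule.sum_mem _ (fun j hj => Submodule.smul_mem _ _ ?_))
          refine Submodule.subset_span ?_
          exact Finset.mem_coe.2 (Finset.mem_image_of_mem _ hj)
        · refine Submodule.smul_mem _ _ (Submodule.subset_span ?_)
          exact Finset.mem_coe.2 (Finset.mem_image_of_mem _ (Finset.mem_erase.2 ⟨hi, Finset.mem_univ _⟩))
      · rw [smul_zero]; exact Submodule.zero_mem _
      · intro a c _ _ ha hc
        rw [smul_add]; exact Submodule.add_mem _ ha hc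
      · intro a c _ hc
        rw [smul_comm]; exact Submodule.smul_mem _ _ hc
    have h1 := C3d_card m B ((Finset.univ.erase i0).image g) (by
      intro j
      obtain ⟨s, hs, h⟩ := key (B j)
      refine ⟨r i0 * s, mul_ne_zero hi0 hs, ?_⟩
      rw [mul_smul]
      exact hsp _ h)
    have h2 : ((Finset.univ.erase i0).image g).card ≤ k - 1 := by
      refine Finset.card_image_le.trans ?_
      rw [Finset.card_erase_of_mem (Finset.mem_univ _)]
      simp
    have hk : 0 < k := Fin.pos i0
    omega

theorem C3e_nonzero {C P S : Type*} [CommRing C] [CommRing P] [CommRing S] [IsDomain S]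
    [Algebra C P] [Algebra P S] [Algebra C S] [IsScalarTower C P S]
    (hsurj : Function.Surjective (algebraMap P S)) (m : ℕ) (f : Fin m → P)
    (hf : RingHom.ker (algebraMap P S) = Ideal.span (Set.range f))
    (hli : LinearIndependent S (fun i => (1 : S) ⊗ₜ[P] D C P (f i)))
    (i₀ : Fin m) (c : C) (s ũ : P) (e : ℕ) (he : 2 ≤ e)
    (hfi : f i₀ = algebraMap C P c - ũ * s ^ e) (hs : ¬ IsUnit (algebraMap P S s))
    (hs0 : algebraMap P S s ≠ 0) :
    (algebraMap P S s) ^ (e - 1) • D C S (algebraMap P S ũ) +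
      ((e : S) * algebraMap P S ũ * (algebraMap P S s) ^ (e - 2)) • D C S (algebraMap P S s) ≠ 0 := by
  classical
  intro h0
  obtain ⟨e, rfl⟩ : ∃ d, e = d + 2 := ⟨e - 2, by omega⟩
  have e1 : e + 2 - 1 = e + 1 := rfl
  have e2 : e + 2 - 2 = e := rfl
  rw [e1, e2] at h0
  set η : Ω[P⁄C] := s ^ (e + 1) • D C P ũ + (((e + 2 : ℕ) : P) * ũ * s ^ e) • D C P s with hη
  have hmap : KaehlerDifferential.mapBaseChange C P S ((1 : S) ⊗ₜ[P] η) = 0 := by
    rw [KaehlerDifferential.mapBaseChange_tmul, one_smul, hη, map_add, map_smul, map_smul,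
      KaehlerDifferential.map_D, KaehlerDifferential.map_D, ← algebraMap_smul S (s ^ (e + 1)),
      ← algebraMap_smul S (((e + 2 : ℕ) : P) * ũ * s ^ e)]
    rw [map_mul, map_mul, map_natCast, map_pow, map_pow]
    exact h0
  have hsp := C3d_span hsurj m f hf _ hmap
  rw [Submodule.mem_span_range_iff_exists_fun] at hsp
  obtain ⟨r, hr⟩ := hsp
  have hD : D C P (f i₀) = - (s • η) := by
    rw [hfi, map_sub, Derivation.map_algebraMap, zero_sub, Derivation.leibniz,
      Derivation.leibniz_pow, hη]
    congr 1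
    rw [show e + 2 - 1 = e + 1 from rfl, smul_add, smul_smul, smul_smul, ← Nat.cast_smul_eq_nsmul P,
      smul_smul, smul_smul, add_comm]
    congr 1
    · congr 1; ring
    · congr 1; ring
  have hg : (1 : S) ⊗ₜ[P] D C P (f i₀) = - (algebraMap P S s • ((1 : S) ⊗ₜ[P] η)) := by
    rw [hD, TensorProduct.tmul_neg, TensorProduct.tmul_smul, algebraMap_smul]
  rw [← hr] at hg
  have hz : ∑ i, ((if i = i₀ then (1 : S) else 0) + algebraMap P S s * r i) •
      ((1 : S) ⊗ₜ[P] D C P (f i)) = 0 := by
    simp only [add_smul, Finset.sum_add_distrib, mul_smul, ← Finset.smul_sum, ite_smul, one_smul,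
      zero_smul, Finset.sum_ite_eq', Finset.mem_univ, if_true]
    rw [hg]
    exact neg_add_cancel _
  have h1 := Fintype.linearIndependent_iff.1 hli _ hz i₀
  simp only [if_true] at h1
  apply hs
  refine IsUnit.of_mul_eq_one (- r i₀) ?_
  linear_combination -h1

end LcP.C3d
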