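import Mathlib

/-!
# Log canonical pairs `(X, X_p)` for affine `X = Spec B` flat of finite type over `ℤ_p`

Definitions used in the statement of the hand-in for MP_18dec4_ag.

Throughout `B` is an integrally closed domain, flat and of finite type over `ℤ_p`, `X = Spec B`,
`K = Frac B` is its function field, `n = dim Ω_{K/ℚ_p}` its relative dimension.

*Prime divisors over `X`.*  If `f : Y → X` is proper birational, `Y` normal, and `E ⊂ Y` is a prime
divisor, then `R = 𝒪_{Y,E}` is a discrete valuation ring with `B ⊆ R ⊆ K = Frac R`, essentially of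
finite type over `ℤ_p`; conversely every such `R` is `𝒪_{Y,E}` for some such `Y` and `E` (compactify
and normalise a finite type model of `R`).  The generic point of `f(E)` is the centre `𝔪_R ∩ B`.
`E` is not exceptional iff its centre has height one (and then `R = B_𝔮`, `𝔮` the centre), and `E`
is `f`-exceptional iff its centre has height at least two.

*Canonical divisors.*  Let `R` be such a ring.  It is regular and essentially of finite type over
the regular ring `ℤ_p`, so `R = P/(f_1,…,f_h)` with `P` a localisation of a polynomial ring in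
`n + h` variables over `ℤ_p` and `f_1,…,f_h` a regular sequence, and the relative dualising module
is `ω_{R/ℤ_p} = Hom(Λ^h(I/I²), Λ^{n+h} Ω_P ⊗ R)`.  In it `dz_1 ∧ … ∧ dz_n` (`z_i ∈ R`) is the
homomorphism `f_1 ∧ … ∧ f_h ↦ df_1 ∧ … ∧ df_h ∧ dz_1 ∧ … ∧ dz_n`; so its order of vanishing is the
valuation of the determinant of the square matrix `(df_1, …, df_h, dz_1, …, dz_n)` with cokernel
`Ω_{R/ℤ_p} / ⟨dz_1, …, dz_n⟩`, i.e. it is the length of this `R`-module.  This length is
`formOrder`.  As `ℤ_p` is regular (Gorenstein) of dimension one, `K_Y = ∑_E ord_E(dz) E` is a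
canonical divisor of `Y`, and the pushforward of `K_Y` is the canonical divisor
`K_X = ∑_{height 𝔮 = 1} ord_{B_𝔮}(dz) 𝔮` of `X` defined by the same rational form.
-/

namespace LcP

open IsLocalRing KaehlerDifferential
open IsDiscreteValuationRing (addVal)

section Defs

variable (p : ℕ) [Fact p.Prime] (B : Type) [CommRing B] [IsDomain B] [Algebra ℤ_[p] B]

/-- The centre on `X = Spec B` of a discrete valuation ring `R` with `B ⊆ R ⊆ Frac B`. -/
noncomputable def centre (R : Subalgebra B (FractionRing B)) [IsDiscreteValuationRing R] :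
    Ideal B :=
  (maximalIdeal R).comap (algebraMap B R)

/-- The order along `R` of the rational top form `dz_1 ∧ … ∧ dz_n`, as a section of the relative
dualising module `ω_{R/ℤ_p}`: the length of `Ω_{R/ℤ_p} / ⟨dz_1, …, dz_n⟩`. -/
noncomputable def formOrder (R : Subalgebra B (FractionRing B)) {n : ℕ} (z : Fin n → B) : ℕ∞ :=
  Module.length R (Ω[R⁄ℤ_[p]] ⧸
    Submodule.span R (Set.range fun i => D ℤ_[p] R (algebraMap B R (z i))))

/-- `z_1, …, z_n ∈ B` are *reference coordinates*: `dz_1, …, dz_n` is a `K`-basis of the
differentials `Ω_{K/ℤ_p}` of the function field `K`, so that `dz_1 ∧ … ∧ dz_n` is a nonzero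
rational top form on `X`. -/
def IsReference {n : ℕ} (z : Fin n → B) : Prop :=
  LinearIndependent (FractionRing B)
    (fun i => D ℤ_[p] (FractionRing B) (algebraMap B (FractionRing B) (z i))) ∧
  Submodule.span (FractionRing B)
    (Set.range fun i => D ℤ_[p] (FractionRing B) (algebraMap B (FractionRing B) (z i))) = ⊤

/-- The pair `(X, X_p)` with `X = Spec B` and `X_p = div(p)` is *log canonical*.

* `exists_reference`: reference coordinates exist (this is automatic, recorded for clarity).
* `coefficient_le_one`: every coefficient of `X_p = div(p)` is at most `1`.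
* `discrepancy`: for every choice of reference coordinates `z` (defining the canonical divisors
  `K_X`, `K_Y` by the form `dz_1 ∧ … ∧ dz_n`), there is `N ≥ 1` such that near each point `x ∈ X`
  the divisor `N (K_X + X_p)` is principal, say equal to `div(a/b)` on `Spec B_x`
  (i.e. `v_𝔮(a/b) = N (ord_𝔮(dz) + v_𝔮(p))` for all primes `𝔮 ≤ x` of height one), and
  every exceptional prime divisor `E` with centre `x`, with ring `R = 𝒪_{Y,E}`, has discrepancy
  `a(E) = ord_E(dz) - v_E(a/b)/N ≥ -1`, i.e. `v_R(a) ≤ v_R(b) + N (ord_R(dz) + 1)`. -/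
structure IsLogCanonicalPairAux : Prop where
  exists_reference : ∃ (n : ℕ) (z : Fin n → B), IsReference p B z
  coefficient_le_one : ∀ (R : Subalgebra B (FractionRing B)) [IsDiscreteValuationRing R],
    Algebra.EssFiniteType ℤ_[p] R → (centre B R).height = 1 →
      addVal R (algebraMap B R (p : B)) ≤ 1
  discrepancy : ∀ (n : ℕ) (z : Fin n → B), IsReference p B z →
    ∃ N : ℕ, 0 < N ∧ ∀ x : PrimeSpectrum B, ∃ a b : B, a ≠ 0 ∧ b ≠ 0 ∧
      (∀ (R : Subalgebra B (FractionRing B)) [IsDiscreteValuationRing R],
        Algebra.EssFiniteType ℤ_[p] R → (centre B R).height = 1 → centre B R ≤ x.asIdeal →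
        ∃ k : ℕ, formOrder p B R z = k ∧
          addVal R (algebraMap B R a) =
            addVal R (algebraMap B R b) + N * (k + addVal R (algebraMap B R (p : B)))) ∧
      (∀ (R : Subalgebra B (FractionRing B)) [IsDiscreteValuationRing R],
        Algebra.EssFiniteType ℤ_[p] R → 2 ≤ (centre B R).height → centre B R = x.asIdeal →
        ∃ k : ℕ, formOrder p B R z = k ∧
          addVal R (algebraMap B R a) ≤ addVal R (algebraMap B R b) + N * (k + 1))

end Defs

/-- Serre's condition `S₂` for `Spec C`: for every prime `z`, the local ring `C_z` has depth at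
least `min(2, dim C_z)`, i.e. for each `k ≤ 2` with `k ≤ dim C_z` there is a `C_z`-regular sequence
of length `k` in its maximal ideal. -/
def IsS2 (C : Type*) [CommRing C] : Prop :=
  ∀ z : PrimeSpectrum C, ∀ k : ℕ, k ≤ 2 →
    (k : WithBot ℕ∞) ≤ ringKrullDim (Localization.AtPrime z.asIdeal) →
    ∃ rs : List (Localization.AtPrime z.asIdeal), rs.length = k ∧
      (∀ r ∈ rs, r ∈ maximalIdeal (Localization.AtPrime z.asIdeal)) ∧
      RingTheory.Sequence.IsRegular (Localization.AtPrime z.asIdeal) rs

end LcP
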