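import Mathlib

/-!
# Log canonical pairs `(X, X_p)` for affine `X = Spec B` flat of finite type over `ℤ_p`

Definitions used in the statement of the hand-in for MP_18dec4_ag.

Throughout `B` is an integrally closed domain, flat and of finite type over `ℤ_p`, `X = Spec B`,
`K = Frac B` is its function field, `n = dim Ω_{K/ℚ_p}` its relative dimension.

*Prime divisors over `X`.*  If `f : Y → X` is proper birational, `Y` normal, and `E ⊂ Y` is a prime
divisor, then `R = 𝒪_{Y,E}` is a discrete valuation ring with `B ⊆ R ⊆ K = Frac R`, essentially of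
finite type over `ℤ_p`; conversely every such `R` is `𝒪_{Y,E}` for some such `Y` and `E` (compactify
and normalise a finite type model of `R`).  The generic point of `f(E)` is the centre `𝔪_R ∩ B`.
`E` is not exceptional iff its centre has height one (and then `R = B_𝔮`, `𝔮` the centre), and `E`
is `f`-exceptional iff its centre has height at least two.

*Canonical divisors.*  Let `R` be such a ring.  It is regular and essentially of finite type over
the regular ring `ℤ_p`, so `R = P/(f_1,…,f_h)` with `P` a localisation of a polynomial ring in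
`n + h` variables over `ℤ_p` and `f_1,…,f_h` a regular sequence generating `I`, and the relative
dualising module is `ω_{R/ℤ_p} = Hom(Λ^h(I/I²), Λ^{n+h} Ω_P ⊗ R)`.  In it `dz_1 ∧ … ∧ dz_n`
(`z_i ∈ R`) is the homomorphism `f_1 ∧ … ∧ f_h ↦ df_1 ∧ … ∧ df_h ∧ dz_1 ∧ … ∧ dz_n`; so its order of
vanishing is the valuation of the determinant of the square matrix
`(df_1, …, df_h, dz_1, …, dz_n)`, whose cokernel is `Ω_{R/ℤ_p} / ⟨dz_1, …, dz_n⟩`, i.e. it is the
length of this `R`-module.  This length is `formOrder`.  As `ℤ_p` is regular, `K_Y = ∑_E ord_E(dz) E`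
is a canonical divisor of `Y`, and its pushforward is the canonical divisor
`K_X = ∑_{height 𝔮 = 1} ord_{B_𝔮}(dz) 𝔮` of `X` defined by the same rational form.
-/

namespace LcP

open IsLocalRing KaehlerDifferential
open IsDiscreteValuationRing (addVal)

section Forms

variable (p : ℕ) [Fact p.Prime]

/-- For a discrete valuation ring `R` essentially of finite type over `ℤ_p` and `z_1, …, z_n ∈ R`:
the order of `dz_1 ∧ … ∧ dz_n` as a section of the relative dualising module `ω_{R/ℤ_p}`, i.e. the
length of `Ω_{R/ℤ_p} / ⟨dz_1, …, dz_n⟩`. -/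
noncomputable def formOrd (R : Type) [CommRing R] [Algebra ℤ_[p] R] {n : ℕ} (z : Fin n → R) : ℕ∞ :=
  Module.length R (Ω[R⁄ℤ_[p]] ⧸ Submodule.span R (Set.range fun i => D ℤ_[p] R (z i)))

/-- `dz_1, …, dz_n` is a basis of the `K`-vector space `Ω_{K/ℤ_p}`. -/
def IsDifferentialBasis (K : Type) [Field K] [Algebra ℤ_[p] K] {n : ℕ} (z : Fin n → K) : Prop :=
  LinearIndependent K (fun i => D ℤ_[p] K (z i)) ∧
    Submodule.span K (Set.range fun i => D ℤ_[p] K (z i)) = ⊤

end Forms

section Pairs

variable (p : ℕ) [Fact p.Prime] (B : Type) [CommRing B] [IsDomain B] [Algebra ℤ_[p] B]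

/-- `z_1, …, z_n ∈ B` are *reference coordinates*: `dz_1, …, dz_n` is a `K`-basis of the
differentials `Ω_{K/ℤ_p}` of the function field `K = Frac B`, so that `dz_1 ∧ … ∧ dz_n` is a nonzero
rational top form on `X = Spec B`. -/
def IsReferenceSystem {n : ℕ} (z : Fin n → B) : Prop :=
  IsDifferentialBasis p (FractionRing B) fun i => algebraMap B (FractionRing B) (z i)

/-- A *prime divisor over* `X = Spec B`: a discrete valuation ring `R` with
`B ⊆ R ⊆ K = Frac B` which is essentially of finite type over `ℤ_p`.  These are the local rings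
`𝒪_{Y,E}` of the prime divisors `E` on the normal schemes `Y` proper birational over `X`. -/
structure DivisorOver where
  /-- the local ring `𝒪_{Y,E}` -/
  ring : Subalgebra B (FractionRing B)
  isDVR : IsDiscreteValuationRing ring
  isEssFiniteType : Algebra.EssFiniteType ℤ_[p] ring

attribute [instance] DivisorOver.isDVR

variable {p B}

namespace DivisorOver

/-- The centre of `E` on `X = Spec B`. -/
noncomputable def centre (E : DivisorOver p B) : Ideal B :=
  (maximalIdeal E.ring).comap (algebraMap B E.ring)

/-- The order of vanishing `v_E(b)` of `b ∈ B` along `E`. -/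
noncomputable def val (E : DivisorOver p B) (b : B) : ℕ∞ :=
  addVal E.ring (algebraMap B E.ring b)

/-- `ord_E(dz)`, the coefficient of `E` in the canonical divisor `K_Y` defined by
`dz_1 ∧ … ∧ dz_n`. -/
noncomputable def formOrder (E : DivisorOver p B) {n : ℕ} (z : Fin n → B) : ℕ∞ :=
  formOrd p E.ring fun i => algebraMap B E.ring (z i)

end DivisorOver

/-- `N (K_X + X_p) = div(a/b)` on `Spec B_x`: for every height one prime contained in `x`, i.e. for
every prime divisor `E` of `X` through `x`, `v_E(a) - v_E(b) = N (ord_E(dz) + v_E(p))`. -/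
def IsLocalEquation {n : ℕ} (z : Fin n → B) (N : ℕ) (x : Ideal B) (a b : B) : Prop :=
  ∀ E : DivisorOver p B, E.centre.height = 1 → E.centre ≤ x →
    ∃ k : ℕ, E.formOrder z = k ∧ E.val a = E.val b + N * (k + E.val (p : B))

/-- Every exceptional prime divisor `E` with centre `x` has discrepancy
`a(E) = ord_E(dz) - v_E(a/b)/N ≥ -1`. -/
def DiscrepancyGeNegOne {n : ℕ} (z : Fin n → B) (N : ℕ) (x : Ideal B) (a b : B) : Prop :=
  ∀ E : DivisorOver p B, 2 ≤ E.centre.height → E.centre = x →
    ∃ k : ℕ, E.formOrder z = k ∧ E.val a ≤ E.val b + N * (k + 1)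

variable (p B)

/-- The pair `(X, X_p)` with `X = Spec B` and `X_p = div(p)` is *log canonical*.

* `exists_reference`: reference coordinates exist (this is automatic, recorded for clarity).
* `coefficient_le_one`: every coefficient of `X_p = div(p)` is at most `1`.
* `discrepancy`: for every choice of reference coordinates `z` (defining the canonical divisors
  `K_X`, `K_Y` by the form `dz_1 ∧ … ∧ dz_n`) there is `N ≥ 1` such that near each point `x ∈ X`
  the divisor `N (K_X + X_p)` is principal, equal to `div(a/b)` for some nonzero `a, b ∈ B`, and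
  every exceptional prime divisor `E` with centre `x` has discrepancy
  `a(E) = ord_E(dz) - v_E(a/b)/N ≥ -1`. -/
structure IsLogCanonicalPair : Prop where
  exists_reference : ∃ (n : ℕ) (z : Fin n → B), IsReferenceSystem p B z
  coefficient_le_one : ∀ E : DivisorOver p B, E.centre.height = 1 → E.val (p : B) ≤ 1
  discrepancy : ∀ (n : ℕ) (z : Fin n → B), IsReferenceSystem p B z →
    ∃ N : ℕ, 0 < N ∧ ∀ x : PrimeSpectrum B, ∃ a b : B, a ≠ 0 ∧ b ≠ 0 ∧
      IsLocalEquation (p := p) z N x.asIdeal a b ∧
      DiscrepancyGeNegOne (p := p) z N x.asIdeal a b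

end Pairs

/-- The local ring `R` has depth at least `k`: there is an `R`-regular sequence of length `k` in the
maximal ideal. -/
def DepthAtLeast (R : Type) [CommRing R] [IsLocalRing R] (k : ℕ) : Prop :=
  ∃ rs : List R, rs.length = k ∧ (∀ r ∈ rs, r ∈ maximalIdeal R) ∧
    RingTheory.Sequence.IsRegular R rs

/-- Serre's condition `S₂` for `Spec C`: for every prime `z`, the local ring `C_z` has depth at
least `min(2, dim C_z)`, i.e. depth at least `k` for each `k ≤ 2` with `k ≤ dim C_z`. -/
def IsSerreS2 (C : Type) [CommRing C] : Prop :=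
  ∀ z : PrimeSpectrum C, ∀ k : ℕ, k ≤ 2 →
    (k : WithBot ℕ∞) ≤ ringKrullDim (Localization.AtPrime z.asIdeal) →
    DepthAtLeast (Localization.AtPrime z.asIdeal) k

end LcP
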