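import Mathlib
import Pool.Agent.Helper142.Lc.Defs
import Pool.Agent.Helper142.Lc.Pairs

/-! Helper lemmas for MP_18dec4_ag: comparison of the unbundled definitions used in the proof with
the definitions used in the statement. -/

namespace LcP

theorem IsLogCanonicalPair.of_aux {p : ℕ} [Fact p.Prime] {B : Type} [CommRing B] [IsDomain B]
    [Algebra ℤ_[p] B] (h : IsLogCanonicalPairAux p B) : IsLogCanonicalPair p B where
  exists_reference := h.exists_reference
  coefficient_le_one := fun E hE => @h.coefficient_le_one E.ring E.isDVR E.isEssFiniteType hE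
  discrepancy := by
    intro n z hz
    obtain ⟨N, hN, H⟩ := h.discrepancy n z hz
    refine ⟨N, hN, fun x => ?_⟩
    obtain ⟨a, b, ha, hb, h1, h2⟩ := H x
    exact ⟨a, b, ha, hb, fun E h h' => @h1 E.ring E.isDVR E.isEssFiniteType h h',
      fun E h h' => @h2 E.ring E.isDVR E.isEssFiniteType h h'⟩

theorem IsSerreS2.isS2 {C : Type} [CommRing C] (h : IsSerreS2 C) : IsS2 C := h

end LcP
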