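import Mathlib

/-! Helper lemmas for MP_18dec4_ag, part E1 (team job 11621). -/

set_option linter.all false

namespace LcP.E1

open IsDiscreteValuationRing (addVal)

theorem E1_ord_eq {S : Type*} [CommRing S] [IsDomain S] [IsDiscreteValuationRing S]
    {x : S} (hx : x ≠ 0) : Ring.ord S x = addVal S x := by
  obtain ⟨ϖ, hϖ⟩ := IsDiscreteValuationRing.exists_irreducible S
  obtain ⟨n, u, rfl⟩ := IsDiscreteValuationRing.eq_unit_mul_pow_irreducible hx hϖ
  rw [IsDiscreteValuationRing.addVal_def' u hϖ n, Ring.ord_mul_of_isUnit_left u.isUnit,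
    Ring.ord_pow (mem_nonZeroDivisors_of_ne_zero hϖ.ne_zero), Ring.ord_of_irreducible hϖ]
  simp

theorem E1_length_self {S : Type*} [CommRing S] [IsDomain S] [IsDiscreteValuationRing S] :
    Module.length S S = ⊤ := by
  by_contra h
  have h1 : IsFiniteLength S S := (Module.length_ne_top_iff).mp h
  have h2 : IsArtinian S S := (isFiniteLength_iff_isNoetherian_isArtinian.mp h1).2
  have h3 : IsArtinianRing S := h2
  exact IsDiscreteValuationRing.not_isField S (IsArtinianRing.isField_of_isDomain S)

theorem E1_addVal_prod {S ι : Type*} [CommRing S] [IsDomain S] [IsDiscreteValuationRing S]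
    (s : Finset ι) (a : ι → S) : addVal S (∏ i ∈ s, a i) = ∑ i ∈ s, addVal S (a i) := by
  classical
  induction s using Finset.induction_on with
  | empty => simp
  | insert i s hi ih =>
    rw [Finset.prod_insert hi, Finset.sum_insert hi, IsDiscreteValuationRing.addVal_mul, ih]

/-- key case : nonzero determinant -/
theorem E1_key {S N ι : Type*} [CommRing S] [IsDomain S] [IsDiscreteValuationRing S]
    [AddCommGroup N] [Module S N] [Fintype ι] [DecidableEq ι]
    (b : Module.Basis ι S N) (w : ι → N) (J : Matrix ι ι S)
    (hw : ∀ i, w i = ∑ j, J i j • b j) (hJ : J.det ≠ 0) :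
    Module.length S (N ⧸ Submodule.span S (Set.range w)) = addVal S J.det := by
  have hli : LinearIndependent S w := by
    have h1 : LinearIndependent S (fun i => b.equivFun.symm (J i)) :=
      (Matrix.linearIndependent_rows_of_det_ne_zero hJ).map' _
        (LinearEquiv.ker (b.equivFun.symm))
    have h2 : (fun i => b.equivFun.symm (J i)) = w := by
      funext i
      rw [hw i, Module.Basis.equivFun_symm_apply]
    rwa [h2] at h1
  set W := Submodule.span S (Set.range w) with hW
  let bw : Module.Basis ι S W := Module.Basis.span hli
  have hbw : ∀ i, ((bw i : W) : N) = w i := fun i =>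
    congrArg Subtype.val (Module.Basis.span_apply hli i)
  have hfr : Module.finrank S W = Module.finrank S N := by
    rw [Module.finrank_eq_card_basis bw, Module.finrank_eq_card_basis b]
  let b1 := Submodule.smithNormalFormTopBasis b hfr
  let b2 := Submodule.smithNormalFormBotBasis b hfr
  let a := Submodule.smithNormalFormCoeffs b hfr
  have hdef : ∀ i, ((b2 i : W) : N) = a i • b1 i := Submodule.smithNormalFormBotBasis_def b hfr
  have ha0 : ∀ i, a i ≠ 0 := Submodule.smithNormalFormCoeffs_ne_zero b hfr
  have hlen : Module.length S (N ⧸ W) = ∑ i, addVal S (a i) := by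
    rw [(Submodule.quotientEquivPiSpan W b hfr).length_eq, Module.length_pi_of_fintype]
    exact Finset.sum_congr rfl fun i _ => E1_ord_eq (ha0 i)
  have hdet : J.det = (b.toMatrix b1).det * ((∏ i, a i) * (b2.toMatrix bw).det) := by
    have h1 : J.transpose = b.toMatrix w := by
      ext i j
      rw [Matrix.transpose_apply, Module.Basis.toMatrix_apply, hw j]
      simp [Finsupp.single_apply]
    have h2 : b1.toMatrix w = Matrix.diagonal a * b2.toMatrix bw := by
      ext i j
      rw [Matrix.diagonal_mul, Module.Basis.toMatrix_apply, Module.Basis.toMatrix_apply]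
      have h3 : w j = ∑ k, (b2.repr (bw j) k * a k) • b1 k := by
        rw [← hbw j]
        conv_lhs => rw [← b2.sum_repr (bw j)]
        rw [Submodule.coe_sum]
        refine Finset.sum_congr rfl fun k _ => ?_
        rw [Submodule.coe_smul, hdef k, smul_smul]
      rw [h3]
      simp [Finsupp.single_apply, mul_comm]
    rw [← Matrix.det_transpose, h1, ← Module.Basis.toMatrix_mul_toMatrix (b := b) (b' := b1),
      Matrix.det_mul, h2, Matrix.det_mul, Matrix.det_diagonal]
  have hu1 : IsUnit (b.toMatrix b1).det := by
    rw [← Matrix.isUnit_iff_isUnit_det]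
    have := Module.Basis.invertibleToMatrix b b1
    exact isUnit_of_invertible _
  have hu2 : IsUnit (b2.toMatrix bw).det := by
    rw [← Matrix.isUnit_iff_isUnit_det]
    have := Module.Basis.invertibleToMatrix b2 bw
    exact isUnit_of_invertible _
  rw [hlen, hdet, IsDiscreteValuationRing.addVal_mul, IsDiscreteValuationRing.addVal_mul,
    E1_addVal_prod, IsDiscreteValuationRing.addVal_eq_zero_iff.mpr hu1,
    IsDiscreteValuationRing.addVal_eq_zero_iff.mpr hu2, zero_add, add_zero]

theorem E1_zero {S N ι : Type*} [CommRing S] [IsDomain S] [IsDiscreteValuationRing S]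
    [AddCommGroup N] [Module S N] [Fintype ι] [DecidableEq ι]
    (b : Module.Basis ι S N) (w : ι → N) (J : Matrix ι ι S)
    (hw : ∀ i, w i = ∑ j, J i j • b j) (hJ : J.det = 0) :
    Module.length S (N ⧸ Submodule.span S (Set.range w)) = ⊤ := by
  obtain ⟨v, hv0, hv⟩ := Matrix.exists_mulVec_eq_zero_iff.mpr hJ
  let φ : N →ₗ[S] S := b.constr S v
  have hφ : ∀ j, φ (b j) = v j := fun j => Module.Basis.constr_basis b S v j
  have hφw : ∀ i, φ (w i) = 0 := by
    intro i
    rw [hw i, map_sum]
    simp only [map_smul, hφ, smul_eq_mul]
    exact congrFun hv i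
  have hker : Submodule.span S (Set.range w) ≤ LinearMap.ker φ := by
    rw [Submodule.span_le]
    rintro _ ⟨i, rfl⟩
    exact hφw i
  let ψ := (Submodule.span S (Set.range w)).liftQ φ hker
  obtain ⟨j, hj⟩ := Function.ne_iff.mp hv0
  have hmem : v j ∈ LinearMap.range ψ :=
    ⟨Submodule.Quotient.mk (b j), by
      change (Submodule.span S (Set.range w)).liftQ φ hker (Submodule.Quotient.mk (b j)) = v j
      rw [Submodule.liftQ_apply, hφ]⟩
  have h1 : Module.length S (LinearMap.range ψ) ≤
      Module.length S (N ⧸ Submodule.span S (Set.range w)) :=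
    Module.length_le_of_surjective ψ.rangeRestrict ψ.surjective_rangeRestrict
  have h2 : Module.length S S ≤ Module.length S (LinearMap.range ψ) := by
    refine Module.length_le_of_injective
      (LinearMap.toSpanSingleton S (LinearMap.range ψ) ⟨v j, hmem⟩) ?_
    intro s t hst
    have h3 : s * v j = t * v j := by
      have := congrArg Subtype.val hst
      simpa using this
    exact mul_right_cancel₀ hj h3
  rw [E1_length_self] at h2
  exact top_le_iff.mp (h2.trans h1)

/-- If `m` is linearly independent over a DVR `S` and `m' i = ∑ J i j m j`, then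
`length(M/⟨m'⟩) = length(M/⟨m⟩) + v(det J)`. -/
theorem E1_length_det {S M ι : Type*} [CommRing S] [IsDomain S] [IsDiscreteValuationRing S]
    [AddCommGroup M] [Module S M] [Fintype ι] [DecidableEq ι]
    (m m' : ι → M) (J : Matrix ι ι S) (hm : LinearIndependent S m)
    (hm' : ∀ i, m' i = ∑ j, J i j • m j) :
    Module.length S (M ⧸ Submodule.span S (Set.range m')) =
      Module.length S (M ⧸ Submodule.span S (Set.range m)) + addVal S J.det := by
  set N := Submodule.span S (Set.range m) with hN
  let b : Module.Basis ι S N := Module.Basis.span hm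
  have hb : ∀ i, ((b i : N) : M) = m i := fun i =>
    congrArg Subtype.val (Module.Basis.span_apply hm i)
  let w : ι → N := fun i => ∑ j, J i j • b j
  have hwm : ∀ i, ((w i : N) : M) = m' i := by
    intro i
    rw [hm' i]
    simp only [w, Submodule.coe_sum, Submodule.coe_smul, hb]
  set W := Submodule.span S (Set.range w) with hW
  have hmap : W.map N.subtype = Submodule.span S (Set.range m') := by
    rw [hW, Submodule.map_span, ← Set.range_comp]
    congr 2
    funext i
    exact hwm i
  have hN' : Submodule.span S (Set.range m') ≤ N := by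
    rw [← hmap]
    rintro _ ⟨x, _, rfl⟩
    exact x.2
  have hle : W ≤ (Submodule.span S (Set.range m')).comap N.subtype := by
    rw [← Submodule.map_le_iff_le_comap, hmap]
  have hcomap : (Submodule.span S (Set.range m')).comap N.subtype = W := by
    rw [← hmap]
    exact Submodule.comap_map_eq_of_injective N.injective_subtype W
  let f : (N ⧸ W) →ₗ[S] (M ⧸ Submodule.span S (Set.range m')) := Submodule.mapQ _ _ N.subtype hle
  let g : (M ⧸ Submodule.span S (Set.range m')) →ₗ[S] (M ⧸ N) := Submodule.factor hN'
  have hf : Function.Injective f := by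
    rw [injective_iff_map_eq_zero]
    intro x hx
    induction x using Submodule.Quotient.induction_on with
    | _ y =>
      have h1 : (Submodule.Quotient.mk (y : M) : M ⧸ Submodule.span S (Set.range m')) = 0 := hx
      rw [Submodule.Quotient.mk_eq_zero] at h1 ⊢
      rw [← hcomap]
      exact h1
  have hg : Function.Surjective g := Submodule.factor_surjective hN'
  have hex : Function.Exact f g := by
    intro y
    induction y using Submodule.Quotient.induction_on with
    | _ z =>
      constructor
      · intro h
        have h1 : (Submodule.Quotient.mk z : M ⧸ N) = 0 := h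
        rw [Submodule.Quotient.mk_eq_zero] at h1
        exact ⟨Submodule.Quotient.mk ⟨z, h1⟩, rfl⟩
      · rintro ⟨x, hx⟩
        induction x using Submodule.Quotient.induction_on with
        | _ y =>
          rw [← hx]
          change (Submodule.Quotient.mk (y : M) : M ⧸ N) = 0
          rw [Submodule.Quotient.mk_eq_zero]
          exact y.2
  rw [Module.length_eq_add_of_exact f g hf hg hex, add_comm]
  congr 1
  by_cases hJ : J.det = 0
  · rw [hJ, IsDiscreteValuationRing.addVal_zero]
    exact E1_zero b w J (fun i => rfl) hJ
  · exact E1_key b w J (fun i => rfl) hJ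

end LcP.E1
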