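import Mathlib

/-! Helper lemmas for MP_18dec4_ag, part E2 (team job 11622). -/

set_option linter.all false

namespace LcP.E2

open IsDiscreteValuationRing (addVal)
open scoped TensorProduct

/-- Base change of lengths along an extension `R → S` of DVRs with ramification index `r`. -/
theorem E2_length_baseChange {R S T : Type*} [CommRing R] [IsDomain R] [IsDiscreteValuationRing R]
    [CommRing S] [IsDomain S] [IsDiscreteValuationRing S] [Algebra R S] (r : ℕ) (hr0 : 0 < r)
    (hr : ∀ x : R, addVal S (algebraMap R S x) = r * addVal R x)
    [AddCommGroup T] [Module R T] [Module.Finite R T] :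
    Module.length S (S ⊗[R] T) = r * Module.length R T := by
  have hinj : Function.Injective (algebraMap R S) := by
    rw [injective_iff_map_eq_zero]
    intro x hx
    by_contra hne
    have h1 := hr x
    rw [hx, IsDiscreteValuationRing.addVal_zero] at h1
    have h2 : addVal R x ≠ ⊤ := fun h => hne (IsDiscreteValuationRing.addVal_eq_top_iff.1 h)
    obtain ⟨k, hk⟩ := ENat.ne_top_iff_exists.1 h2
    rw [← hk] at h1
    have h3 : ((r * k : ℕ) : ℕ∞) = ⊤ := by push_cast; exact h1.symm
    exact ENat.coe_ne_top _ h3
  have : FaithfulSMul R S := (faithfulSMul_iff_algebraMap_injective R S).2 hinj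
  have : IsLocalHom (algebraMap R S) := by
    constructor
    intro x hx
    have h1 := hr x
    rw [IsDiscreteValuationRing.addVal_eq_zero_iff.2 hx] at h1
    have h2 : addVal R x = 0 := by
      rcases mul_eq_zero.1 h1.symm with h | h
      · exact absurd h (by exact_mod_cast hr0.ne')
      · exact h
    exact IsDiscreteValuationRing.addVal_eq_zero_iff.1 h2
  have : Module.Flat R S := inferInstance
  rw [IsLocalRing.length_baseChange R S T]
  obtain ⟨ϖ, hϖ⟩ := IsDiscreteValuationRing.exists_irreducible R
  obtain ⟨π, hπ⟩ := IsDiscreteValuationRing.exists_irreducible S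
  have hv : addVal S (algebraMap R S ϖ) = r := by
    rw [hr, IsDiscreteValuationRing.addVal_uniformizer hϖ, mul_one]
  have hass : Associated (algebraMap R S ϖ) (π ^ r) := by
    rw [← IsDiscreteValuationRing.addVal_eq_iff_associated, hv, hπ.addVal_pow]
  have hid : (IsLocalRing.maximalIdeal R).map (algebraMap R S) = IsLocalRing.maximalIdeal S ^ r := by
    rw [hϖ.maximalIdeal_eq, hπ.maximalIdeal_eq, Ideal.map_span, Set.image_singleton,
      Ideal.span_singleton_pow]
    exact Ideal.span_singleton_eq_span_singleton.2 hass
  rw [hid, IsDiscreteValuationRing.length_quotient_pow_maximalIdeal, mul_comm]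

end LcP.E2
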