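import Mathlib

/-! Helper lemmas for MP_18dec4_ag, part E3 (team job 11623). -/

set_option linter.all false

namespace LcP.E3

open IsDiscreteValuationRing (addVal)
open KaehlerDifferential
open scoped TensorProduct

universe u v w x

section E34aux

variable {R₀ : Type w} {R : Type u} {S : Type v} {ι : Type x} [CommRing R₀]
    [CommRing R] [CommRing S]
    [Algebra R₀ R] [Algebra R S] [Algebra R₀ S] [IsScalarTower R₀ R S]

/-- the `R`-linear map between the quotients -/
noncomputable def E34_phi (z : ι → R) :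
    (Ω[R⁄R₀] ⧸ Submodule.span R (Set.range fun i => D R₀ R (z i))) →ₗ[R]
      (Ω[S⁄R₀] ⧸ Submodule.span S (Set.range fun i => D R₀ S (algebraMap R S (z i)))) :=
  Submodule.liftQ _ (((Submodule.mkQ
      (Submodule.span S (Set.range fun i => D R₀ S (algebraMap R S (z i))))).restrictScalars R).comp
      (KaehlerDifferential.map R₀ R₀ R S)) (by
    rw [Submodule.span_le]
    rintro _ ⟨i, rfl⟩
    rw [SetLike.mem_coe, LinearMap.mem_ker, LinearMap.comp_apply, LinearMap.restrictScalars_apply,
      KaehlerDifferential.map_D, Submodule.mkQ_apply, Submodule.Quotient.mk_eq_zero]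
    exact Submodule.subset_span ⟨i, rfl⟩)

/-- the base change -/
noncomputable def E34_f (z : ι → R) :
    S ⊗[R] (Ω[R⁄R₀] ⧸ Submodule.span R (Set.range fun i => D R₀ R (z i))) →ₗ[S]
      (Ω[S⁄R₀] ⧸ Submodule.span S (Set.range fun i => D R₀ S (algebraMap R S (z i)))) :=
  LinearMap.liftBaseChange S (E34_phi (R₀ := R₀) (S := S) z)

theorem E34_f_tmul (z : ι → R) (s : S) (m : Ω[R⁄R₀]) :
    E34_f (R₀ := R₀) z (s ⊗ₜ[R] (Submodule.Quotient.mk m)) =
      Submodule.Quotient.mk (s • KaehlerDifferential.map R₀ R₀ R S m) := by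
  rfl

/-- the second map -/
noncomputable def E34_g (z : ι → R) :
    (Ω[S⁄R₀] ⧸ Submodule.span S (Set.range fun i => D R₀ S (algebraMap R S (z i)))) →ₗ[S]
      Ω[S⁄R] :=
  Submodule.liftQ _ (KaehlerDifferential.map R₀ R S S) (by
    rw [Submodule.span_le]
    rintro _ ⟨i, rfl⟩
    rw [SetLike.mem_coe, LinearMap.mem_ker, KaehlerDifferential.map_D]
    exact Derivation.map_algebraMap _ _)

theorem E34_g_surj (z : ι → R) :
    Function.Surjective (E34_g (R₀ := R₀) (S := S) z) := by
  intro y
  obtain ⟨x, rfl⟩ := KaehlerDifferential.map_surjective R₀ R S y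
  exact ⟨Submodule.Quotient.mk x, rfl⟩

theorem E34_ker_le (z : ι → R) :
    LinearMap.ker (E34_g (R₀ := R₀) (S := S) z) ≤ LinearMap.range (E34_f (R₀ := R₀) (S := S) z) := by
  intro y hy
  obtain ⟨x, rfl⟩ := Submodule.Quotient.mk_surjective _ y
  have hx : KaehlerDifferential.map R₀ R S S x = 0 := hy
  obtain ⟨t, ht⟩ := (KaehlerDifferential.exact_mapBaseChange_map R₀ R S x).1 hx
  rw [← ht]
  clear ht hx hy
  induction t using TensorProduct.induction_on with
  | zero => simp
  | tmul s m =>
    refine ⟨s ⊗ₜ[R] (Submodule.Quotient.mk m), ?_⟩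
    rw [E34_f_tmul, KaehlerDifferential.mapBaseChange_tmul]
  | add a b ha hb =>
    rw [map_add, Submodule.Quotient.mk_add]
    exact add_mem ha hb

end E34aux

theorem E3_length_kaehler_le {R₀ : Type w} {R : Type u} {S : Type v} {ι : Type x} [CommRing R₀]
    [CommRing R] [CommRing S]
    [Algebra R₀ R] [Algebra R S] [Algebra R₀ S] [IsScalarTower R₀ R S]
    [Algebra.EssFiniteType R₀ R] (r : ℕ)
    (hr : ∀ (T : Type u) [AddCommGroup T] [Module R T] [Module.Finite R T],
      Module.length S (S ⊗[R] T) = r * Module.length R T)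
    (z : ι → R) :
    Module.length S (Ω[S⁄R₀] ⧸
        Submodule.span S (Set.range fun i => D R₀ S (algebraMap R S (z i)))) ≤
      r * Module.length R (Ω[R⁄R₀] ⧸ Submodule.span R (Set.range fun i => D R₀ R (z i))) +
        Module.length S (Ω[S⁄R]) := by
  rw [Module.length_eq_add_of_exact (LinearMap.ker (E34_g (R₀ := R₀) (S := S) z)).subtype
    (E34_g (R₀ := R₀) (S := S) z) (Submodule.subtype_injective _) (E34_g_surj z)
    (LinearMap.exact_subtype_ker_map _)]
  gcongr
  rw [← hr]
  calc Module.length S (LinearMap.ker (E34_g (R₀ := R₀) (S := S) z))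
      ≤ Module.length S (LinearMap.range (E34_f (R₀ := R₀) (S := S) z)) :=
        Module.length_le_of_injective (Submodule.inclusion (E34_ker_le z))
          (Submodule.inclusion_injective _)
    _ ≤ _ := Module.length_le_of_surjective (E34_f (R₀ := R₀) (S := S) z).rangeRestrict
          (LinearMap.surjective_rangeRestrict _)

theorem E4_length_kaehler_eq {R₀ : Type w} {R : Type u} {S : Type v} {ι : Type x} [CommRing R₀]
    [CommRing R] [CommRing S]
    [Algebra R₀ R] [Algebra R S] [Algebra R₀ S] [IsScalarTower R₀ R S]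
    [Algebra.EssFiniteType R₀ R] [Algebra.FormallyEtale R S]
    (hr : ∀ (T : Type u) [AddCommGroup T] [Module R T] [Module.Finite R T],
      Module.length S (S ⊗[R] T) = Module.length R T)
    (z : ι → R) :
    Module.length S (Ω[S⁄R₀] ⧸
        Submodule.span S (Set.range fun i => D R₀ S (algebraMap R S (z i)))) =
      Module.length R (Ω[R⁄R₀] ⧸ Submodule.span R (Set.range fun i => D R₀ R (z i))) := by
  rw [← hr]
  let e := KaehlerDifferential.tensorKaehlerEquivOfFormallyEtale R₀ R S
  have he : ∀ m : Ω[R⁄R₀], e.symm (KaehlerDifferential.map R₀ R₀ R S m) = 1 ⊗ₜ[R] m := by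
    intro m
    rw [LinearEquiv.symm_apply_eq]
    show _ = KaehlerDifferential.mapBaseChange R₀ R S (1 ⊗ₜ[R] m)
    rw [KaehlerDifferential.mapBaseChange_tmul, one_smul]
  let ψ0 : Ω[S⁄R₀] →ₗ[S] S ⊗[R] (Ω[R⁄R₀] ⧸ Submodule.span R (Set.range fun i => D R₀ R (z i))) :=
    ((Submodule.mkQ (Submodule.span R (Set.range fun i => D R₀ R (z i)))).baseChange S).comp
      e.symm.toLinearMap
  have hψ0 : ∀ m : Ω[R⁄R₀], ψ0 (KaehlerDifferential.map R₀ R₀ R S m) =
      1 ⊗ₜ[R] (Submodule.Quotient.mk m) := by
    intro m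
    show ((Submodule.mkQ (Submodule.span R (Set.range fun i => D R₀ R (z i)))).baseChange S)
      (e.symm (KaehlerDifferential.map R₀ R₀ R S m)) = _
    rw [he m, LinearMap.baseChange_tmul]
    rfl
  let ψ : (Ω[S⁄R₀] ⧸ Submodule.span S (Set.range fun i => D R₀ S (algebraMap R S (z i)))) →ₗ[S]
      S ⊗[R] (Ω[R⁄R₀] ⧸ Submodule.span R (Set.range fun i => D R₀ R (z i))) :=
    Submodule.liftQ _ ψ0 (by
      rw [Submodule.span_le]
      rintro _ ⟨i, rfl⟩
      rw [SetLike.mem_coe, LinearMap.mem_ker]
      show ψ0 (D R₀ S (algebraMap R S (z i))) = 0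
      rw [← KaehlerDifferential.map_D R₀ R₀ R S, hψ0]
      have h0 : (Submodule.Quotient.mk (D R₀ R (z i)) :
          Ω[R⁄R₀] ⧸ Submodule.span R (Set.range fun i => D R₀ R (z i))) = 0 :=
        (Submodule.Quotient.mk_eq_zero _).2 (Submodule.subset_span (Set.mem_range_self i))
      rw [h0, TensorProduct.tmul_zero])
  have hinj : Function.Injective (E34_f (R₀ := R₀) (S := S) z) := by
    have hl : ∀ t, ψ (E34_f (R₀ := R₀) (S := S) z t) = t := by
      intro t
      induction t using TensorProduct.induction_on with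
      | zero => simp
      | tmul s m =>
        obtain ⟨m, rfl⟩ := Submodule.Quotient.mk_surjective _ m
        rw [E34_f_tmul]
        show ψ0 (s • KaehlerDifferential.map R₀ R₀ R S m) = _
        rw [map_smul, hψ0, TensorProduct.smul_tmul', smul_eq_mul, mul_one]
      | add a b ha hb => rw [map_add, map_add, ha, hb]
    exact Function.LeftInverse.injective hl
  have hsurj : Function.Surjective (E34_f (R₀ := R₀) (S := S) z) := by
    intro y
    have hy : y ∈ LinearMap.ker (E34_g (R₀ := R₀) (S := S) z) := by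
      rw [LinearMap.mem_ker]
      exact Subsingleton.elim _ _
    exact E34_ker_le z hy
  exact (LinearEquiv.ofBijective _ ⟨hinj, hsurj⟩).length_eq.symm

end LcP.E3
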