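import Mathlib

/-! Helper lemmas for MP_18dec4_ag, part E5 (team job 11624). -/

set_option linter.all false

namespace LcP.E5

open IsDiscreteValuationRing (addVal)
open KaehlerDifferential

theorem E5_torsion_finite {R Q : Type*} [CommRing R] [IsDomain R]
    [IsDiscreteValuationRing R] [AddCommGroup Q] [Module R Q] [Module.Finite R Q]
    (h : ∀ x : Q, ∃ a : R, a ≠ 0 ∧ a • x = 0) : Module.length R Q ≠ ⊤ := by
  have htors : Module.IsTorsion R Q := by
    intro x
    obtain ⟨a, ha, hx⟩ := h x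
    exact ⟨⟨a, mem_nonZeroDivisors_of_ne_zero ha⟩, hx⟩
  obtain ⟨a, ha, hane⟩ := Submodule.annihilator_top_inter_nonZeroDivisors htors
  rw [Module.length_ne_top_iff, isFiniteLength_iff_isNoetherian_isArtinian]
  refine ⟨inferInstance, ?_⟩
  set I : Ideal R := Ideal.span {a} with hI
  have hIt : Module.IsTorsionBySet R Q (I : Set R) := by
    rintro x ⟨b, hb⟩
    obtain ⟨c, rfl⟩ := Ideal.mem_span_singleton.1 hb
    have h1 : a • x = 0 := (Submodule.mem_annihilator.1 ha) x Submodule.mem_top
    change (a * c) • x = 0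
    rw [mul_comm, mul_smul, h1, smul_zero]
  letI := hIt.module
  haveI : IsScalarTower R (R ⧸ I) Q := hIt.isScalarTower
  haveI : Module.Finite (R ⧸ I) Q := Module.Finite.of_restrictScalars_finite R _ _
  have h2 := isFiniteLength_quotient_span_singleton R hane
  rw [isFiniteLength_iff_isNoetherian_isArtinian] at h2
  haveI : IsArtinian R (R ⧸ I) := h2.2
  haveI : IsArtinianRing (R ⧸ I) := isArtinian_of_tower R inferInstance
  haveI : IsArtinian (R ⧸ I) Q := inferInstance
  exact isArtinian_of_surjective_algebraMap (R := R ⧸ I) (S := R)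
    (Ideal.Quotient.mk_surjective (I := I))

theorem E5_loc_torsion {R K M M' : Type*} [CommRing R] [IsDomain R] [Field K] [Algebra R K]
    [IsFractionRing R K] [AddCommGroup M] [Module R M] [AddCommGroup M'] [Module R M'] [Module K M']
    [IsScalarTower R K M'] (f : M →ₗ[R] M') [IsLocalizedModule (nonZeroDivisors R) f]
    (N : Submodule R M) (hN : Submodule.span K (f '' (N : Set M)) = ⊤) (w : M) :
    ∃ a : R, a ≠ 0 ∧ a • w ∈ N := by
  have key : ∀ x : M', ∃ s : R, s ≠ 0 ∧ ∃ n ∈ N, s • x = f n := by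
    intro x
    have hx : x ∈ Submodule.span K (f '' (N : Set M)) := by rw [hN]; trivial
    induction hx using Submodule.span_induction with
    | mem x hx =>
      obtain ⟨n, hn, rfl⟩ := hx
      exact ⟨1, one_ne_zero, n, hn, one_smul _ _⟩
    | zero => exact ⟨1, one_ne_zero, 0, N.zero_mem, by simp⟩
    | add x y _ _ hx hy =>
      obtain ⟨s, hs, n, hn, h1⟩ := hx
      obtain ⟨t, ht, m, hm, h2⟩ := hy
      refine ⟨s * t, mul_ne_zero hs ht, t • n + s • m,
        N.add_mem (N.smul_mem _ hn) (N.smul_mem _ hm), ?_⟩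
      rw [map_add, map_smul, map_smul, ← h1, ← h2, smul_add, smul_smul, smul_smul, mul_comm t s]
    | smul a x _ hx =>
      obtain ⟨s, hs, n, hn, h1⟩ := hx
      obtain ⟨r, t, ht, rfl⟩ := IsFractionRing.div_surjective (A := R) a
      have ht0 : t ≠ 0 := nonZeroDivisors.ne_zero ht
      have ht1 : algebraMap R K t ≠ 0 := by
        rw [Ne, IsFractionRing.to_map_eq_zero_iff]; exact ht0
      refine ⟨t * s, mul_ne_zero ht0 hs, r • n, N.smul_mem _ hn, ?_⟩
      rw [map_smul, ← h1]
      rw [← IsScalarTower.algebraMap_smul K (t * s), ← IsScalarTower.algebraMap_smul K r,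
        ← IsScalarTower.algebraMap_smul K s x, smul_smul, smul_smul]
      congr 1
      rw [map_mul]
      field_simp
  obtain ⟨s, hs, n, hn, h1⟩ := key (f w)
  rw [← map_smul] at h1
  obtain ⟨c, hc⟩ := IsLocalizedModule.exists_of_eq (S := nonZeroDivisors R) (f := f) h1
  refine ⟨c.1 * s, mul_ne_zero (nonZeroDivisors.ne_zero c.2) hs, ?_⟩
  rw [mul_smul]
  have h3 : c.1 • s • w = c.1 • n := hc
  rw [h3]
  exact N.smul_mem _ hn

/-- Finiteness of the order of a form: `R` a DVR essentially of finite type over `R₀`,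
`K = Frac R`, and the `D_K(z_i)` span `Ω[K⁄R₀]`. -/
theorem E5_length_ne_top {R₀ R K ι : Type*} [CommRing R₀] [CommRing R] [IsDomain R]
    [IsDiscreteValuationRing R] [Field K] [Algebra R₀ R] [Algebra R K] [IsFractionRing R K]
    [Algebra R₀ K] [IsScalarTower R₀ R K] [Algebra.EssFiniteType R₀ R] (z : ι → R)
    (hz : Submodule.span K (Set.range fun i => D R₀ K (algebraMap R K (z i))) = ⊤) :
    Module.length R (Ω[R⁄R₀] ⧸ Submodule.span R (Set.range fun i => D R₀ R (z i))) ≠ ⊤ := by
  apply E5_torsion_finite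
  intro x
  obtain ⟨w, rfl⟩ := Submodule.mkQ_surjective _ x
  have hN : Submodule.span K ((KaehlerDifferential.map R₀ R₀ R K) ''
      ((Submodule.span R (Set.range fun i => D R₀ R (z i)) : Submodule R _) : Set (Ω[R⁄R₀]))) =
      ⊤ := by
    rw [eq_top_iff, ← hz]
    apply Submodule.span_mono
    rintro _ ⟨i, rfl⟩
    exact ⟨D R₀ R (z i), Submodule.subset_span ⟨i, rfl⟩, by simp⟩
  obtain ⟨a, ha, h⟩ := E5_loc_torsion (K := K) (KaehlerDifferential.map R₀ R₀ R K) _ hN w
  refine ⟨a, ha, ?_⟩
  rw [← map_smul, Submodule.mkQ_apply, Submodule.Quotient.mk_eq_zero]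
  exact h

end LcP.E5
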