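import Mathlib
import Pool.Agent.Helper142.Lc.C1
import Pool.Agent.Helper142.Lc.C2
import Pool.Agent.Helper142.Lc.C3a
import Pool.Agent.Helper142.Lc.C3b
import Pool.Agent.Helper142.Lc.C3c
import Pool.Agent.Helper142.Lc.C3d

/-! Helper lemmas for MP_18dec4_ag, part K1core (team job 13398). -/

set_option linter.all false

namespace LcP.K1core

open LcP.C1 LcP.C2 LcP.C3a LcP.C3b LcP.C3c LcP.C3d
open IsDiscreteValuationRing (addVal)
open IsLocalRing KaehlerDifferential
open scoped TensorProduct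

/-! All theorems before the last one are PROVED ELSEWHERE: leave them as `sorry` and use them.
Only prove the LAST theorem (TARGET). -/

universe u v w x

theorem K1_core_loc {C S : Type} [CommRing C] [IsLocalRing C] [IsNoetherianRing C]
    [CommRing S] [IsLocalRing S] [Algebra C S] [Algebra.EssFiniteType C S] (c : C)
    (hc : maximalIdeal C = Ideal.span {c}) (hcS : algebraMap C S c ∈ maximalIdeal S) :
    ∃ (m : ℕ) (P : Type) (_ : CommRing P) (_ : IsLocalRing P) (_ : IsNoetherianRing P)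
      (_ : Algebra C P) (_ : Algebra P S) (_ : IsScalarTower C P S) (g : Fin m → P)
      (_ : Module.Basis (Fin m) P (Ω[P⁄C])),
      Function.Surjective (algebraMap P S) ∧
        maximalIdeal P = Ideal.span (insert (algebraMap C P c) (Set.range g)) := by
  obtain ⟨m, f, hf⟩ := C3a_presentation (C := C) (S := S)
  obtain ⟨𝔫, h𝔫⟩ : ∃ 𝔫 : Ideal (MvPolynomial (Fin m) C),
      𝔫 = (maximalIdeal S).comap (f : MvPolynomial (Fin m) C →+* S) := ⟨_, rfl⟩
  have hprime : 𝔫.IsPrime := by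
    rw [h𝔫]
    exact Ideal.comap_isPrime _ _
  have hmem : MvPolynomial.C c ∈ 𝔫 := by
    rw [h𝔫, Ideal.mem_comap]
    have : (f : MvPolynomial (Fin m) C →+* S) (MvPolynomial.C c) = algebraMap C S c :=
      f.commutes c
    rw [this]
    exact hcS
  obtain ⟨g, hg⟩ := C3b_generators c hc m 𝔫 hmem
  have hunit : ∀ y : 𝔫.primeCompl, IsUnit ((f : MvPolynomial (Fin m) C →+* S) y) := by
    intro y
    by_contra hcon
    have h2 : (y : MvPolynomial (Fin m) C) ∈
        Ideal.comap (f : MvPolynomial (Fin m) C →+* S) (maximalIdeal S) := hcon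
    rw [← h𝔫] at h2
    exact y.2 h2
  let φ : Localization.AtPrime 𝔫 →+* S := IsLocalization.lift hunit
  letI : Algebra (Localization.AtPrime 𝔫) S := φ.toAlgebra
  have htower : IsScalarTower C (Localization.AtPrime 𝔫) S := by
    refine IsScalarTower.of_algebraMap_eq fun x => ?_
    have h1 : algebraMap C (Localization.AtPrime 𝔫) x =
        algebraMap (MvPolynomial (Fin m) C) (Localization.AtPrime 𝔫)
          (algebraMap C (MvPolynomial (Fin m) C) x) :=
      IsScalarTower.algebraMap_apply _ _ _ _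
    rw [h1]
    show _ = φ _
    rw [IsLocalization.lift_eq]
    exact (f.commutes x).symm
  have hnoeth : IsNoetherianRing (Localization.AtPrime 𝔫) :=
    IsLocalization.isNoetherianRing 𝔫.primeCompl _ inferInstance
  have b : Module.Basis (Fin m) (Localization.AtPrime 𝔫) (Ω[(Localization.AtPrime 𝔫)⁄C]) :=
    (mvPolynomialBasis C (Fin m)).ofIsLocalizedModule (Localization.AtPrime 𝔫) 𝔫.primeCompl
      (KaehlerDifferential.map C C (MvPolynomial (Fin m) C) (Localization.AtPrime 𝔫))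
  refine ⟨m, Localization.AtPrime 𝔫, inferInstance, inferInstance, hnoeth, inferInstance,
    inferInstance, htower, g, b, ?_, hg⟩
  intro s
  obtain ⟨x, y, hy, hxy⟩ := hf s
  have hy' : y ∈ 𝔫.primeCompl := by
    intro h
    rw [SetLike.mem_coe, h𝔫, Ideal.mem_comap] at h
    exact (mem_nonunits_iff.1 ((mem_maximalIdeal _).1 h)) hy
  refine ⟨IsLocalization.mk' _ x ⟨y, hy'⟩, ?_⟩
  show φ _ = s
  rw [IsLocalization.lift_mk'_spec]
  show f x = f y * s
  rw [← hxy, mul_comm]

/-- TARGET. -/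
theorem K1_core (p : ℕ) [Fact p.Prime] {S : Type} [CommRing S] [IsDomain S]
    [IsDiscreteValuationRing S] [Algebra ℤ_[p] S] [CharZero S] [Algebra.EssFiniteType ℤ_[p] S]
    (ϖ : S) (hϖ : Irreducible ϖ) (u : Sˣ) (e : ℕ) (he : 2 ≤ e) (hpe : (p : S) = u * ϖ ^ e) :
    ϖ ^ (e - 1) • D ℤ_[p] S (u : S) + ((e : S) * u * ϖ ^ (e - 2)) • D ℤ_[p] S ϖ ≠ 0 := by
  have hϖm : ϖ ∈ maximalIdeal S := (mem_maximalIdeal _).2 hϖ.not_isUnit
  have hpm : (p : S) ∈ maximalIdeal S := by
    rw [hpe]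
    exact Ideal.mul_mem_left _ _ (Ideal.pow_mem_of_mem _ hϖm e (by omega))
  obtain ⟨C, iC1, iC2, iC3, iC4, iC5, iC6, iC7, hCm, hinj, hess, hfin⟩ :=
    C1_exists_base p (S := S) hpm
  have htors : ∀ w : Ω[S⁄C], ∃ s : S, s ≠ 0 ∧ s • w = 0 := C2_torsion hinj
  have hcS : algebraMap C S (p : C) ∈ maximalIdeal S := by
    rw [map_natCast]; exact hpm
  obtain ⟨m, P, iP1, iP2, iP3, iP4, iP5, iP6, g, b, hsurj, hg⟩ :=
    K1_core_loc (C := C) (S := S) (p : C) hCm hcS
  -- it suffices to show that the image over `C` is nonzero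
  suffices hmain : ϖ ^ (e - 1) • D C S (u : S) + ((e : S) * u * ϖ ^ (e - 2)) • D C S ϖ ≠ 0 by
    intro h0
    apply hmain
    have h1 := congrArg (KaehlerDifferential.map ℤ_[p] C S S) h0
    rw [map_add, map_smul, map_smul, KaehlerDifferential.map_D, KaehlerDifferential.map_D,
      map_zero] at h1
    exact h1
  obtain ⟨s, hs⟩ := hsurj ϖ
  obtain ⟨ũ, hũ⟩ := hsurj (u : S)
  have hsm : s ∈ maximalIdeal P := by
    rw [mem_maximalIdeal, mem_nonunits_iff]
    intro h
    have h2 := h.map (algebraMap P S)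
    rw [hs] at h2
    exact hϖ.not_isUnit h2
  obtain ⟨f₁, hf₁⟩ : ∃ f₁ : P, f₁ = algebraMap C P (p : C) - ũ * s ^ e := ⟨_, rfl⟩
  have hφf₁ : algebraMap P S f₁ = 0 := by
    rw [hf₁, map_sub, map_mul, map_pow, hs, hũ, ← IsScalarTower.algebraMap_apply, map_natCast,
      hpe, sub_self]
  have hf₁' : f₁ - algebraMap C P (p : C) ∈ maximalIdeal P ^ 2 := by
    have h2 : f₁ - algebraMap C P (p : C) = -(ũ * s ^ e) := by rw [hf₁]; ring
    rw [h2]
    refine Ideal.neg_mem_iff _ |>.2 (Ideal.mul_mem_left _ _ ?_)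
    exact Ideal.pow_le_pow_right he (Ideal.pow_mem_pow hsm e)
  rcases C3c_kernel (algebraMap P S) hsurj m (algebraMap C P (p : C)) g hg f₁ hφf₁ hf₁' with
    ⟨f, hker, i₀, hi₀⟩ | ⟨k, hk, f, hker⟩
  · have hli := (C3d_rank hsurj m b htors m f hker).2 rfl
    have := C3e_nonzero hsurj m f hker hli i₀ (p : C) s ũ e he (hi₀.trans hf₁)
      (by rw [hs]; exact hϖ.not_isUnit) (by rw [hs]; exact hϖ.ne_zero)
    rwa [hs, hũ] at this
  · have := (C3d_rank hsurj m b htors k f hker).1
    omega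

end LcP.K1core
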