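import Mathlib

/-! Helper lemmas for MP_18dec4_ag, part K1glue (team job 11627). -/

set_option linter.all false

namespace LcP.K1glue

open IsDiscreteValuationRing (addVal)
open KaehlerDifferential

universe u v w

theorem K1_glue_ext {S : Type v} {M : Type v} [CommRing S] [IsDomain S]
    [AddCommGroup M] [Module S M] (ϖ : S) (hϖ : Irreducible ϖ) (d : M) :
    ∃ (L : Type v) (_ : AddCommGroup L) (_ : Module S L) (j : M →ₗ[S] L) (l : L)
      (ψ : L →ₗ[S] S ⧸ Ideal.span {ϖ}), Function.Injective j ∧ ϖ • l = j d ∧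
      (∀ m, j m ≠ l) ∧ Function.Surjective ψ ∧ Function.Exact j ψ := by
  let P : Submodule S (M × S) := Submodule.span S {(d, -ϖ)}
  let ψ : ((M × S) ⧸ P) →ₗ[S] S ⧸ Ideal.span {ϖ} :=
    P.liftQ ((Submodule.mkQ (Ideal.span {ϖ})).comp (LinearMap.snd S M S)) (by
      rw [Submodule.span_le, Set.singleton_subset_iff]
      simp only [SetLike.mem_coe, LinearMap.mem_ker, LinearMap.comp_apply, LinearMap.snd_apply,
        Submodule.mkQ_apply, Submodule.Quotient.mk_eq_zero]
      exact neg_mem (Ideal.subset_span (Set.mem_singleton _)))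
  refine ⟨(M × S) ⧸ P, inferInstance, inferInstance, P.mkQ.comp (LinearMap.inl S M S),
    P.mkQ (0, 1), ψ, ?_, ?_, ?_, ?_, ?_⟩
  · rw [injective_iff_map_eq_zero]
    intro m hm
    rw [LinearMap.comp_apply, Submodule.mkQ_apply, Submodule.Quotient.mk_eq_zero,
      LinearMap.inl_apply, Submodule.mem_span_singleton] at hm
    obtain ⟨c, hc⟩ := hm
    rw [Prod.smul_mk, Prod.mk.injEq] at hc
    have h2 : c = 0 := by
      have := hc.2
      rw [smul_neg, neg_eq_zero, smul_eq_mul, mul_eq_zero] at this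
      exact this.resolve_right hϖ.ne_zero
    rw [← hc.1, h2, zero_smul]
  · rw [← map_smul, LinearMap.comp_apply, Submodule.mkQ_apply, Submodule.mkQ_apply,
      Submodule.Quotient.eq, LinearMap.inl_apply, Submodule.mem_span_singleton]
    refine ⟨-1, ?_⟩
    ext <;> simp
  · intro m hm
    rw [LinearMap.comp_apply, Submodule.mkQ_apply, Submodule.mkQ_apply,
      Submodule.Quotient.eq, LinearMap.inl_apply, Submodule.mem_span_singleton] at hm
    obtain ⟨c, hc⟩ := hm
    have h2 := congrArg Prod.snd hc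
    simp only [Prod.smul_snd, Prod.snd_sub, zero_sub, smul_eq_mul, mul_neg, neg_inj] at h2
    exact hϖ.not_isUnit (IsUnit.of_mul_eq_one c (by rw [mul_comm]; exact h2))
  · intro q
    obtain ⟨s, rfl⟩ := Submodule.mkQ_surjective _ q
    exact ⟨P.mkQ (0, s), rfl⟩
  · intro q
    constructor
    · intro hq
      obtain ⟨⟨m, s⟩, rfl⟩ := Submodule.mkQ_surjective _ q
      have h1 : (Submodule.mkQ (Ideal.span {ϖ})) s = 0 := hq
      rw [Submodule.mkQ_apply, Submodule.Quotient.mk_eq_zero, Ideal.mem_span_singleton'] at h1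
      obtain ⟨a, ha⟩ := h1
      refine ⟨m + a • d, ?_⟩
      rw [LinearMap.comp_apply, Submodule.mkQ_apply, Submodule.mkQ_apply,
        Submodule.Quotient.eq, LinearMap.inl_apply, Submodule.mem_span_singleton]
      refine ⟨a, ?_⟩
      ext
      · simp
      · simp [ha]
    · rintro ⟨m, rfl⟩
      show (Submodule.mkQ (Ideal.span {ϖ})) 0 = 0
      simp

theorem K1_glue_length {S : Type v} {M L Q : Type*} [CommRing S]
    [AddCommGroup M] [Module S M] [AddCommGroup L] [Module S L] [AddCommGroup Q] [Module S Q]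
    (j : M →ₗ[S] L) (ψ : L →ₗ[S] Q) (hj : Function.Injective j) (hψ : Function.Surjective ψ)
    (hex : Function.Exact j ψ) (N : Submodule S M) :
    Module.length S (L ⧸ N.map j) = Module.length S (M ⧸ N) + Module.length S Q := by
  have hcomp : ∀ m, ψ (j m) = 0 := fun m => (hex (j m)).2 ⟨m, rfl⟩
  refine Module.length_eq_add_of_exact (N.mapQ (N.map j) j (Submodule.le_comap_map _ _))
    ((N.map j).liftQ ψ ?_) ?_ ?_ ?_
  · rintro x ⟨m, -, rfl⟩
    exact hcomp m
  · rw [injective_iff_map_eq_zero]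
    intro q hq
    obtain ⟨m, rfl⟩ := Submodule.mkQ_surjective _ q
    rw [Submodule.mkQ_apply, Submodule.mapQ_apply, Submodule.Quotient.mk_eq_zero] at hq
    obtain ⟨m', hm', he⟩ := hq
    rw [Submodule.mkQ_apply, Submodule.Quotient.mk_eq_zero, ← hj he]
    exact hm'
  · intro q
    obtain ⟨l, rfl⟩ := hψ q
    exact ⟨(N.map j).mkQ l, rfl⟩
  · intro q
    constructor
    · intro hq
      obtain ⟨l, rfl⟩ := Submodule.mkQ_surjective _ q
      have h1 : ψ l = 0 := hq
      obtain ⟨m, rfl⟩ := (hex l).1 h1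
      exact ⟨N.mkQ m, rfl⟩
    · rintro ⟨m, rfl⟩
      obtain ⟨m, rfl⟩ := Submodule.mkQ_surjective _ m
      exact hcomp m

theorem K1_glue_li {S L : Type*} {ι : Type*} [CommRing S] [IsDomain S] [AddCommGroup L]
    [Module S L] [Fintype ι] (t : ι → S) (ht : ∀ j, t j ≠ 0) (τ : ι → L)
    (h : LinearIndependent S (fun j => t j • τ j)) : LinearIndependent S τ := by
  classical
  rw [Fintype.linearIndependent_iff] at h ⊢
  intro g hg i
  have h1 := h (fun i => g i * ∏ k ∈ Finset.univ.erase i, t k) (by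
    have : ∀ i, (g i * ∏ k ∈ Finset.univ.erase i, t k) • (t i • τ i) =
        (∏ k, t k) • (g i • τ i) := by
      intro i
      rw [smul_smul, smul_smul, ← Finset.prod_erase_mul Finset.univ t (Finset.mem_univ i)]
      congr 1
      ring
    simp_rw [this]
    rw [← Finset.smul_sum, hg, smul_zero]) i
  exact (mul_eq_zero.1 h1).resolve_right (Finset.prod_ne_zero_iff.2 fun k _ => ht k)

theorem K1_glue {R₀ : Type u} {S : Type v} {ι : Type w} [CommRing R₀] [CommRing S] [IsDomain S]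
    [IsDiscreteValuationRing S] [Algebra R₀ S] [Fintype ι]
    -- (this is lemma K1_log, proved elsewhere; use it as a hypothesis)
    (hlog : ∀ (L : Type v) [AddCommGroup L] [Module S L] (ϖ : S) (_ : Irreducible ϖ)
      (τ : ι → L) (_ : LinearIndependent S τ) (t : ι → S) (_ : ∀ j, t j ≠ 0)
      (θ : L) (k e : ℕ) (_ : ϖ ^ k • θ = 0) (_ : ∀ i < e, ϖ ^ i • θ ≠ 0),
      (e : ℕ∞) + ∑ j, addVal S (t j) ≤
        Module.length S (L ⧸ Submodule.span S (Set.range fun j => t j • τ j)))
    (ϖ : S) (hϖ : Irreducible ϖ) (c : R₀) (u : Sˣ) (e : ℕ)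
    (hc : algebraMap R₀ S c = u * ϖ ^ e)
    (hcore : 2 ≤ e → ϖ ^ (e - 1) • D R₀ S (u : S) + ((e : S) * u * ϖ ^ (e - 2)) • D R₀ S ϖ ≠ 0)
    (t : ι → S) (ht : ∀ j, t j ≠ 0) (hli : LinearIndependent S (fun j => D R₀ S (t j))) :
    (e : ℕ∞) + ∑ j, addVal S (t j) ≤
      Module.length S (Ω[S⁄R₀] ⧸ Submodule.span S (Set.range fun j => D R₀ S (t j))) + 1 := by
  obtain ⟨L, iL1, iL2, j, l, ψ, hj, hl, hlj, hψ, hex⟩ := K1_glue_ext ϖ hϖ (D R₀ S ϖ)
  -- derivative of `v ϖ^n`
  have hDpow : ∀ (v : Sˣ) (n : ℕ), j (D R₀ S ((v : S) * ϖ ^ n)) =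
      ((v : S) * ϖ ^ n) • (((v⁻¹ : Sˣ) : S) • j (D R₀ S (v : S)) + (n : S) • l) := by
    intro v n
    rw [Derivation.leibniz, Derivation.leibniz_pow, ← Nat.cast_smul_eq_nsmul S, map_add]
    simp only [map_smul]
    rw [← hl, smul_add, smul_smul ((v : S) * ϖ ^ n) ((v⁻¹ : Sˣ) : S)]
    have e1 : (v : S) * ϖ ^ n * ((v⁻¹ : Sˣ) : S) = ϖ ^ n := by
      rw [mul_comm (v : S), mul_assoc, Units.mul_inv, mul_one]
    rw [e1, add_comm]
    congr 1
    rcases n with _ | n
    · simp
    · rw [smul_smul, smul_smul, smul_smul, smul_smul, Nat.add_sub_cancel]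
      congr 1
      ring
  -- the elements `t j`
  have htj : ∀ i, ∃ τ : L, j (D R₀ S (t i)) = t i • τ := by
    intro i
    obtain ⟨n, v, hv⟩ := IsDiscreteValuationRing.eq_unit_mul_pow_irreducible (ht i) hϖ
    refine ⟨((v⁻¹ : Sˣ) : S) • j (D R₀ S (v : S)) + (n : S) • l, ?_⟩
    rw [hv]
    exact hDpow v n
  choose τ hτ using htj
  have hli2 : LinearIndependent S τ := by
    apply K1_glue_li t ht
    have : (fun i => t i • τ i) = fun i => j (D R₀ S (t i)) := by
      funext i
      rw [hτ]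
    rw [this]
    exact hli.map' j (LinearMap.ker_eq_bot.2 hj)
  -- the torsion element
  obtain ⟨θ, hθ⟩ : ∃ θ : L, θ = ((u⁻¹ : Sˣ) : S) • j (D R₀ S (u : S)) + (e : S) • l := ⟨_, rfl⟩
  have h0 : ϖ ^ e • θ = 0 := by
    have h1 := hDpow u e
    rw [← hc, Derivation.map_algebraMap, map_zero, ← hθ, hc, mul_smul] at h1
    have h2 := congrArg (fun x => ((u⁻¹ : Sˣ) : S) • x) h1
    simp only [smul_zero, smul_smul] at h2
    rw [← mul_assoc, Units.inv_mul, one_mul] at h2
    exact h2.symm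
  have hne1 : 1 ≤ e → ϖ ^ (e - 1) • θ ≠ 0 := by
    intro he h
    rcases Nat.lt_or_ge e 2 with he2 | he2
    · have he1 : e = 1 := by omega
      subst he1
      rw [hθ] at h
      simp only [Nat.sub_self, pow_zero, one_smul, Nat.cast_one] at h
      apply hlj (-(((u⁻¹ : Sˣ) : S) • (D R₀ S (u : S))))
      rw [map_neg, map_smul]
      exact neg_eq_of_add_eq_zero_right h
    · apply hcore he2
      apply hj
      rw [map_zero]
      have h2 := congrArg (fun x => (u : S) • x) h
      simp only [smul_zero] at h2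
      rw [← h2, hθ, map_add, map_smul, map_smul, ← hl]
      simp only [smul_add, smul_smul]
      have e1 : (u : S) * (ϖ ^ (e - 1) * ((u⁻¹ : Sˣ) : S)) = ϖ ^ (e - 1) := by
        rw [mul_comm (ϖ ^ (e - 1)), ← mul_assoc, Units.mul_inv, one_mul]
      rw [e1]
      congr 2
      obtain ⟨m, rfl⟩ : ∃ m, e = m + 2 := ⟨e - 2, by omega⟩
      rw [show m + 2 - 1 = m + 1 by omega, show m + 2 - 2 = m by omega]
      ring
  have hne : ∀ i < e, ϖ ^ i • θ ≠ 0 := by
    intro i hi h
    apply hne1 (by omega)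
    rw [show e - 1 = (e - 1 - i) + i by omega, pow_add, mul_smul, h, smul_zero]
  have hmain := hlog L ϖ hϖ τ hli2 t ht θ e e h0 hne
  have hspan : Submodule.span S (Set.range fun i => t i • τ i) =
      (Submodule.span S (Set.range fun i => D R₀ S (t i))).map j := by
    rw [Submodule.map_span, ← Set.range_comp]
    congr 2
    funext i
    exact (hτ i).symm
  rw [hspan, K1_glue_length j ψ hj hψ hex] at hmain
  refine hmain.trans (add_le_add le_rfl ?_)
  have : (Ideal.span {ϖ}).IsMaximal :=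
    PrincipalIdealRing.isMaximal_of_irreducible hϖ
  have : IsSimpleModule S (S ⧸ Ideal.span {ϖ}) := isSimpleModule_iff_isCoatom.2 this.out
  rw [Module.length_eq_one]

end LcP.K1glue
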