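import Mathlib
import Pool.Agent.Helper142.Lc.K1log
import Pool.Agent.Helper142.Lc.K1glue
import Pool.Agent.Helper142.Lc.K1core

/-! Helper lemmas for MP_18dec4_ag, part K1 (team job 13399). -/

set_option linter.all false

namespace LcP.K1

open LcP.K1log LcP.K1glue LcP.K1core
open IsDiscreteValuationRing (addVal)
open IsLocalRing KaehlerDifferential
open scoped TensorProduct

/-! All theorems before the last one are PROVED ELSEWHERE: leave them as `sorry` and use them.
Only prove the LAST theorem (TARGET). -/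

universe u v w x

/-- TARGET. -/
theorem K1 (p : ℕ) [Fact p.Prime] {S ι : Type} [CommRing S] [IsDomain S]
    [IsDiscreteValuationRing S] [Algebra ℤ_[p] S] [CharZero S] [Algebra.EssFiniteType ℤ_[p] S]
    [Fintype ι] (t : ι → S) (ht : ∀ j, t j ≠ 0)
    (hli : LinearIndependent S (fun j => D ℤ_[p] S (t j))) :
    addVal S (p : S) + ∑ j, addVal S (t j) ≤
      Module.length S (Ω[S⁄ℤ_[p]] ⧸ Submodule.span S (Set.range fun j => D ℤ_[p] S (t j))) + 1 := by
  classical
  obtain ⟨ϖ, hϖ⟩ := IsDiscreteValuationRing.exists_irreducible S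
  have hp0 : (p : S) ≠ 0 := by
    exact_mod_cast (Fact.out : p.Prime).ne_zero
  obtain ⟨e, u, hpe⟩ := IsDiscreteValuationRing.eq_unit_mul_pow_irreducible hp0 hϖ
  have hadd : addVal S (p : S) = (e : ℕ∞) :=
    IsDiscreteValuationRing.addVal_def (p : S) u hϖ e hpe
  rw [hadd]
  refine K1_glue (R₀ := ℤ_[p]) (S := S) (ι := ι) ?_ ϖ hϖ (p : ℤ_[p]) u e ?_ ?_ t ht hli
  · intro L _ _ ϖ' hϖ' τ hτ t' ht' θ k e' hθ hθe
    exact K1_log ϖ' hϖ' τ hτ t' ht' θ k e' hθ hθe
  · rw [map_natCast]
    exact hpe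
  · intro he
    exact K1_core p ϖ hϖ u e he hpe

end LcP.K1
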