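import Mathlib

/-! Helper lemmas for MP_18dec4_ag, part K2B1 (team job 12076). -/

set_option linter.all false

namespace LcP.K2B1

open IsDiscreteValuationRing (addVal)
open IsLocalRing

/-- rank -/
theorem K2B1_generator_finrank {R T : Type*} [CommRing R] [IsDomain R] [CommRing T] [IsDomain T]
    [Algebra R T] [Module.Finite R T]
    (hinj : Function.Injective (algebraMap R T)) (p : ℕ) (hp : p.Prime) (τ : T ≃ₐ[R] T)
    (hτ : τ ^ p = 1) (hτ1 : τ ≠ 1)
    (hinv : ∀ x : T, τ x = x → x ∈ Set.range (algebraMap R T)) : Module.finrank R T = p := by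
  have hfs : FaithfulSMul R T := (faithfulSMul_iff_algebraMap_injective R T).2 hinj
  have hpf : Fact p.Prime := ⟨hp⟩
  have hord : orderOf τ = p := orderOf_eq_prime hτ hτ1
  have hG : IsGaloisGroup (Subgroup.zpowers τ) R T :=
    { faithful := inferInstance
      commutes := inferInstance
      isInvariant := ⟨fun b hb => by
        obtain ⟨a, ha⟩ := hinv b (hb ⟨τ, Subgroup.mem_zpowers τ⟩)
        exact ⟨a, ha⟩⟩ }
  have hcard : Nat.card (Subgroup.zpowers τ) = p := by rw [Nat.card_zpowers, hord]
  have : Finite (Subgroup.zpowers τ) := Nat.finite_of_card_ne_zero (by rw [hcard]; exact hp.ne_zero)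
  rw [← IsGaloisGroup.card_eq_finrank' (Subgroup.zpowers τ) R T, hcard]

/-- e f = p -/
theorem K2B1_generator_ef {R T : Type*} [CommRing R] [IsDomain R] [IsDiscreteValuationRing R]
    [CommRing T] [IsDomain T] [IsDiscreteValuationRing T] [Algebra R T] [Module.Finite R T]
    (hinj : Function.Injective (algebraMap R T)) (n : ℕ) (hn : Module.finrank R T = n) :
    (maximalIdeal R).ramificationIdx' (maximalIdeal T) *
      (maximalIdeal R).inertiaDeg' (maximalIdeal T) = n := by
  have hfs : FaithfulSMul R T := (faithfulSMul_iff_algebraMap_injective R T).2 hinj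
  let := FractionRing.liftAlgebra R (FractionRing T)
  rw [Ideal.ramificationIdx_mul_inertiaDeg_of_isLocalRing (S := T) (FractionRing R)
    (FractionRing T) (p := maximalIdeal R) (IsDiscreteValuationRing.not_a_field R),
    IsFractionRing.finrank_eq R (FractionRing R) T (FractionRing T), hn]

theorem K2B1_generator_adj {k K : Type*} [Field k] [Field K] [Algebra k K] {p : ℕ}
    (hp : p.Prime) (hf : Module.finrank k K = p) : ∃ x : K, Algebra.adjoin k {x} = ⊤ := by
  have hs := Subalgebra.isSimpleOrder_of_finrank_prime k K (hf ▸ hp)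
  have hne : (⊥ : Subalgebra k K) ≠ ⊤ := bot_ne_top
  obtain ⟨x, hx⟩ : ∃ x : K, x ∉ (⊥ : Subalgebra k K) := by
    by_contra hcon
    push Not at hcon
    exact hne (eq_top_iff.2 fun x _ => hcon x)
  refine ⟨x, ?_⟩
  rcases hs.eq_bot_or_eq_top (Algebra.adjoin k {x}) with h | h
  · exfalso
    apply hx
    rw [← h]
    exact Algebra.self_mem_adjoin_singleton k x
  · exact h

/-- A cyclic degree `p` Galois extension `T/R` of DVRs is monogenic, with ramification index
`1` or `p`. -/
theorem K2B1_generator {R T : Type*} [CommRing R] [IsDomain R] [IsDiscreteValuationRing R]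
    [CommRing T] [IsDomain T] [IsDiscreteValuationRing T] [Algebra R T] [Module.Finite R T]
    (hinj : Function.Injective (algebraMap R T)) (p : ℕ) (hp : p.Prime) (τ : T ≃ₐ[R] T)
    (hτ : τ ^ p = 1) (hτ1 : τ ≠ 1)
    (hinv : ∀ x : T, τ x = x → x ∈ Set.range (algebraMap R T)) :
    ∃ (r : ℕ) (θ : T), 0 < r ∧
      (∀ x : R, addVal T (algebraMap R T x) = r * addVal R x) ∧
      Algebra.adjoin R {θ} = ⊤ ∧
      (r = 1 ∨ (r = p ∧ ∀ x : T, ∃ y : R, x - algebraMap R T y ∈ maximalIdeal T)) := by
  have hfs : FaithfulSMul R T := (faithfulSMul_iff_algebraMap_injective R T).2 hinj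
  have hfr := K2B1_generator_finrank hinj p hp τ hτ hτ1 hinv
  have hef := K2B1_generator_ef hinj p hfr
  have hint : Algebra.IsIntegral R T := Algebra.IsIntegral.of_finite R T
  have hloc : IsLocalHom (algebraMap R T) := inferInstance
  have hover : (maximalIdeal T).LiesOver (maximalIdeal R) := inferInstance
  obtain ⟨ϖ, hϖ⟩ := IsDiscreteValuationRing.exists_irreducible R
  obtain ⟨π, hπ⟩ := IsDiscreteValuationRing.exists_irreducible T
  have hmR : maximalIdeal R = Ideal.span {ϖ} := hϖ.maximalIdeal_eq
  have hmT : maximalIdeal T = Ideal.span {π} := hπ.maximalIdeal_eq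
  have hϖ0 : algebraMap R T ϖ ≠ 0 := by
    rw [map_ne_zero_iff _ hinj]
    exact hϖ.ne_zero
  obtain ⟨e, u, he⟩ := IsDiscreteValuationRing.eq_unit_mul_pow_irreducible hϖ0 hπ
  have he0 : 0 < e := by
    rcases Nat.eq_zero_or_pos e with h | h
    · exfalso
      rw [h, pow_zero, mul_one] at he
      have h1 : IsUnit (algebraMap R T ϖ) := he ▸ u.isUnit
      exact hϖ.not_isUnit (isUnit_of_map_unit (algebraMap R T) ϖ h1)
    · exact h
  have hmap : Ideal.map (algebraMap R T) (maximalIdeal R) = maximalIdeal T ^ e := by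
    rw [hmR, Ideal.map_span, Set.image_singleton, hmT, Ideal.span_singleton_pow, he,
      Ideal.span_singleton_mul_left_unit u.isUnit]
  have hram : (maximalIdeal R).ramificationIdx' (maximalIdeal T) = e := by
    apply Ideal.ramificationIdx'_spec
    · rw [hmap]
    · rw [hmap, hmT, Ideal.span_singleton_pow, Ideal.span_singleton_pow,
        Ideal.span_singleton_le_span_singleton, pow_dvd_pow_iff hπ.ne_zero hπ.not_isUnit]
      omega
  rw [hram, Ideal.inertiaDeg'_algebraMap] at hef
  have hval : ∀ x : R, addVal T (algebraMap R T x) = e * addVal R x := by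
    intro x
    by_cases hx : x = 0
    · rw [hx, map_zero, IsDiscreteValuationRing.addVal_zero, IsDiscreteValuationRing.addVal_zero,
        ENat.mul_top (by exact_mod_cast he0.ne')]
    · obtain ⟨k, v, hk⟩ := IsDiscreteValuationRing.eq_unit_mul_pow_irreducible hx hϖ
      have h1 : algebraMap R T x = ((Units.map (algebraMap R T : R →* T) v) * u ^ k : Tˣ) *
          π ^ (e * k) := by
        rw [hk, map_mul, map_pow, he, mul_pow, ← pow_mul]
        push_cast
        simp only [Units.coe_map, MonoidHom.coe_coe]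
        ring
      rw [h1, IsDiscreteValuationRing.addVal_def' _ hπ, hk,
        IsDiscreteValuationRing.addVal_def' _ hϖ]
      push_cast
      rfl
  have hNak : ∀ θ : T, (∀ x : T, ∃ y ∈ Algebra.adjoin R {θ}, x - y ∈ maximalIdeal T ^ e) →
      Algebra.adjoin R {θ} = ⊤ := by
    intro θ h
    have h1 : (⊤ : Submodule R T) ≤ Subalgebra.toSubmodule (Algebra.adjoin R {θ}) := by
      refine Submodule.le_of_le_smul_of_le_jacobson_bot (I := maximalIdeal R)
        Module.Finite.fg_top (maximalIdeal_le_jacobson _) ?_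
      intro x _
      obtain ⟨y, hy, hxy⟩ := h x
      rw [Submodule.mem_sup]
      refine ⟨y, hy, x - y, ?_, by ring⟩
      rw [← hmap, hmR, Ideal.map_span, Set.image_singleton, Ideal.mem_span_singleton] at hxy
      obtain ⟨c, hc⟩ := hxy
      rw [hc, ← Algebra.smul_def]
      exact Submodule.smul_mem_smul (hmR ▸ Ideal.mem_span_singleton_self ϖ) trivial
    rw [eq_top_iff]
    intro x _
    exact h1 (Submodule.mem_top (x := x))
  rcases (Nat.dvd_prime hp).1 ⟨_, hef.symm⟩ with h1 | h1
  · -- unramified case
    rw [h1, one_mul] at hef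
    letI := Ideal.Quotient.field (maximalIdeal R)
    letI := Ideal.Quotient.field (maximalIdeal T)
    obtain ⟨x, hx⟩ := K2B1_generator_adj (k := R ⧸ maximalIdeal R) (K := T ⧸ maximalIdeal T) hp hef
    obtain ⟨θ, rfl⟩ := Ideal.Quotient.mk_surjective x
    refine ⟨1, θ, one_pos, ?_, ?_, Or.inl rfl⟩
    · intro x
      rw [hval x, h1]
    · apply hNak
      intro x
      rw [h1, pow_one]
      have h2 : Ideal.Quotient.mk (maximalIdeal T) x ∈
          Algebra.adjoin (R ⧸ maximalIdeal R) {Ideal.Quotient.mk (maximalIdeal T) θ} := by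
        rw [hx]; trivial
      rw [Algebra.adjoin_singleton_eq_range_aeval] at h2
      obtain ⟨q, hq⟩ := h2
      obtain ⟨q, rfl⟩ := Polynomial.map_surjective (Ideal.Quotient.mk (maximalIdeal R))
        Ideal.Quotient.mk_surjective q
      refine ⟨Polynomial.aeval θ q, ?_, ?_⟩
      · rw [Algebra.adjoin_singleton_eq_range_aeval]
        exact ⟨q, rfl⟩
      · rw [← Ideal.Quotient.mk_eq_mk_iff_sub_mem, ← hq]
        have h3 : Polynomial.aeval (Ideal.Quotient.mk (maximalIdeal T) θ)
            (q.map (algebraMap R (R ⧸ maximalIdeal R))) =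
            Ideal.Quotient.mk (maximalIdeal T) (Polynomial.aeval θ q) := by
          rw [Polynomial.aeval_map_algebraMap]
          exact Polynomial.aeval_algHom_apply (Ideal.Quotient.mkₐ R (maximalIdeal T)) θ q
        exact h3
  · -- totally ramified case
    rw [h1] at hef
    have hf1 : Module.finrank (R ⧸ maximalIdeal R) (T ⧸ maximalIdeal T) = 1 := by
      have := hp.pos
      exact Nat.eq_of_mul_eq_mul_left this (by rw [hef, mul_one])
    have hres : ∀ x : T, ∃ y : R, x - algebraMap R T y ∈ maximalIdeal T := by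
      intro x
      letI := Ideal.Quotient.field (maximalIdeal R)
      letI := Ideal.Quotient.field (maximalIdeal T)
      have h2 : Function.Bijective (algebraMap (R ⧸ maximalIdeal R) (T ⧸ maximalIdeal T)) :=
        Algebra.finrank_eq_one_iff_bijective_algebraMap.1 hf1
      obtain ⟨y, hy⟩ := h2.2 (Ideal.Quotient.mk (maximalIdeal T) x)
      obtain ⟨y, rfl⟩ := Ideal.Quotient.mk_surjective y
      refine ⟨y, ?_⟩
      rw [← Ideal.Quotient.mk_eq_mk_iff_sub_mem, ← hy]
      rfl
    refine ⟨p, π, hp.pos, ?_, ?_, Or.inr ⟨rfl, hres⟩⟩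
    · intro x
      rw [hval x, h1]
    · apply hNak
      have hpow : ∀ n : ℕ, ∀ x : T, ∃ y ∈ Algebra.adjoin R {π}, x - y ∈ maximalIdeal T ^ n := by
        intro n
        induction n with
        | zero => intro x; exact ⟨0, zero_mem _, by simp⟩
        | succ n ih =>
          intro x
          obtain ⟨y, hy⟩ := hres x
          rw [hmT, Ideal.mem_span_singleton] at hy
          obtain ⟨c, hc⟩ := hy
          obtain ⟨z, hz, hcz⟩ := ih c
          refine ⟨algebraMap R T y + π * z, ?_, ?_⟩
          · exact add_mem (Subalgebra.algebraMap_mem _ _)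
              (mul_mem (Algebra.self_mem_adjoin_singleton R π) hz)
          · have h4 : x - (algebraMap R T y + π * z) = π * (c - z) := by
              linear_combination hc
            rw [h4, pow_succ']
            exact Ideal.mul_mem_mul (hmT ▸ Ideal.mem_span_singleton_self π) hcz
      exact hpow e

end LcP.K2B1
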