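import Mathlib

/-! Helper lemmas for MP_18dec4_ag, part K2B2 (team job 12077). -/

set_option linter.all false

namespace LcP.K2B2

open IsDiscreteValuationRing (addVal)
open IsLocalRing KaehlerDifferential

theorem K2B2_delta {R T : Type*} [CommRing R] [IsDomain R] [IsDiscreteValuationRing R]
    [CommRing T] [IsDomain T] [IsDiscreteValuationRing T] [Algebra R T]
    (hinj : Function.Injective (algebraMap R T)) (p : ℕ) (hp : p.Prime) (τ : T ≃ₐ[R] T)
    (hτ1 : τ ≠ 1) (r : ℕ) (hr0 : 0 < r) (θ : T)
    (hr : ∀ x : R, addVal T (algebraMap R T x) = r * addVal R x)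
    (hθ : Algebra.adjoin R {θ} = ⊤)
    (hcase : r = 1 ∨ (r = p ∧ ∀ x : T, ∃ y : R, x - algebraMap R T y ∈ maximalIdeal T))
    (hlen : Module.length T (Ω[T⁄R]) ≤ ((p - 1 : ℕ) : ℕ∞) * addVal T (τ θ - θ))
    (hmin : ∀ x, addVal T (τ θ - θ) ≤ addVal T (τ x - x)) :
    ∃ δ : ℕ, (∀ x : T, addVal T x + δ ≤ addVal T (τ x - x)) ∧
      Module.length T (Ω[T⁄R]) ≤ (((p - 1) * δ + (r - 1) : ℕ) : ℕ∞) := by
  -- the number i
  have hne : τ θ - θ ≠ 0 := by
    intro h
    apply hτ1
    have h1 : (τ : T →ₐ[R] T) = AlgHom.id R T := by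
      refine AlgHom.ext_of_adjoin_eq_top hθ ?_
      intro x hx
      rw [Set.mem_singleton_iff] at hx
      subst hx
      simpa using sub_eq_zero.1 h
    ext x
    have h2 := AlgHom.congr_fun h1 x
    simpa using h2
  have htop : addVal T (τ θ - θ) ≠ ⊤ := by
    rw [Ne, IsDiscreteValuationRing.addVal_eq_top_iff]
    exact hne
  obtain ⟨i, hi⟩ := ENat.ne_top_iff_exists.1 htop
  rw [← hi] at hlen hmin
  have hzero : ∀ δ : ℕ, addVal T (0 : T) + δ ≤ addVal T (τ 0 - 0) := by
    intro δ
    rw [map_zero τ, sub_zero, IsDiscreteValuationRing.addVal_zero, top_add]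
  rcases hcase with h1 | ⟨h1, h2⟩
  · refine ⟨i, fun x => ?_, ?_⟩
    · obtain ⟨ϖ, hϖ⟩ := IsDiscreteValuationRing.exists_irreducible R
      obtain ⟨t, ht⟩ := IsDiscreteValuationRing.exists_irreducible T
      have h3 : addVal T (algebraMap R T ϖ) = addVal T t := by
        rw [hr, h1, IsDiscreteValuationRing.addVal_uniformizer hϖ,
          IsDiscreteValuationRing.addVal_uniformizer ht]
        norm_num
      have h4 : Irreducible (algebraMap R T ϖ) :=
        ((IsDiscreteValuationRing.addVal_eq_iff_associated _ _).1 h3).symm.irreducible ht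
      by_cases hx : x = 0
      · subst hx; exact hzero i
      · obtain ⟨k, u, hu⟩ := IsDiscreteValuationRing.eq_unit_mul_pow_irreducible hx h4
        have h5 : addVal T x = k := IsDiscreteValuationRing.addVal_def x u h4 k hu
        have h6 : τ x - x = (τ u - u) * (algebraMap R T ϖ) ^ k := by
          rw [hu, map_mul, map_pow, AlgEquiv.commutes]; ring
        rw [h6, IsDiscreteValuationRing.addVal_mul, h4.addVal_pow, h5, add_comm]
        exact add_le_add (hmin u) le_rfl
    · subst h1
      simpa using hlen
  · -- ramified case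
    have hpos : 1 ≤ i := by
      by_contra hlt
      have hi0 : i = 0 := by omega
      subst hi0
      have h3 : IsUnit (τ θ - θ) := IsDiscreteValuationRing.addVal_eq_zero_iff.1 hi.symm
      obtain ⟨y, hy⟩ := h2 θ
      have h4 : τ (θ - algebraMap R T y) ∈ maximalIdeal T := by
        rw [mem_maximalIdeal, mem_nonunits_iff]
        intro h5
        have h6 : IsUnit (τ.symm (τ (θ - algebraMap R T y))) := h5.map τ.symm
        rw [AlgEquiv.symm_apply_apply] at h6
        exact (mem_maximalIdeal _).1 hy h6
      have h5 : τ θ - θ = τ (θ - algebraMap R T y) - (θ - algebraMap R T y) := by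
        rw [map_sub, AlgEquiv.commutes]; ring
      have h6 : τ θ - θ ∈ maximalIdeal T := by
        rw [h5]; exact Ideal.sub_mem _ h4 hy
      exact (mem_maximalIdeal _).1 h6 h3
    refine ⟨i - 1, fun x => ?_, ?_⟩
    · obtain ⟨t, ht⟩ := IsDiscreteValuationRing.exists_irreducible T
      have ht' : Irreducible (τ t) := (MulEquiv.irreducible_iff τ).2 ht
      by_cases hx : x = 0
      · subst hx; exact hzero (i - 1)
      · obtain ⟨k, u, hu⟩ := IsDiscreteValuationRing.eq_unit_mul_pow_irreducible hx ht
        have h5 : addVal T x = k := IsDiscreteValuationRing.addVal_def x u ht k hu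
        have h6 : τ x - x = (τ u - u) * (τ t) ^ k + u * ((τ t) ^ k - t ^ k) := by
          rw [hu, map_mul, map_pow]; ring
        rw [h6, h5]
        refine le_trans (le_min ?_ ?_) IsDiscreteValuationRing.addVal_add
        · rw [IsDiscreteValuationRing.addVal_mul, ht'.addVal_pow, add_comm]
          refine add_le_add (le_trans ?_ (hmin u)) le_rfl
          exact_mod_cast Nat.sub_le i 1
        · rw [IsDiscreteValuationRing.addVal_mul, IsDiscreteValuationRing.addVal_eq_zero_of_unit,
            zero_add]
          rcases Nat.eq_zero_or_pos k with hk | hk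
          · subst hk
            simp [IsDiscreteValuationRing.addVal_zero]
          · have h7 : (τ t) ^ k - t ^ k =
                (∑ j ∈ Finset.range k, (τ t) ^ j * t ^ (k - 1 - j)) * (τ t - t) :=
              (Commute.all _ _).geom_sum₂_mul k |>.symm
            rw [h7, IsDiscreteValuationRing.addVal_mul]
            have h8 : ((k - 1 : ℕ) : ℕ∞) ≤
                addVal T (∑ j ∈ Finset.range k, (τ t) ^ j * t ^ (k - 1 - j)) := by
              have h9 : t ^ (k - 1) ∣ ∑ j ∈ Finset.range k, (τ t) ^ j * t ^ (k - 1 - j) := by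
                refine Finset.dvd_sum fun j hj => ?_
                have h10 : t ∣ τ t := by
                  rw [← IsDiscreteValuationRing.addVal_le_iff_dvd,
                    IsDiscreteValuationRing.addVal_uniformizer ht,
                    IsDiscreteValuationRing.addVal_uniformizer ht']
                have h11 : k - 1 = j + (k - 1 - j) := by
                  have := Finset.mem_range.1 hj; omega
                conv_lhs => rw [h11, pow_add]
                exact mul_dvd_mul (pow_dvd_pow_of_dvd h10 j) dvd_rfl
              rw [← IsDiscreteValuationRing.addVal_le_iff_dvd, ht.addVal_pow] at h9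
              exact h9
            calc ((k : ℕ∞) + ((i - 1 : ℕ) : ℕ∞)) = ((k - 1 : ℕ) : ℕ∞) + (i : ℕ∞) := by
                  have : k + (i - 1) = (k - 1) + i := by omega
                  exact_mod_cast this
              _ ≤ _ := add_le_add h8 (hmin t)
    · refine hlen.trans ?_
      have h3 : (p - 1) * i ≤ (p - 1) * (i - 1) + (r - 1) := by
        rw [h1]
        obtain ⟨m, rfl⟩ : ∃ m, i = m + 1 := ⟨i - 1, by omega⟩
        rw [Nat.add_sub_cancel, Nat.mul_succ]
      exact_mod_cast h3

end LcP.K2B2
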