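import Mathlib

/-! Helper lemmas for MP_18dec4_ag, part K2C (team job 12075). -/

set_option linter.all false

namespace LcP.K2C

open IsDiscreteValuationRing (addVal)
open KaehlerDifferential

section K2Caux
variable {R T : Type*} [CommRing R] [CommRing T] [Algebra R T]

lemma K2C_aux_dvd (θ : T) (hθ : Algebra.adjoin R {θ} = ⊤) (ρ : T ≃ₐ[R] T) (x : T) :
    (ρ θ - θ) ∣ (ρ x - x) := by
  have hx : x ∈ Algebra.adjoin R {θ} := by rw [hθ]; trivial
  rw [Algebra.adjoin_singleton_eq_range_aeval] at hx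
  obtain ⟨f, rfl⟩ := hx
  have h1 : ρ (Polynomial.aeval θ f) = Polynomial.aeval (ρ θ) f := by
    have := Polynomial.aeval_algHom_apply (ρ : T →ₐ[R] T) θ f
    simpa using this.symm
  have h2 := Polynomial.sub_dvd_eval_sub (ρ θ) θ (f.map (algebraMap R T))
  rw [Polynomial.eval_map_algebraMap, Polynomial.eval_map_algebraMap] at h2
  show (ρ θ - θ) ∣ (ρ (Polynomial.aeval θ f) - Polynomial.aeval θ f)
  rw [h1]
  exact h2

lemma K2C_aux_pow (θ : T) (hθ : Algebra.adjoin R {θ} = ⊤) (ρ : T ≃ₐ[R] T) (l : ℕ) :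
    (ρ θ - θ) ∣ ((ρ ^ l) θ - θ) := by
  induction l with
  | zero => simp
  | succ l ih =>
    have h1 : (ρ ^ (l + 1)) θ - θ = (ρ ((ρ ^ l) θ) - (ρ ^ l) θ) + ((ρ ^ l) θ - θ) := by
      rw [pow_succ', AlgEquiv.mul_apply]; ring
    rw [h1]
    exact dvd_add (K2C_aux_dvd θ hθ ρ _) ih

/-- the characteristic polynomial -/
noncomputable def K2C_F (τ : T ≃ₐ[R] T) (θ : T) (p : ℕ) : Polynomial T :=
  ∏ i ∈ Finset.range p, (Polynomial.X - Polynomial.C ((τ ^ i) θ))

lemma K2C_F_map (τ : T ≃ₐ[R] T) (θ : T) (p : ℕ) (hp : 0 < p) (hτ : τ ^ p = 1) :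
    (K2C_F τ θ p).map (τ : T →+* T) = K2C_F τ θ p := by
  obtain ⟨q, rfl⟩ : ∃ q, p = q + 1 := ⟨p - 1, by omega⟩
  unfold K2C_F
  rw [Polynomial.map_prod]
  have h1 : ∀ i, Polynomial.map (τ : T →+* T) (Polynomial.X - Polynomial.C ((τ ^ i) θ))
      = Polynomial.X - Polynomial.C ((τ ^ (i + 1)) θ) := by
    intro i
    rw [Polynomial.map_sub, Polynomial.map_X, Polynomial.map_C, pow_succ', AlgEquiv.mul_apply]
    rfl
  simp_rw [h1]
  rw [Finset.prod_range_succ, Finset.prod_range_succ', hτ]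
  simp

lemma K2C_F_lift (τ : T ≃ₐ[R] T) (θ : T) (p : ℕ) (hp : 0 < p) (hτ : τ ^ p = 1)
    (hinv : ∀ x : T, τ x = x → x ∈ Set.range (algebraMap R T)) :
    ∃ F0 : Polynomial R, F0.map (algebraMap R T) = K2C_F τ θ p := by
  have : K2C_F τ θ p ∈ Polynomial.lifts (algebraMap R T) := by
    rw [Polynomial.lifts_iff_coeff_lifts]
    intro n
    apply hinv
    conv_rhs => rw [← K2C_F_map τ θ p hp hτ]
    rw [Polynomial.coeff_map]
    rfl
  rw [Polynomial.mem_lifts] at this
  exact this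

lemma K2C_F_eval (τ : T ≃ₐ[R] T) (θ : T) (p : ℕ) (hp : 0 < p) :
    (K2C_F τ θ p).eval θ = 0 := by
  unfold K2C_F
  rw [Polynomial.eval_prod]
  apply Finset.prod_eq_zero (Finset.mem_range.2 hp)
  simp

lemma K2C_F_deriv (τ : T ≃ₐ[R] T) (θ : T) (p : ℕ) (hp : 0 < p) :
    (K2C_F τ θ p).derivative.eval θ = ∏ i ∈ Finset.range (p - 1), (θ - (τ ^ (i + 1)) θ) := by
  obtain ⟨q, rfl⟩ : ∃ q, p = q + 1 := ⟨p - 1, by omega⟩
  unfold K2C_F
  rw [Finset.prod_range_succ', Polynomial.derivative_mul, Polynomial.eval_add, Polynomial.eval_mul,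
    Polynomial.eval_mul]
  simp [Polynomial.eval_prod]

lemma K2C_span (θ : T) (hθ : Algebra.adjoin R {θ} = ⊤) (ω : Ω[T⁄R]) :
    ∃ t : T, ω = t • KaehlerDifferential.D R T θ := by
  have h1 : ω ∈ Submodule.span T (Set.range (KaehlerDifferential.D R T)) := by
    rw [KaehlerDifferential.span_range_derivation]; trivial
  have h2 : Submodule.span T (Set.range (KaehlerDifferential.D R T)) ≤
      Submodule.span T {KaehlerDifferential.D R T θ} := by
    rw [Submodule.span_le]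
    rintro _ ⟨x, rfl⟩
    have hx : x ∈ Algebra.adjoin R {θ} := by rw [hθ]; trivial
    rw [Algebra.adjoin_singleton_eq_range_aeval] at hx
    obtain ⟨f, rfl⟩ := hx
    have h3 : KaehlerDifferential.D R T (Polynomial.aeval θ f) =
      (Polynomial.aeval θ (Polynomial.derivative f)) • KaehlerDifferential.D R T θ :=
      Derivation.map_aeval _ f θ
    show KaehlerDifferential.D R T (Polynomial.aeval θ f) ∈ _
    rw [h3]
    exact Submodule.smul_mem _ _ (Submodule.mem_span_singleton_self _)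
  obtain ⟨t, ht⟩ := Submodule.mem_span_singleton.1 (h2 h1)
  exact ⟨t, ht.symm⟩

lemma K2C_kill (τ : T ≃ₐ[R] T) (θ : T) (p : ℕ) (hp : 0 < p) (hτ : τ ^ p = 1)
    (hinv : ∀ x : T, τ x = x → x ∈ Set.range (algebraMap R T)) :
    (∏ i ∈ Finset.range (p - 1), (θ - (τ ^ (i + 1)) θ)) • KaehlerDifferential.D R T θ = 0 := by
  obtain ⟨F0, hF0⟩ := K2C_F_lift τ θ p hp hτ hinv
  have h1 : Polynomial.aeval θ F0 = 0 := by
    rw [← Polynomial.eval_map_algebraMap, hF0, K2C_F_eval τ θ p hp]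
  have h2 : Polynomial.aeval θ (Polynomial.derivative F0) = ∏ i ∈ Finset.range (p - 1), (θ - (τ ^ (i + 1)) θ) := by
    rw [← Polynomial.eval_map_algebraMap, ← Polynomial.derivative_map, hF0, K2C_F_deriv τ θ p hp]
  have h3 : KaehlerDifferential.D R T (Polynomial.aeval θ F0) =
      (Polynomial.aeval θ (Polynomial.derivative F0)) • KaehlerDifferential.D R T θ :=
      Derivation.map_aeval _ F0 θ
  rw [h1, map_zero, h2] at h3
  exact h3.symm

lemma K2C_length (θ : T) (hθ : Algebra.adjoin R {θ} = ⊤) (a : T)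
    (ha : a • KaehlerDifferential.D R T θ = 0) :
    Module.length T (Ω[T⁄R]) ≤ Module.length T (T ⧸ Ideal.span {a}) := by
  let g : T →ₗ[T] Ω[T⁄R] := LinearMap.toSpanSingleton T _ (KaehlerDifferential.D R T θ)
  have hg : Ideal.span {a} ≤ LinearMap.ker g := by
    rw [Ideal.span_singleton_le_iff_mem, LinearMap.mem_ker]
    exact ha
  let g' : (T ⧸ Ideal.span {a}) →ₗ[T] Ω[T⁄R] := Submodule.liftQ (Ideal.span {a}) g hg
  refine Module.length_le_of_surjective g' ?_
  intro ω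
  obtain ⟨t, ht⟩ := K2C_span θ hθ ω
  refine ⟨Submodule.Quotient.mk t, ?_⟩
  rw [ht]
  rfl

lemma K2C_quot [IsDomain T] [IsDiscreteValuationRing T] (a : T) :
    Module.length T (T ⧸ Ideal.span {a}) ≤ addVal T a := by
  by_cases ha : a = 0
  · rw [ha, IsDiscreteValuationRing.addVal_zero]; exact le_top
  · obtain ⟨ϖ, hϖ⟩ := IsDiscreteValuationRing.exists_irreducible T
    obtain ⟨n, u, hu⟩ := IsDiscreteValuationRing.eq_unit_mul_pow_irreducible ha hϖ
    have h1 : Ideal.span {a} = IsLocalRing.maximalIdeal T ^ n := by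
      rw [hu, Ideal.span_singleton_mul_left_unit u.isUnit, hϖ.maximalIdeal_eq, Ideal.span_singleton_pow]
    rw [h1, IsDiscreteValuationRing.length_quotient_pow_maximalIdeal, hu, IsDiscreteValuationRing.addVal_def' u hϖ]

end K2Caux

/-- Monogenic cyclic extension of prime degree: bound for the length of the differentials. -/
theorem K2C_monogenic {R T : Type*} [CommRing R] [CommRing T] [IsDomain T]
    [IsDiscreteValuationRing T] [Algebra R T] (p : ℕ) (hp : p.Prime) (τ : T ≃ₐ[R] T)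
    (hτ : τ ^ p = 1) (hτ1 : τ ≠ 1)
    (hinv : ∀ x : T, τ x = x → x ∈ Set.range (algebraMap R T))
    (θ : T) (hθ : Algebra.adjoin R {θ} = ⊤) :
    Module.length T (Ω[T⁄R]) ≤ ((p - 1 : ℕ) : ℕ∞) * addVal T (τ θ - θ) ∧
      ∀ x, addVal T (τ θ - θ) ≤ addVal T (τ x - x) := by
  refine ⟨?_, fun x => IsDiscreteValuationRing.addVal_le_iff_dvd.2 (K2C_aux_dvd θ hθ τ x)⟩
  have h1 := K2C_length θ hθ _ (K2C_kill τ θ p hp.pos hτ hinv)
  refine h1.trans ((K2C_quot _).trans ?_)
  have h2 : ∀ i ∈ Finset.range (p - 1), addVal T (θ - (τ ^ (i + 1)) θ) ≤ addVal T (τ θ - θ) := by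
    intro i hi
    rw [Finset.mem_range] at hi
    rw [IsDiscreteValuationRing.addVal_le_iff_dvd, ← neg_sub, neg_dvd]
    have hcop : Nat.Coprime (i + 1) p := by
      rw [Nat.coprime_comm, hp.coprime_iff_not_dvd]
      intro hdvd
      have := Nat.le_of_dvd (by omega) hdvd
      omega
    obtain ⟨l, _, hl⟩ := Nat.exists_mul_mod_eq_one_of_coprime hcop hp.one_lt
    have h3 : (τ ^ (i + 1)) ^ l = τ := by
      rw [← pow_mul, pow_eq_pow_mod _ hτ, hl, pow_one]
    have h4 := K2C_aux_pow θ hθ (τ ^ (i + 1)) l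
    rwa [h3] at h4
  have h5 : ∀ s : Finset ℕ, (∀ i ∈ s, addVal T (θ - (τ ^ (i + 1)) θ) ≤ addVal T (τ θ - θ)) →
      addVal T (∏ i ∈ s, (θ - (τ ^ (i + 1)) θ)) ≤ (s.card : ℕ∞) * addVal T (τ θ - θ) := by
    intro s
    induction s using Finset.induction_on with
    | empty => intro _; simp
    | insert j s hj ih =>
      intro hs
      rw [Finset.prod_insert hj, IsDiscreteValuationRing.addVal_mul, Finset.card_insert_of_notMem hj]
      push_cast
      rw [add_mul, one_mul, add_comm]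
      exact add_le_add (ih fun i hi => hs i (Finset.mem_insert_of_mem hi)) (hs j (Finset.mem_insert_self _ _))
  have h6 := h5 _ h2
  rwa [Finset.card_range] at h6

end LcP.K2C
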