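import Mathlib
import Pool.Agent.Helper142.Lc.K2C
import Pool.Agent.Helper142.Lc.K2B1
import Pool.Agent.Helper142.Lc.K2B2

/-! Helper lemmas for MP_18dec4_ag, part K2B. -/

set_option linter.all false

namespace LcP.K2B

open IsDiscreteValuationRing (addVal)
open IsLocalRing KaehlerDifferential
open LcP.K2C LcP.K2B1 LcP.K2B2

theorem K2B {R T : Type*} [CommRing R] [IsDomain R] [IsDiscreteValuationRing R]
    [CommRing T] [IsDomain T] [IsDiscreteValuationRing T] [Algebra R T] [Module.Finite R T]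
    (hinj : Function.Injective (algebraMap R T)) (p : ℕ) (hp : p.Prime) (τ : T ≃ₐ[R] T)
    (hτ : τ ^ p = 1) (hτ1 : τ ≠ 1)
    (hinv : ∀ x : T, τ x = x → x ∈ Set.range (algebraMap R T)) :
    ∃ r δ : ℕ, 0 < r ∧ (∀ x : R, addVal T (algebraMap R T x) = r * addVal R x) ∧
      (∀ x : T, addVal T x + δ ≤ addVal T (τ x - x)) ∧
      Module.length T (Ω[T⁄R]) ≤ (((p - 1) * δ + (r - 1) : ℕ) : ℕ∞) := by
  obtain ⟨r, θ, hr0, hr, hθ, hcase⟩ := K2B1_generator hinj p hp τ hτ hτ1 hinv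
  obtain ⟨hlen, hmin⟩ := K2C_monogenic p hp τ hτ hτ1 hinv θ hθ
  obtain ⟨δ, h1, h2⟩ := K2B2_delta hinj p hp τ hτ1 r hr0 θ hr hθ hcase hlen hmin
  exact ⟨r, δ, hr0, hr, h1, h2⟩

end LcP.K2B
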