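import Mathlib

/-! Helper lemmas for MP_18dec4_ag, part K4a (team job 12078). -/

set_option linter.all false

namespace LcP.K4a

open IsLocalRing
open scoped TensorProduct

section K4aaux

variable {R T : Type*} [CommRing R] [CommRing T] [Algebra R T]

/-- `a ⊗ b ↦ a * g b` -/
noncomputable def K4a_phi (g : T →ₐ[R] T) : T ⊗[R] T →ₐ[R] T :=
  Algebra.TensorProduct.lift (AlgHom.id R T) g (fun _ _ => Commute.all _ _)

theorem K4a_phi_tmul (g : T →ₐ[R] T) (a b : T) : K4a_phi g (a ⊗ₜ[R] b) = a * g b := by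
  simp [K4a_phi]

theorem K4a_fam (M : Ideal T) [M.IsPrime] (τ : T ≃ₐ[R] T) (p : ℕ)
    (hx : ∀ j, 1 ≤ j → j < p → ∃ x, (τ ^ j) x - x ∉ M) :
    ∃ S : Finset (T × T), (∀ j, 1 ≤ j → j < p → ∑ i ∈ S, i.1 * (τ ^ j) i.2 = 0) ∧
      ∑ i ∈ S, i.1 * i.2 ∉ M := by
  have hx' : ∀ j, ∃ x, 1 ≤ j → j < p → (τ ^ j) x - x ∉ M := by
    intro j
    by_cases h : 1 ≤ j ∧ j < p
    · obtain ⟨x, hx⟩ := hx j h.1 h.2
      exact ⟨x, fun _ _ => hx⟩
    · exact ⟨0, fun h1 h2 => absurd ⟨h1, h2⟩ h⟩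
  choose x hx2 using hx'
  let e : T ⊗[R] T := ∏ j ∈ Finset.Ico 1 p, ((1 : T) ⊗ₜ[R] x j - (τ ^ j) (x j) ⊗ₜ[R] (1 : T))
  have he : ∀ k : ℕ, K4a_phi ((τ ^ k : T ≃ₐ[R] T) : T →ₐ[R] T) e =
      ∏ j ∈ Finset.Ico 1 p, ((τ ^ k) (x j) - (τ ^ j) (x j)) := by
    intro k
    show K4a_phi ((τ ^ k : T ≃ₐ[R] T) : T →ₐ[R] T)
      (∏ j ∈ Finset.Ico 1 p, ((1 : T) ⊗ₜ[R] x j - (τ ^ j) (x j) ⊗ₜ[R] (1 : T))) = _
    rw [map_prod]
    refine Finset.prod_congr rfl (fun j _ => ?_)
    rw [map_sub, K4a_phi_tmul, K4a_phi_tmul, map_one, mul_one, one_mul]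
    rfl
  obtain ⟨S, hS⟩ := TensorProduct.exists_finset e
  have hS2 : ∀ k : ℕ, ∑ i ∈ S, i.1 * (τ ^ k) i.2 =
      ∏ j ∈ Finset.Ico 1 p, ((τ ^ k) (x j) - (τ ^ j) (x j)) := by
    intro k
    rw [← he k, hS, map_sum]
    refine Finset.sum_congr rfl (fun i _ => ?_)
    rw [K4a_phi_tmul]
    rfl
  refine ⟨S, ?_, ?_⟩
  · intro j h1 h2
    rw [hS2 j]
    exact Finset.prod_eq_zero (Finset.mem_Ico.2 ⟨h1, h2⟩) (sub_self _)
  · have h0 := hS2 0
    rw [pow_zero] at h0
    have h1 : ∑ i ∈ S, i.1 * i.2 = ∏ j ∈ Finset.Ico 1 p, (x j - (τ ^ j) (x j)) := h0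
    rw [h1, Ideal.IsPrime.prod_mem_iff]
    rintro ⟨j, hj, hm⟩
    rw [Finset.mem_Ico] at hj
    apply hx2 j hj.1 hj.2
    rw [← neg_sub]
    exact M.neg_mem hm

/-- the trace sum -/
noncomputable def K4a_tr (τ : T ≃ₐ[R] T) (p : ℕ) (y : T) : T := ∑ j ∈ Finset.range p, (τ ^ j) y

theorem K4a_tr_fix (τ : T ≃ₐ[R] T) (p : ℕ) (hτ : τ ^ p = 1) (y : T) :
    τ (K4a_tr τ p y) = K4a_tr τ p y := by
  unfold K4a_tr
  rw [map_sum]
  have h1 : ∀ j, τ ((τ ^ j) y) = (τ ^ (j + 1)) y := by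
    intro j
    rw [pow_succ']; rfl
  rw [Finset.sum_congr rfl (fun j _ => h1 j)]
  have h2 := Finset.sum_range_succ (fun j => (τ ^ j) y) p
  have h3 := Finset.sum_range_succ' (fun j => (τ ^ j) y) p
  rw [h2] at h3
  simp only [hτ, pow_zero] at h3
  exact (add_right_cancel h3).symm

theorem K4a_der {N : Type*} [AddCommGroup N] [Module T N] [Module R N] (D : Derivation R T N)
    (τ : T ≃ₐ[R] T) (p : ℕ) (hp : 1 ≤ p) (hτ : τ ^ p = 1)
    (hinv : ∀ x : T, τ x = x → x ∈ Set.range (algebraMap R T))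
    (S : Finset (T × T)) (hS : ∀ j, 1 ≤ j → j < p → ∑ i ∈ S, i.1 * (τ ^ j) i.2 = 0) (t : T) :
    (∑ i ∈ S, i.1 * i.2) • (∑ i ∈ S, i.1 * i.2) • D t = 0 := by
  set u : T := ∑ i ∈ S, i.1 * i.2 with hu
  let c : ℕ → N := fun j => ∑ i ∈ S, (τ ^ j) i.2 • D i.1
  have hDtr : ∀ y, D (K4a_tr τ p y) = 0 := by
    intro y
    obtain ⟨r, hr⟩ := hinv _ (K4a_tr_fix τ p hτ y)
    rw [← hr]
    exact D.map_algebraMap r
  have hphi : ∀ j ∈ Finset.range p, ∀ t : T,
      (∑ i ∈ S, i.1 * (τ ^ j) i.2) * (τ ^ j) t = if j = 0 then u * t else 0 := by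
    intro j hj t
    rw [Finset.mem_range] at hj
    by_cases h0 : j = 0
    · subst h0
      rw [if_pos rfl, pow_zero]
      rfl
    · rw [if_neg h0, hS j (by omega) hj, zero_mul]
  have h1 : ∀ t : T, ∑ i ∈ S, i.1 * K4a_tr τ p (i.2 * t) = u * t := by
    intro t
    have : ∀ i ∈ S, i.1 * K4a_tr τ p (i.2 * t) =
        ∑ j ∈ Finset.range p, (i.1 * (τ ^ j) i.2) * (τ ^ j) t := by
      intro i _
      unfold K4a_tr
      rw [Finset.mul_sum]
      refine Finset.sum_congr rfl (fun j _ => ?_)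
      rw [map_mul, mul_assoc]
    rw [Finset.sum_congr rfl this, Finset.sum_comm]
    have h2 : ∀ j ∈ Finset.range p, ∑ i ∈ S, (i.1 * (τ ^ j) i.2) * (τ ^ j) t =
        if j = 0 then u * t else 0 := by
      intro j hj
      rw [← Finset.sum_mul, hphi j hj t]
    rw [Finset.sum_congr rfl h2, Finset.sum_ite_eq' (Finset.range p) 0 (fun _ => u * t),
      if_pos (Finset.mem_range.2 hp)]
  have h2 : ∀ t : T, D (u * t) = ∑ j ∈ Finset.range p, (τ ^ j) t • c j := by
    intro t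
    rw [← h1 t, map_sum]
    have : ∀ i ∈ S, D (i.1 * K4a_tr τ p (i.2 * t)) =
        ∑ j ∈ Finset.range p, (τ ^ j) t • ((τ ^ j) i.2 • D i.1) := by
      intro i _
      rw [Derivation.leibniz, hDtr, smul_zero, zero_add]
      unfold K4a_tr
      rw [Finset.sum_smul]
      refine Finset.sum_congr rfl (fun j _ => ?_)
      rw [map_mul, smul_smul, mul_comm]
    rw [Finset.sum_congr rfl this, Finset.sum_comm]
    refine Finset.sum_congr rfl (fun j _ => ?_)
    show _ = (τ ^ j) t • ∑ i ∈ S, (τ ^ j) i.2 • D i.1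
    rw [Finset.smul_sum]
  have h3 : ∀ t : T, u • D t = ∑ j ∈ Finset.range p, ((τ ^ j) t - t) • c j := by
    intro t
    have e1 := h2 t
    have e2 := h2 1
    rw [mul_one] at e2
    rw [Derivation.leibniz, e2] at e1
    have e3 : u • D t = ∑ j ∈ Finset.range p, (τ ^ j) t • c j -
        t • ∑ j ∈ Finset.range p, (τ ^ j) (1 : T) • c j := by
      rw [← e1]; abel
    rw [e3, Finset.smul_sum, ← Finset.sum_sub_distrib]
    refine Finset.sum_congr rfl (fun j _ => ?_)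
    rw [map_one, one_smul, sub_smul]
  have h4 : ∀ t s : T, ∑ j ∈ Finset.range p, (((τ ^ j) t - t) * ((τ ^ j) s - s)) • c j = 0 := by
    intro t s
    have e1 := h3 (t * s)
    rw [Derivation.leibniz, smul_add, smul_comm u t, smul_comm u s, h3 t, h3 s,
      Finset.smul_sum, Finset.smul_sum, ← Finset.sum_add_distrib] at e1
    have e2 : ∑ j ∈ Finset.range p, (((τ ^ j) t - t) * ((τ ^ j) s - s)) • c j =
        ∑ j ∈ Finset.range p, ((τ ^ j) (t * s) - t * s) • c j -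
        ∑ j ∈ Finset.range p, (t • ((τ ^ j) s - s) • c j + s • ((τ ^ j) t - t) • c j) := by
      rw [← Finset.sum_sub_distrib]
      refine Finset.sum_congr rfl (fun j _ => ?_)
      rw [map_mul, smul_smul, smul_smul, ← add_smul, ← sub_smul]
      congr 1
      ring
    rw [e2, ← e1, sub_self]
  have h5 : ∑ i ∈ S, i.1 • ∑ j ∈ Finset.range p, (((τ ^ j) t - t) * ((τ ^ j) i.2 - i.2)) • c j =
      0 := by
    refine Finset.sum_eq_zero (fun i _ => ?_)
    rw [h4, smul_zero]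
  have h6 : ∑ i ∈ S, i.1 • ∑ j ∈ Finset.range p, (((τ ^ j) t - t) * ((τ ^ j) i.2 - i.2)) • c j =
      ∑ j ∈ Finset.range p, (((τ ^ j) t - t) * (∑ i ∈ S, i.1 * (τ ^ j) i.2 - u)) • c j := by
    have : ∀ i ∈ S, i.1 • ∑ j ∈ Finset.range p, (((τ ^ j) t - t) * ((τ ^ j) i.2 - i.2)) • c j =
        ∑ j ∈ Finset.range p, (((τ ^ j) t - t) * (i.1 * (τ ^ j) i.2 - i.1 * i.2)) • c j := by
      intro i _
      rw [Finset.smul_sum]
      refine Finset.sum_congr rfl (fun j _ => ?_)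
      rw [smul_smul]
      congr 1
      ring
    rw [Finset.sum_congr rfl this, Finset.sum_comm]
    refine Finset.sum_congr rfl (fun j _ => ?_)
    rw [← Finset.sum_smul, ← Finset.mul_sum, Finset.sum_sub_distrib]
  have h7 : ∑ j ∈ Finset.range p, (((τ ^ j) t - t) * (∑ i ∈ S, i.1 * (τ ^ j) i.2 - u)) • c j =
      - (u • u • D t) := by
    rw [h3 t, Finset.smul_sum, ← Finset.sum_neg_distrib]
    refine Finset.sum_congr rfl (fun j hj => ?_)
    rw [smul_smul, ← neg_smul]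
    congr 1
    rw [Finset.mem_range] at hj
    by_cases h0 : j = 0
    · subst h0
      rw [pow_zero]
      show (t - t) * _ = -(u * (t - t))
      rw [sub_self, zero_mul, mul_zero, neg_zero]
    · rw [hS j (by omega) hj]; ring
  rw [h6, h7] at h5
  exact neg_eq_zero.1 h5

theorem K4a_pow (M : Ideal T) (g : T ≃ₐ[R] T) (h : ∀ y, g y - y ∈ M) (k : ℕ) :
    ∀ y, (g ^ k) y - y ∈ M := by
  induction k with
  | zero => intro y; rw [pow_zero]; show y - y ∈ M; rw [sub_self]; exact M.zero_mem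
  | succ k ih =>
    intro y
    have h1 : (g ^ (k + 1)) y = g ((g ^ k) y) := by rw [pow_succ']; rfl
    rw [h1]
    have h2 := M.add_mem (h ((g ^ k) y)) (ih y)
    rwa [sub_add_sub_cancel] at h2

end K4aaux

/-- Trivial inertia at `M` implies unramified at `M`, for a cyclic group of prime order. -/
theorem K4a_unramified {R T : Type*} [CommRing R] [IsDomain R] [IsDiscreteValuationRing R]
    [CommRing T] [IsDedekindDomain T] [Algebra R T] [Module.Finite R T]
    (hinj : Function.Injective (algebraMap R T)) (p : ℕ) (hp : p.Prime) (τ : T ≃ₐ[R] T)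
    (hτ : τ ^ p = 1) (hτ1 : τ ≠ 1)
    (hinv : ∀ x : T, τ x = x → x ∈ Set.range (algebraMap R T))
    (M : Ideal T) [M.IsMaximal] (x : T) (hx : τ x - x ∉ M) :
    Algebra.IsUnramifiedAt R M := by
  have hxj : ∀ j, 1 ≤ j → j < p → ∃ x, (τ ^ j) x - x ∉ M := by
    intro j hj1 hj2
    by_contra hc
    push Not at hc
    have hcop : Nat.Coprime j p := by
      rw [Nat.coprime_comm]
      exact (Nat.Prime.coprime_iff_not_dvd hp).2 (Nat.not_dvd_of_pos_of_lt hj1 hj2)
    obtain ⟨k, hk⟩ := Nat.exists_mul_mod_eq_one_of_coprime hcop hp.one_lt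
    have h1 : (τ ^ j) ^ k = τ := by
      rw [← pow_mul, ← Nat.div_add_mod (j * k) p, hk.2, pow_add, pow_mul, hτ, one_pow, one_mul,
        pow_one]
    have h2 := K4a_pow M (τ ^ j) hc k x
    rw [h1] at h2
    exact hx h2
  obtain ⟨S, hS1, hS2⟩ := K4a_fam M τ p hxj
  set u : T := ∑ i ∈ S, i.1 * i.2 with hu
  have hunit : IsUnit (algebraMap T (Localization.AtPrime M) u) :=
    IsLocalization.map_units (Localization.AtPrime M) (⟨u, hS2⟩ : M.primeCompl)
  let D' : Derivation R T (Ω[Localization.AtPrime M⁄R]) :=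
    (KaehlerDifferential.D R (Localization.AtPrime M)).compAlgebraMap T
  have hD1 : ∀ t : T, KaehlerDifferential.D R (Localization.AtPrime M)
      (algebraMap T (Localization.AtPrime M) t) = 0 := by
    intro t
    have h1 := K4a_der D' τ p hp.one_lt.le hτ hinv S hS1 t
    have h2 : algebraMap T (Localization.AtPrime M) u •
        algebraMap T (Localization.AtPrime M) u • D' t = 0 := by
      rw [algebraMap_smul, algebraMap_smul]
      exact h1
    rw [hunit.smul_eq_zero, hunit.smul_eq_zero] at h2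
    exact h2
  have hD2 : ∀ a : Localization.AtPrime M,
      KaehlerDifferential.D R (Localization.AtPrime M) a = 0 := by
    intro a
    obtain ⟨⟨t, s⟩, h⟩ := IsLocalization.surj M.primeCompl a
    have h1 := congrArg (KaehlerDifferential.D R (Localization.AtPrime M)) h
    simp only at h1
    rw [Derivation.leibniz, hD1, hD1, smul_zero, zero_add] at h1
    exact (IsLocalization.map_units (Localization.AtPrime M) s).smul_eq_zero.1 h1
  refine ⟨⟨fun a b => ?_⟩⟩
  have hz : ∀ a : Ω[Localization.AtPrime M⁄R], a = 0 := by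
    intro a
    have ha : a ∈ (⊤ : Submodule (Localization.AtPrime M) (Ω[Localization.AtPrime M⁄R])) :=
      Submodule.mem_top
    rw [← KaehlerDifferential.span_range_derivation] at ha
    have hle : Submodule.span (Localization.AtPrime M)
        (Set.range (KaehlerDifferential.D R (Localization.AtPrime M))) ≤ ⊥ := by
      rw [Submodule.span_le]
      rintro _ ⟨y, rfl⟩
      rw [hD2 y]
      exact Submodule.zero_mem _
    exact (Submodule.mem_bot _).1 (hle ha)
  rw [hz a, hz b]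

end LcP.K4a
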