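import Mathlib

/-! Helper lemmas for MP_18dec4_ag, part K4c (team job 12079). -/

set_option linter.all false

namespace LcP.K4c

open IsDiscreteValuationRing (addVal)
open IsLocalRing

theorem K4c_etale {R T S : Type*} [CommRing R] [IsDomain R] [IsDiscreteValuationRing R]
    [CommRing T] [IsDedekindDomain T] [Algebra R T] [Module.Finite R T]
    (hinj : Function.Injective (algebraMap R T))
    [CommRing S] [IsDomain S] [IsDiscreteValuationRing S] [Algebra T S] [Algebra R S]
    [IsScalarTower R T S] (M : Ideal T) [M.IsMaximal] [IsLocalization.AtPrime S M]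
    (hM : Algebra.IsUnramifiedAt R M) :
    Algebra.FormallyEtale R S ∧ ∀ x : R, addVal S (algebraMap R S x) = addVal R x := by
  have htf : Module.IsTorsionFree R T := Module.isTorsionFree_iff_algebraMap_injective.mpr hinj
  have hflat : Module.Flat R T := inferInstance
  have hfp : Algebra.FinitePresentation R T :=
    Algebra.FinitePresentation.of_finiteType.1 inferInstance
  have := hM
  have het : Algebra.IsEtaleAt R M := Algebra.IsEtaleAt.of_isUnramifiedAt_of_flat M
  have hes : Algebra.FormallyEtale R S :=
    Algebra.FormallyEtale.of_equiv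
      ((IsLocalization.algEquiv M.primeCompl (Localization.AtPrime M) S).restrictScalars R)
  refine ⟨hes, ?_⟩
  have hess1 : Algebra.EssFiniteType T S := Algebra.EssFiniteType.of_isLocalization S M.primeCompl
  have hess : Algebra.EssFiniteType R S := Algebra.EssFiniteType.comp R T S
  have hmax : (M.comap (algebraMap R T)).IsMaximal :=
    Ideal.isMaximal_comap_of_isIntegral_of_isMaximal M
  have hMR : M.comap (algebraMap R T) = maximalIdeal R := IsLocalRing.eq_maximalIdeal hmax
  have hloc : IsLocalHom (algebraMap R S) := by
    constructor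
    intro a ha
    by_contra hna
    have h1 : a ∈ maximalIdeal R := (IsLocalRing.mem_maximalIdeal a).2 hna
    rw [← hMR, Ideal.mem_comap] at h1
    rw [IsScalarTower.algebraMap_apply R T S] at ha
    have h2 := (IsLocalization.AtPrime.to_map_mem_maximal_iff S M (algebraMap R T a)).2 h1
    exact (IsLocalRing.mem_maximalIdeal _).1 h2 ha
  have hmap := Algebra.FormallyUnramified.map_maximalIdeal (R := R) (S := S)
  obtain ⟨ϖ, hϖ⟩ := IsDiscreteValuationRing.exists_irreducible R
  rw [hϖ.maximalIdeal_eq, Ideal.map_span, Set.image_singleton] at hmap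
  have hirr : Irreducible (algebraMap R S ϖ) :=
    (IsDiscreteValuationRing.irreducible_iff_uniformizer _).2 hmap.symm
  intro x
  by_cases hx : x = 0
  · rw [hx, map_zero, IsDiscreteValuationRing.addVal_zero, IsDiscreteValuationRing.addVal_zero]
  · obtain ⟨n, u, hu⟩ := IsDiscreteValuationRing.eq_unit_mul_pow_irreducible hx hϖ
    rw [IsDiscreteValuationRing.addVal_def x u hϖ n hu]
    refine IsDiscreteValuationRing.addVal_def _ (Units.map (algebraMap R S : R →* S) u) hirr n ?_
    rw [hu, map_mul, map_pow]
    rfl

end LcP.K4c
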