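import Mathlib
import Pool.Agent.Helper142.Lc.K4a
import Pool.Agent.Helper142.Lc.K4c
import Pool.Agent.Helper142.Lc.K2B

/-! Helper lemmas for MP_18dec4_ag, part K2A (team job 12080). -/

set_option linter.all false

namespace LcP.K2A

open LcP.K4a LcP.K4c LcP.K2B
open IsDiscreteValuationRing (addVal)
open IsLocalRing KaehlerDifferential

theorem K2A_addVal {T S : Type*} [CommRing T] [IsDomain T] [IsDiscreteValuationRing T]
    [CommRing S] [IsDomain S] [IsDiscreteValuationRing S] (e : T ≃+* S) (x : T) :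
    addVal S (e x) = addVal T x := by
  by_cases hx : x = 0
  · rw [hx, map_zero, IsDiscreteValuationRing.addVal_zero, IsDiscreteValuationRing.addVal_zero]
  · obtain ⟨ϖ, hϖ⟩ := IsDiscreteValuationRing.exists_irreducible T
    obtain ⟨n, u, hu⟩ := IsDiscreteValuationRing.eq_unit_mul_pow_irreducible hx hϖ
    have hϖ' : Irreducible (e ϖ) := (MulEquiv.irreducible_iff e.toMulEquiv).2 hϖ
    rw [IsDiscreteValuationRing.addVal_def x u hϖ n hu,
      IsDiscreteValuationRing.addVal_def (e x) (Units.map e.toMonoidHom u) hϖ' n (by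
        rw [hu, map_mul, map_pow]; rfl)]

theorem K2A_unit {R T : Type*} [CommRing R] [IsDomain R] [IsDiscreteValuationRing R]
    [CommRing T] [IsDomain T] [Algebra R T] [Module.Finite R T]
    (p : ℕ) (hp : p.Prime) (τ : T ≃ₐ[R] T)
    (hτ : τ ^ p = 1) (hinv : ∀ x : T, τ x = x → x ∈ Set.range (algebraMap R T))
    (M : Ideal T) [M.IsMaximal] (hM : ∀ x : T, τ x - x ∈ M) (x : T) (hx : x ∉ M) : IsUnit x := by
  have hpow : ∀ i : ℕ, (τ ^ i) x - x ∈ M := by
    intro i
    induction i with
    | zero => rw [pow_zero]; simp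
    | succ i ih =>
      have h1 : (τ ^ (i + 1)) x = τ ((τ ^ i) x) := by rw [pow_succ']; rfl
      have h2 : (τ ^ (i + 1)) x - x = (τ ((τ ^ i) x) - (τ ^ i) x) + ((τ ^ i) x - x) := by
        rw [h1]; ring
      rw [h2]
      exact M.add_mem (hM _) ih
  have hMp : M.IsPrime := Ideal.IsMaximal.isPrime inferInstance
  have hnot : ∀ i : ℕ, (τ ^ i) x ∉ M := by
    intro i hi
    apply hx
    have h1 := M.sub_mem hi (hpow i)
    rwa [sub_sub_cancel] at h1
  obtain ⟨n, hn⟩ : ∃ n, n = ∏ i ∈ Finset.range p, (τ ^ i) x := ⟨_, rfl⟩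
  have hnM : n ∉ M := by
    rw [hn]
    intro h
    obtain ⟨i, _, hi⟩ := (Ideal.IsPrime.prod_mem_iff).1 h
    exact hnot i hi
  have hτn : τ n = n := by
    rw [hn, map_prod]
    have h1 : ∀ i ∈ Finset.range p, τ ((τ ^ i) x) = (τ ^ (i + 1)) x := by
      intro i _
      rw [pow_succ']; rfl
    rw [Finset.prod_congr rfl h1]
    obtain ⟨q, hq⟩ : ∃ q, p = q + 1 := ⟨p - 1, by have := hp.pos; omega⟩
    have h3 : (τ ^ (q + 1)) x = (τ ^ 0) x := by rw [← hq, hτ, pow_zero]
    rw [hq, Finset.prod_range_succ, h3]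
    rw [Finset.prod_range_succ' (fun i => (τ ^ i) x) q]
  obtain ⟨r, hr⟩ := hinv n hτn
  have hcomap : M.comap (algebraMap R T) = IsLocalRing.maximalIdeal R := by
    have : (M.comap (algebraMap R T)).IsMaximal :=
      Ideal.isMaximal_comap_of_isIntegral_of_isMaximal (R := R) M
    exact IsLocalRing.eq_maximalIdeal this
  have hru : IsUnit r := by
    by_contra hnu
    have h1 : r ∈ IsLocalRing.maximalIdeal R := hnu
    rw [← hcomap, Ideal.mem_comap, hr] at h1
    exact hnM h1
  have hnu : IsUnit n := by rw [← hr]; exact hru.map _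
  refine isUnit_of_dvd_unit ?_ hnu
  rw [hn]
  have : x = (τ ^ 0) x := by rw [pow_zero]; rfl
  nth_rewrite 1 [this]
  exact Finset.dvd_prod_of_mem (fun i => (τ ^ i) x) (Finset.mem_range.2 hp.pos)

/-- TARGET. -/
theorem K2A {R T S : Type*} [CommRing R] [IsDomain R] [IsDiscreteValuationRing R]
    [CommRing T] [IsDedekindDomain T] [Algebra R T] [Module.Finite R T]
    (hinj : Function.Injective (algebraMap R T)) (p : ℕ) (hp : p.Prime) (τ : T ≃ₐ[R] T)
    (hτ : τ ^ p = 1) (hτ1 : τ ≠ 1)
    (hinv : ∀ x : T, τ x = x → x ∈ Set.range (algebraMap R T))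
    [CommRing S] [IsDomain S] [IsDiscreteValuationRing S] [Algebra T S] [Algebra R S]
    [IsScalarTower R T S] (M : Ideal T) [M.IsMaximal] [IsLocalization.AtPrime S M] :
    ∃ r δ : ℕ, 0 < r ∧ (∀ x : R, addVal S (algebraMap R S x) = r * addVal R x) ∧
      (δ = 0 ∨ ∀ x : T, addVal S (algebraMap T S x) + δ ≤ addVal S (algebraMap T S (τ x - x))) ∧
      Module.length S (Ω[S⁄R]) ≤ (((p - 1) * δ + (r - 1) : ℕ) : ℕ∞) := by
  by_cases hcase : ∃ x : T, τ x - x ∉ M
  · obtain ⟨x, hx⟩ := hcase
    have hunr := K4a_unramified hinj p hp τ hτ hτ1 hinv M x hx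
    obtain ⟨h1, h2⟩ := K4c_etale (R := R) (S := S) hinj M hunr
    refine ⟨1, 0, one_pos, fun x => ?_, Or.inl rfl, ?_⟩
    · rw [h2 x, Nat.cast_one, one_mul]
    · have : Algebra.FormallyUnramified R S := inferInstance
      have : Subsingleton (Ω[S⁄R]) := inferInstance
      rw [Module.length_eq_zero]
      exact zero_le
  · push Not at hcase
    have hunit := K2A_unit p hp τ hτ hinv M hcase
    have hMp : M.IsPrime := Ideal.IsMaximal.isPrime inferInstance
    have hloc : IsLocalRing T := by
      refine IsLocalRing.of_nonunits_add fun a b ha hb => ?_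
      have ha' : a ∈ M := by
        by_contra h; exact ha (hunit a h)
      have hb' : b ∈ M := by
        by_contra h; exact hb (hunit b h)
      intro hab
      exact hMp.ne_top (Ideal.eq_top_of_isUnit_mem M (M.add_mem ha' hb') hab)
    have hnf : ¬ IsField T := by
      intro hf
      exact IsDiscreteValuationRing.not_isField R (isField_of_isIntegral_of_isField hinj hf)
    have hdvr : IsDiscreteValuationRing T :=
      ((IsDiscreteValuationRing.TFAE T hnf).out 0 2).2 (inferInstance : IsDedekindDomain T)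
    obtain ⟨r, δ, h1, h2, h3, h4⟩ := K2B hinj p hp τ hτ hτ1 hinv
    obtain ⟨e, he⟩ : ∃ e : T ≃+* S, ∀ x, e x = algebraMap T S x := by
      have hH : M.primeCompl ≤ IsUnit.submonoid T := fun x hx => hunit x hx
      exact ⟨(IsLocalization.atUnits T M.primeCompl (S := S) hH).toRingEquiv,
        fun x => (IsLocalization.atUnits T M.primeCompl (S := S) hH).commutes x⟩
    have hval : ∀ x : T, addVal S (algebraMap T S x) = addVal T x := by
      intro x
      rw [← he, K2A_addVal]
    refine ⟨r, δ, h1, fun x => ?_, Or.inr fun x => ?_, ?_⟩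
    · rw [IsScalarTower.algebraMap_apply R T S, hval, h2]
    · rw [hval, hval]; exact h3 x
    · have hsurj : Function.Surjective (algebraMap T S) := fun y => by
        obtain ⟨x, hx⟩ := e.surjective y
        exact ⟨x, by rw [← he, hx]⟩
      rw [← Module.length_eq_of_surjective (M := Ω[S⁄R]) hsurj]
      exact (Module.length_le_of_surjective (KaehlerDifferential.map R R T S)
        (KaehlerDifferential.map_surjective_of_surjective R R T S hsurj)).trans h4

end LcP.K2A
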