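import Mathlib
import Pool.Agent.Helper142.Lc.E1
import Pool.Agent.Helper142.Lc.E2
import Pool.Agent.Helper142.Lc.E3
import Pool.Agent.Helper142.Lc.K4a
import Pool.Agent.Helper142.Lc.K4c

/-! Helper lemmas for MP_18dec4_ag, part K4T (team job 13500). -/

set_option linter.all false

namespace LcP.K4T

open LcP.E1 LcP.E2 LcP.E3 LcP.K4a LcP.K4c
open IsDiscreteValuationRing (addVal)
open IsLocalRing KaehlerDifferential
open scoped TensorProduct

/-! All theorems before the last one are PROVED ELSEWHERE: leave them as `sorry` and use them.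
Only prove the LAST theorem (TARGET). -/

universe u v w x

/-- TARGET: exactness in codimension one. -/
theorem K4T_codim_one (p : ℕ) [Fact p.Prime]
    {A R T L : Type} [CommRing A] [Algebra ℤ_[p] A]
    [CommRing R] [IsDomain R] [IsDiscreteValuationRing R] [Algebra ℤ_[p] R]
    [Algebra.EssFiniteType ℤ_[p] R]
    [CommRing T] [IsDedekindDomain T] [Algebra R T] [Module.Finite R T]
    [Algebra ℤ_[p] T] [IsScalarTower ℤ_[p] R T]
    [Field L] [CharZero L] [Algebra T L] [IsFractionRing T L] [Algebra ℤ_[p] L]
    [IsScalarTower ℤ_[p] T L] [Algebra A T] [IsScalarTower ℤ_[p] A T]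
    (hinj : Function.Injective (algebraMap R T))
    (τ : T ≃ₐ[R] T) (hτ : τ ^ p = 1) (hτ1 : τ ≠ 1)
    (hinv : ∀ x : T, τ x = x → x ∈ Set.range (algebraMap R T))
    {ι : Type} [Fintype ι] [DecidableEq ι]
    (M : Ideal T) [M.IsMaximal] (x₀ : T) (hx₀ : τ x₀ - x₀ ∉ M)
    (t : ι → A)
    (htlin : LinearIndependent L (fun i => D ℤ_[p] L (algebraMap T L (algebraMap A T (t i)))))
    (hspan : ∀ a : A, D ℤ_[p] A a ∈ Submodule.span A (Set.range fun j => D ℤ_[p] A (t j)))
    (hloc : ∀ x : T, ∃ a b : A, algebraMap A T b ∉ M ∧
      x * algebraMap A T b = algebraMap A T a)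
    (z : ι → A) (z' : ι → R)
    (hz : ∀ i, algebraMap A T (z i) = algebraMap R T (z' i))
    (J : Matrix ι ι A)
    (hJ : ∀ i, D ℤ_[p] A (z i) = ∑ j, J i j • D ℤ_[p] A (t j))
    (h : R) (hh : algebraMap A T J.det = algebraMap R T h) :
    Module.length R (Ω[R⁄ℤ_[p]] ⧸
        Submodule.span R (Set.range fun i => D ℤ_[p] R (z' i))) = addVal R h := by
  classical
  have hM : M ≠ ⊥ := by
    rintro rfl
    have hT : IsField T := by
      have h1 := (Ideal.Quotient.maximal_ideal_iff_isField_quotient (⊥ : Ideal T)).1 inferInstance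
      exact (RingEquiv.quotientBot T).symm.toMulEquiv.isField h1
    have hRf : IsField R := isField_of_isIntegral_of_isField hinj hT
    exact IsDiscreteValuationRing.not_isField R hRf
  let S := Localization.AtPrime M
  have hSdvr : IsDiscreteValuationRing S :=
    IsLocalization.AtPrime.isDiscreteValuationRing_of_dedekind_domain T hM S
  have hunr : Algebra.IsUnramifiedAt R M :=
    K4a_unramified hinj p Fact.out τ hτ hτ1 hinv M x₀ hx₀
  obtain ⟨het, hval⟩ := K4c_etale (S := S) hinj M hunr
  have tower1 : IsScalarTower ℤ_[p] R S := by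
    refine IsScalarTower.of_algebraMap_eq fun x => ?_
    rw [IsScalarTower.algebraMap_apply ℤ_[p] T S, IsScalarTower.algebraMap_apply ℤ_[p] R T,
      IsScalarTower.algebraMap_apply R T S]
  have hE2 : ∀ (T' : Type) [AddCommGroup T'] [Module R T'] [Module.Finite R T'],
      Module.length S (S ⊗[R] T') = Module.length R T' := by
    intro T' _ _ _
    have := E2_length_baseChange (R := R) (S := S) (T := T') 1 one_pos (by
      intro x; rw [hval x]; simp)
    simpa using this
  have hE4 := E4_length_kaehler_eq (R₀ := ℤ_[p]) (R := R) (S := S) hE2 z'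
  rw [← hE4]
  -- the map to `L`
  have hne : ∀ y : M.primeCompl, IsUnit (algebraMap T L y) := by
    intro y
    refine IsUnit.mk0 _ fun h0 => y.2 ?_
    have : (y : T) = 0 := (IsFractionRing.injective T L) (by rw [h0, map_zero])
    rw [this]; exact M.zero_mem
  let φ : S →+* L := IsLocalization.lift (M := M.primeCompl) (S := S) (g := algebraMap T L) hne
  letI : Algebra S L := φ.toAlgebra
  have hφ : ∀ x : T, algebraMap S L (algebraMap T S x) = algebraMap T L x := fun x =>
    IsLocalization.lift_eq _ _
  have towTSL : IsScalarTower T S L := IsScalarTower.of_algebraMap_eq fun x => (hφ x).symm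
  have towZSL : IsScalarTower ℤ_[p] S L := by
    refine IsScalarTower.of_algebraMap_eq fun x => ?_
    rw [IsScalarTower.algebraMap_apply ℤ_[p] T S, hφ, ← IsScalarTower.algebraMap_apply]
  have hSL : Function.Injective (algebraMap S L) := by
    rw [injective_iff_map_eq_zero]
    intro s hs
    obtain ⟨⟨x, y⟩, hxy⟩ := IsLocalization.surj M.primeCompl s
    simp only at hxy
    have h1 : algebraMap T L x = 0 := by
      rw [← hφ, ← hxy, map_mul, hs, zero_mul]
    have h2 : x = 0 := (IsFractionRing.injective T L) (by rw [h1, map_zero])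
    rw [h2, map_zero] at hxy
    have h3 : IsUnit (algebraMap T S y) := IsLocalization.map_units S y
    exact (h3.mul_left_eq_zero).1 hxy
  -- the elements
  let m : ι → Ω[S⁄ℤ_[p]] := fun j => D ℤ_[p] S (algebraMap A S (t j))
  have hmlin : LinearIndependent S m := by
    have h1 : LinearIndependent S
        (fun i => D ℤ_[p] L (algebraMap T L (algebraMap A T (t i)))) := by
      refine LinearIndependent.restrict_scalars (R := S) ?_ htlin
      intro a b hab
      apply hSL
      simpa [Algebra.smul_def] using hab
    refine LinearIndependent.of_comp (KaehlerDifferential.map ℤ_[p] ℤ_[p] S L) ?_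
    convert h1 using 1
    ext i
    simp only [Function.comp_apply, m, KaehlerDifferential.map_D]
    congr 1
    rw [IsScalarTower.algebraMap_apply A T S, hφ]
  have towZAS : IsScalarTower ℤ_[p] A S := by
    refine IsScalarTower.of_algebraMap_eq fun x => ?_
    rw [IsScalarTower.algebraMap_apply ℤ_[p] T S, IsScalarTower.algebraMap_apply ℤ_[p] A T,
      IsScalarTower.algebraMap_apply A T S]
  let F := KaehlerDifferential.map ℤ_[p] ℤ_[p] A S
  have hm' : ∀ i, D ℤ_[p] S (algebraMap R S (z' i))
      = ∑ j, (J.map (algebraMap A S)) i j • m j := by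
    intro i
    have h1 := congrArg F (hJ i)
    simp only [F, KaehlerDifferential.map_D, map_sum, LinearMap.map_smul] at h1
    have h2 : algebraMap A S (z i) = algebraMap R S (z' i) := by
      rw [IsScalarTower.algebraMap_apply A T S, hz, ← IsScalarTower.algebraMap_apply R T S]
    rw [h2] at h1
    rw [h1]
    refine Finset.sum_congr rfl fun j _ => ?_
    simp only [m, Matrix.map_apply, algebraMap_smul]
  have hE1 := E1_length_det m (fun i => D ℤ_[p] S (algebraMap R S (z' i)))
    (J.map (algebraMap A S)) hmlin hm'
  rw [hE1]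
  -- determinant
  have hdet : (J.map (algebraMap A S)).det = algebraMap R S h := by
    have : (J.map (algebraMap A S)).det = algebraMap A S J.det := by
      rw [RingHom.map_det]; rfl
    rw [this, IsScalarTower.algebraMap_apply A T S, hh, ← IsScalarTower.algebraMap_apply R T S]
  rw [hdet, hval]
  -- span is everything
  have htop : Submodule.span S (Set.range m) = ⊤ := by
    rw [eq_top_iff, ← KaehlerDifferential.span_range_map_derivation_of_isLocalization ℤ_[p] T S
      M.primeCompl, Submodule.span_le]
    rintro _ ⟨x, rfl⟩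
    simp only [Function.comp_apply, KaehlerDifferential.map_D]
    have hA : ∀ a : A, D ℤ_[p] S (algebraMap T S (algebraMap A T a))
        ∈ Submodule.span S (Set.range m) := by
      intro a
      have h1 := hspan a
      have h2 : F (D ℤ_[p] A a) ∈ Submodule.span S (Set.range m) := by
        refine Submodule.span_induction (p := fun y _ => F y ∈ Submodule.span S (Set.range m))
          ?_ ?_ ?_ ?_ h1
        · rintro _ ⟨j, rfl⟩
          simp only [F, KaehlerDifferential.map_D]
          exact Submodule.subset_span ⟨j, rfl⟩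
        · simp
        · intro x y _ _ hx hy
          rw [map_add]; exact Submodule.add_mem _ hx hy
        · intro c x _ hx
          rw [LinearMap.map_smul, ← algebraMap_smul S c]
          exact Submodule.smul_mem _ _ hx
      simp only [F, KaehlerDifferential.map_D] at h2
      rwa [IsScalarTower.algebraMap_apply A T S] at h2
    obtain ⟨a, b, hb, hab⟩ := hloc x
    have h3 : D ℤ_[p] S (algebraMap T S x * algebraMap T S (algebraMap A T b))
        = D ℤ_[p] S (algebraMap T S (algebraMap A T a)) := by
      rw [← map_mul, hab]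
    rw [Derivation.leibniz] at h3
    have hu : IsUnit (algebraMap T S (algebraMap A T b)) :=
      IsLocalization.map_units S (⟨algebraMap A T b, hb⟩ : M.primeCompl)
    obtain ⟨u, hu⟩ := hu
    have h4 : D ℤ_[p] S (algebraMap T S x) = (↑u⁻¹ : S) •
        (D ℤ_[p] S (algebraMap T S (algebraMap A T a))
          - algebraMap T S x • D ℤ_[p] S (algebraMap T S (algebraMap A T b))) := by
      rw [← h3, ← hu, add_sub_cancel_left, smul_smul, Units.inv_mul, one_smul]
    have h5 : D ℤ_[p] S (algebraMap T S x) ∈ Submodule.span S (Set.range m) := by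
      rw [h4]
      exact Submodule.smul_mem _ _ (Submodule.sub_mem _ (hA a) (Submodule.smul_mem _ _ (hA b)))
    exact h5
  have hsub : Subsingleton (Ω[S⁄ℤ_[p]] ⧸ Submodule.span S (Set.range m)) := by
    rw [Submodule.Quotient.subsingleton_iff]; exact htop
  rw [Module.length_eq_zero, zero_add]

end LcP.K4T
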