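import Mathlib

/-! Helper lemmas for MP_18dec4_ag, part K4b (team job 13369). -/

set_option linter.all false

namespace LcP.K4b

theorem K4b_fractions {A T L : Type*} [CommRing A] [IsDomain A] [UniqueFactorizationMonoid A]
    [CommRing T] [Field L] [Algebra A L] [IsFractionRing A L] [Algebra T L] [Algebra A T]
    [IsScalarTower A T L] (hinj : Function.Injective (algebraMap T L)) (M : Ideal T) [M.IsPrime]
    (π : A) (hπ : Prime π) (hQ : M.comap (algebraMap A T) = Ideal.span {π}) (x : T) :
    ∃ a b : A, algebraMap A T b ∉ M ∧ x * algebraMap A T b = algebraMap A T a := by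
  obtain ⟨a, b, hab, hx⟩ := IsFractionRing.exists_reduced_fraction A (algebraMap T L x)
  have h1 : x * algebraMap A T (b : A) = algebraMap A T a := by
    apply hinj
    rw [map_mul, ← IsScalarTower.algebraMap_apply, ← IsScalarTower.algebraMap_apply, ← hx]
    exact IsLocalization.mk'_spec L a b
  refine ⟨a, b, ?_, h1⟩
  intro hb
  have hb' : (b : A) ∈ M.comap (algebraMap A T) := hb
  rw [hQ, Ideal.mem_span_singleton] at hb'
  have ha : a ∈ M.comap (algebraMap A T) := by
    rw [Ideal.mem_comap, ← h1]
    exact M.mul_mem_left x hb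
  rw [hQ, Ideal.mem_span_singleton] at ha
  exact hπ.not_unit (hab ha hb')

/-- A prime `Q` of a UFD `A`, integral over `B`, with contraction of height one, is generated by
a prime element and does not contain two non-associated prime elements. -/
theorem K4h_height_one {B A : Type*} [CommRing B] [CommRing A] [IsDomain A]
    [UniqueFactorizationMonoid A] [Algebra B A] [Algebra.IsIntegral B A]
    (hinj : Function.Injective (algebraMap B A)) (Q : Ideal A) [Q.IsPrime]
    (hQ : (Q.comap (algebraMap B A)).height = 1) :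
    ∃ π : A, Prime π ∧ Q = Ideal.span {π} := by
  have key : ∀ I J : Ideal A, I.IsPrime → I < J →
      I.comap (algebraMap B A) < J.comap (algebraMap B A) := by
    intro I J hI hIJ
    obtain ⟨hle, x, hxJ, hxI⟩ := SetLike.lt_iff_le_and_exists.1 hIJ
    haveI := hI
    exact Ideal.comap_lt_comap_of_integral_mem_sdiff hle ⟨hxJ, hxI⟩
      (Algebra.IsIntegral.isIntegral x)
  haveI : IsDomain B := hinj.isDomain (algebraMap B A)
  have hQbot : Q ≠ ⊥ := by
    intro h
    rw [h, ← RingHom.ker_eq_comap_bot, (RingHom.injective_iff_ker_eq_bot _).1 hinj] at hQ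
    rw [Ideal.height_bot] at hQ
    exact zero_ne_one hQ
  obtain ⟨π, hπQ, hπ⟩ := Ideal.IsPrime.exists_mem_prime_of_ne_bot ‹Q.IsPrime› hQbot
  refine ⟨π, hπ, ?_⟩
  by_contra hne
  have hπp : (Ideal.span {π}).IsPrime := (Ideal.span_singleton_prime hπ.ne_zero).2 hπ
  have hle : Ideal.span {π} ≤ Q := (Ideal.span_singleton_le_iff_mem _).2 hπQ
  have hlt : Ideal.span {π} < Q := lt_of_le_of_ne hle (fun h => hne h.symm)
  have hbot : (⊥ : Ideal A) < Ideal.span {π} := by
    rw [bot_lt_iff_ne_bot]
    intro h
    rw [Ideal.span_singleton_eq_bot] at h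
    exact hπ.ne_zero h
  have h1 := key _ _ hπp hlt
  have h2 := key _ _ Ideal.isPrime_bot hbot
  have h3 := Ideal.height_add_one_le_of_lt_of_isPrime h1
  have h4 := Ideal.height_add_one_le_of_lt_of_isPrime h2
  rw [hQ] at h3
  have h5 : (1 : ℕ∞) ≤ ((Ideal.span {π}).comap (algebraMap B A)).height :=
    le_trans le_add_self h4
  have h6 : (1 : ℕ∞) + 1 ≤ 1 := le_trans (by gcongr) h3
  exact absurd h6 (by decide)

end LcP.K4b
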