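import Mathlib
import Pool.Agent.Helper142.Lc.E1
import Pool.Agent.Helper142.Lc.E2
import Pool.Agent.Helper142.Lc.E3
import Pool.Agent.Helper142.Lc.K1
import Pool.Agent.Helper142.Lc.K2A

/-! Helper lemmas for MP_18dec4_ag, part MI (team job 13499). -/

set_option linter.all false

namespace LcP.MI

open LcP.E1 LcP.E2 LcP.E3 LcP.K1 LcP.K2A
open IsDiscreteValuationRing (addVal)
open IsLocalRing KaehlerDifferential
open scoped TensorProduct

/-! All theorems before the last one are PROVED ELSEWHERE: leave them as `sorry` and use them.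
Only prove the LAST theorem (TARGET). -/

universe u v w x

theorem mi_fin_val {S : Type} [CommRing S] [IsDomain S] [IsDiscreteValuationRing S] (p δ : ℕ) (hp2 : 2 < p)
    (t : Fin 2 × Fin (p - 1) → S)
    (h : ∀ (a : Fin 2) (j : ℕ) (hj : j < p - 1) (hj' : j + 1 < p - 1),
      addVal S (t (a, ⟨j, hj⟩)) + δ ≤ addVal S (t (a, ⟨j + 1, hj'⟩))) :
    (((p - 1) * δ : ℕ) : ℕ∞) ≤ ∑ j, addVal S (t j) := by
  have h1 : ∀ (a : Fin 2) (j : ℕ) (hj : j < p - 1), ((j * δ : ℕ) : ℕ∞) ≤ addVal S (t (a, ⟨j, hj⟩)) := by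
    intro a j
    induction j with
    | zero => intro hj; simp
    | succ j ih =>
      intro hj
      have := h a j (by omega) hj
      refine le_trans ?_ this
      have h2 := ih (by omega)
      calc (((j + 1) * δ : ℕ) : ℕ∞) = ((j * δ : ℕ) : ℕ∞) + (δ : ℕ∞) := by push_cast; ring
        _ ≤ _ := by gcongr
  rw [Fintype.sum_prod_type]
  have h2 : ∀ a : Fin 2, ((∑ j : Fin (p - 1), (j : ℕ) * δ : ℕ) : ℕ∞) ≤ ∑ j : Fin (p - 1), addVal S (t (a, j)) := by
    intro a
    push_cast
    apply Finset.sum_le_sum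
    intro j _
    have := h1 a j j.2
    simpa using this
  have h3 : (((p - 1) * δ : ℕ) : ℕ∞) ≤ ∑ a : Fin 2, ((∑ j : Fin (p - 1), (j : ℕ) * δ : ℕ) : ℕ∞) := by
    rw [Fin.sum_univ_two]
    have e : (∑ j : Fin (p - 1), (j : ℕ) * δ) = (∑ j ∈ Finset.range (p - 1), j) * δ := by
      rw [Finset.sum_mul, Finset.sum_range]
    rw [e]
    have e2 : (p - 1) * δ ≤ (∑ j ∈ Finset.range (p - 1), j) * δ + (∑ j ∈ Finset.range (p - 1), j) * δ := by
      have := Finset.sum_range_id_mul_two (p - 1)
      have h4 : (p - 1) ≤ (∑ j ∈ Finset.range (p - 1), j) * 2 := by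
        rw [this]
        calc p - 1 = (p - 1) * 1 := by ring
          _ ≤ (p - 1) * (p - 1 - 1) := Nat.mul_le_mul_left _ (by omega)
      calc (p - 1) * δ ≤ ((∑ j ∈ Finset.range (p - 1), j) * 2) * δ := Nat.mul_le_mul_right _ h4
        _ = _ := by ring
    exact_mod_cast e2
  exact h3.trans (Finset.sum_le_sum fun a _ => h2 a)

theorem mi_arith (r p' δ : ℕ) (hr : 0 < r) (vh vp l lS lT st : ℕ∞)
    (k1 : r * vp + st ≤ lT + 1) (hst : ((p' * δ : ℕ) : ℕ∞) ≤ st)
    (e1 : lS = lT + r * vh) (e3 : lS ≤ r * l + ((p' * δ + (r - 1) : ℕ) : ℕ∞)) :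
    vh + vp ≤ l + 1 := by
  have h1 : (r:ℕ∞) * (vh + vp) + ((p' * δ : ℕ) : ℕ∞) ≤ r * (l + 1) + ((p' * δ : ℕ) : ℕ∞) := by
    calc (r:ℕ∞) * (vh + vp) + ((p' * δ : ℕ) : ℕ∞) ≤ (r:ℕ∞) * (vh + vp) + st := by gcongr
      _ = r * vh + (r * vp + st) := by ring
      _ ≤ r * vh + (lT + 1) := by gcongr
      _ = lS + 1 := by rw [e1]; ring
      _ ≤ r * l + ((p' * δ + (r - 1) : ℕ) : ℕ∞) + 1 := by gcongr
      _ = r * l + ((p' * δ + (r - 1) + 1 : ℕ) : ℕ∞) := by push_cast; ring
      _ = r * l + ((p' * δ + r : ℕ) : ℕ∞) := by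
          congr 2; omega
      _ = _ := by push_cast; ring
  have h2 : (r:ℕ∞) * (vh + vp) ≤ r * (l + 1) := by
    exact (ENat.add_le_add_iff_right (ENat.coe_ne_top _)).mp h1
  have h3 : (r:ℕ∞) ≠ 0 := by exact_mod_cast hr.ne'
  have h4 : (r:ℕ∞) ≠ ⊤ := ENat.coe_ne_top _
  exact (ENat.mul_le_mul_left_iff h3 h4).mp h2

/-- TARGET: the main inequality. -/
theorem MI_main_inequality (p : ℕ) [Fact p.Prime]
    {A R T L : Type} [CommRing A] [Algebra ℤ_[p] A]
    [CommRing R] [IsDomain R] [IsDiscreteValuationRing R] [Algebra ℤ_[p] R]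
    [Algebra.EssFiniteType ℤ_[p] R]
    [CommRing T] [IsDedekindDomain T] [Algebra R T] [Module.Finite R T]
    [Algebra ℤ_[p] T] [IsScalarTower ℤ_[p] R T]
    [Field L] [CharZero L] [Algebra T L] [IsFractionRing T L] [Algebra ℤ_[p] L]
    [IsScalarTower ℤ_[p] T L] [Algebra A T] [IsScalarTower ℤ_[p] A T]
    (hinj : Function.Injective (algebraMap R T))
    (τ : T ≃ₐ[R] T) (hτ : τ ^ p = 1) (hτ1 : τ ≠ 1)
    (hinv : ∀ x : T, τ x = x → x ∈ Set.range (algebraMap R T))
    (hp2 : 2 < p)
    (t : Fin 2 × Fin (p - 1) → A) (ht0 : ∀ i, algebraMap A T (t i) ≠ 0)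
    (htlin : LinearIndependent L (fun i => D ℤ_[p] L (algebraMap T L (algebraMap A T (t i)))))
    (htτ : ∀ (a : Fin 2) (j : ℕ) (hj : j < p - 1) (hj' : j + 1 < p - 1),
      τ (algebraMap A T (t (a, ⟨j, hj⟩))) - algebraMap A T (t (a, ⟨j, hj⟩)) =
        algebraMap A T (t (a, ⟨j + 1, hj'⟩)))
    (z : Fin 2 × Fin (p - 1) → A) (z' : Fin 2 × Fin (p - 1) → R)
    (hz : ∀ i, algebraMap A T (z i) = algebraMap R T (z' i))
    (J : Matrix (Fin 2 × Fin (p - 1)) (Fin 2 × Fin (p - 1)) A)
    (hJ : ∀ i, D ℤ_[p] A (z i) = ∑ j, J i j • D ℤ_[p] A (t j))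
    (h : R) (hh : algebraMap A T J.det = algebraMap R T h) :
    addVal R h + addVal R (p : R) ≤
      Module.length R (Ω[R⁄ℤ_[p]] ⧸
        Submodule.span R (Set.range fun i => D ℤ_[p] R (z' i))) + 1 := by
  have hTf : ¬ IsField T := by
    intro h1
    have : Algebra.IsIntegral R T := inferInstance
    exact IsDiscreteValuationRing.not_isField R ((Algebra.IsIntegral.isField_iff_isField hinj).mpr h1)
  obtain ⟨M, hM⟩ := Ideal.exists_maximal T
  have hMb : M ≠ ⊥ := Ring.ne_bot_of_isMaximal_of_not_isField hM hTf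
  have hMp : M.IsPrime := hM.isPrime
  let S := Localization.AtPrime M
  have hdv : IsDiscreteValuationRing S := IsLocalization.AtPrime.isDiscreteValuationRing_of_dedekind_domain T hMb S
  have hcT : CharZero T := (algebraMap T L).charZero
  have hTS : Function.Injective (algebraMap T S) := IsLocalization.injective S M.primeCompl_le_nonZeroDivisors
  have hcS : CharZero S := charZero_of_injective_algebraMap hTS
  have t1 : IsScalarTower ℤ_[p] R S := by
    apply IsScalarTower.of_algebraMap_eq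
    intro x
    rw [IsScalarTower.algebraMap_apply ℤ_[p] T S, IsScalarTower.algebraMap_apply ℤ_[p] R T, IsScalarTower.algebraMap_apply R T S]
  have eTS : Algebra.EssFiniteType T S := Algebra.EssFiniteType.of_isLocalization S M.primeCompl
  have eRT : Algebra.EssFiniteType R T := inferInstance
  have eRS : Algebra.EssFiniteType R S := Algebra.EssFiniteType.comp R T S
  have eZS : Algebra.EssFiniteType ℤ_[p] S := Algebra.EssFiniteType.comp ℤ_[p] R S
  obtain ⟨r, δ, hr0, hr, hδ, hlen⟩ := K2A (S := S) hinj p (Fact.out) τ hτ hτ1 hinv M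
  -- the map to L
  have hun : ∀ y : M.primeCompl, IsUnit (algebraMap T L y) := by
    intro y
    apply IsUnit.mk0
    intro h0
    have h1 : (y : T) = 0 := (IsFractionRing.injective T L) (by rw [h0, map_zero])
    exact y.2 (by rw [h1]; exact M.zero_mem)
  let φ : S →+* L := IsLocalization.lift (M := M.primeCompl) hun
  have hφ : ∀ x : T, φ (algebraMap T S x) = algebraMap T L x := fun x => IsLocalization.lift_eq hun x
  have hφi : Function.Injective φ := by
    rw [injective_iff_map_eq_zero]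
    intro x hx
    obtain ⟨⟨a, s⟩, rfl⟩ := IsLocalization.mk'_surjective M.primeCompl x
    have h1 : φ (IsLocalization.mk' S a s) * φ (algebraMap T S s) = φ (algebraMap T S a) := by
      rw [← map_mul, IsLocalization.mk'_spec]
    simp only at hx
    rw [hx, zero_mul, hφ] at h1
    have h2 : a = 0 := (IsFractionRing.injective T L) (by rw [← h1, map_zero])
    subst h2
    exact IsLocalization.mk'_zero s
  letI algSL : Algebra S L := φ.toAlgebra
  have t2 : IsScalarTower T S L := IsScalarTower.of_algebraMap_eq fun x => (hφ x).symm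
  have t3 : IsScalarTower ℤ_[p] S L := by
    apply IsScalarTower.of_algebraMap_eq
    intro x
    rw [IsScalarTower.algebraMap_apply ℤ_[p] T L, IsScalarTower.algebraMap_apply ℤ_[p] T S, IsScalarTower.algebraMap_apply T S L]
  have t4 : IsScalarTower ℤ_[p] A S := by
    apply IsScalarTower.of_algebraMap_eq
    intro x
    rw [IsScalarTower.algebraMap_apply ℤ_[p] T S, IsScalarTower.algebraMap_apply ℤ_[p] A T, IsScalarTower.algebraMap_apply A T S]
  let tS : Fin 2 × Fin (p - 1) → S := fun j => algebraMap A S (t j)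
  have hAS : ∀ a : A, algebraMap A S a = algebraMap T S (algebraMap A T a) := fun a => IsScalarTower.algebraMap_apply A T S a
  have htS0 : ∀ j, tS j ≠ 0 := by
    intro j h0
    apply ht0 j
    apply hTS
    rw [← hAS, map_zero]; exact h0
  have hli : LinearIndependent S (fun j => D ℤ_[p] S (tS j)) := by
    apply LinearIndependent.of_comp (KaehlerDifferential.map ℤ_[p] ℤ_[p] S L)
    have e : (KaehlerDifferential.map ℤ_[p] ℤ_[p] S L) ∘ (fun j => D ℤ_[p] S (tS j)) =
        fun i => D ℤ_[p] L (algebraMap T L (algebraMap A T (t i))) := by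
      funext i
      simp only [Function.comp, KaehlerDifferential.map_D]
      congr 1
      show φ (tS i) = _
      rw [← hφ, ← hAS]
    rw [e]
    apply htlin.restrict_scalars
    intro a b hab
    simp only [Algebra.smul_def, mul_one] at hab
    exact hφi hab
  have k1 := K1 p tS htS0 hli
  have hJS : ∀ i, D ℤ_[p] S (algebraMap A S (z i)) = ∑ j, (J.map (algebraMap A S)) i j • D ℤ_[p] S (tS j) := by
    intro i
    have := congrArg (KaehlerDifferential.map ℤ_[p] ℤ_[p] A S) (hJ i)
    rw [KaehlerDifferential.map_D, map_sum] at this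
    rw [this]
    apply Finset.sum_congr rfl
    intro j _
    rw [map_smul, KaehlerDifferential.map_D, Matrix.map_apply, algebraMap_smul]
  have e1 := E1_length_det (fun j => D ℤ_[p] S (tS j)) (fun i => D ℤ_[p] S (algebraMap A S (z i))) (J.map (algebraMap A S)) hli hJS
  have hdet : (J.map (algebraMap A S)).det = algebraMap R S h := by
    have : (J.map (algebraMap A S)).det = algebraMap A S J.det := ((algebraMap A S).map_det J).symm
    rw [this, hAS, hh, ← IsScalarTower.algebraMap_apply R T S]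
  rw [hdet, hr] at e1
  have e3 := E3_length_kaehler_le (R₀ := ℤ_[p]) (R := R) (S := S) r
    (fun T' _ _ _ => E2_length_baseChange r hr0 hr) z'
  have hzz : (fun i => D ℤ_[p] S (algebraMap R S (z' i))) = (fun i => D ℤ_[p] S (algebraMap A S (z i))) := by
    funext i
    rw [hAS, hz, ← IsScalarTower.algebraMap_apply R T S]
  rw [hzz] at e3
  have hst : (((p - 1) * δ : ℕ) : ℕ∞) ≤ ∑ j, addVal S (tS j) := by
    rcases hδ with hδ | hδ
    · subst hδ; simp
    · apply mi_fin_val p δ hp2
      intro a j hj hj'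
      have := hδ (algebraMap A T (t (a, ⟨j, hj⟩)))
      rw [htτ a j hj hj', ← hAS, ← hAS] at this
      exact this
  have hvp : addVal S (p : S) = r * addVal R (p : R) := by
    have := hr (p : R)
    rwa [map_natCast] at this
  rw [hvp] at k1
  exact mi_arith r (p - 1) δ hr0 _ _ _ _ _ _ k1 hst e1 (e3.trans (by gcongr))

end LcP.MI
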