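import Mathlib
import Pool.Agent.Helper142.Lc.Setup
import Pool.Agent.Helper142.Lc.A1
import Pool.Agent.Helper142.Lc.A4p
import Pool.Agent.Helper142.Lc.A6
import Pool.Agent.Helper142.Lc.A7
import Pool.Agent.Helper142.Lc.MI

/-! Helper lemmas for MP_18dec4_ag, part LCR1 (team job 13778). -/

set_option linter.all false

namespace LcP.LCR1

open LcP.A1 LcP.A4p LcP.A6 LcP.A7 LcP.MI
open IsDiscreteValuationRing (addVal)
open IsLocalRing KaehlerDifferential MvPolynomial
open scoped TensorProduct

/-! All theorems before the last one are PROVED ELSEWHERE: leave them as `sorry` and use them.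
Only prove the LAST theorem (TARGET). -/

universe u v w x

/-- the same with abstract fraction fields -/
theorem LCR1_abs (p : ℕ) [Fact p.Prime] (hp : 2 < p)
    {B : Type} [CommRing B] [IsDomain B] [Algebra ℤ_[p] B] [Algebra B (PolyA p)]
    [IsScalarTower ℤ_[p] B (PolyA p)]
    (hinj : Function.Injective (algebraMap B (PolyA p)))
    (hB : ∀ a, a ∈ Set.range (algebraMap B (PolyA p)) ↔ gHom p a = a)
    {K L : Type} [Field K] [Field L] [Algebra B K] [IsFractionRing B K]
    [Algebra (PolyA p) L] [IsFractionRing (PolyA p) L] [Algebra K L] [Algebra B L]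
    [IsScalarTower B K L] [IsScalarTower B (PolyA p) L] [Algebra ℤ_[p] K]
    [IsScalarTower ℤ_[p] B K] [Algebra ℤ_[p] L] [IsScalarTower ℤ_[p] (PolyA p) L]
    [IsScalarTower ℤ_[p] K L]
    (R : Subalgebra B K) [IsDiscreteValuationRing R]
    (hess : Algebra.EssFiniteType ℤ_[p] R)
    (z : Fin 2 × Fin (p - 1) → B) (h : B)
    (hh : algebraMap B (PolyA p) h =
      (Matrix.of fun i j => pderiv j (algebraMap B (PolyA p) (z i))).det) :
    addVal R (algebraMap B R h) + addVal R (algebraMap B R (p : B)) ≤
      Module.length R (Ω[R⁄ℤ_[p]] ⧸ Submodule.span R (Set.range fun i =>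
        D ℤ_[p] R (algebraMap B R (z i)))) + 1 := by
  classical
  have hp0 : p.Prime := Fact.out
  have hAL : Function.Injective (algebraMap (PolyA p) L) := IsFractionRing.injective _ _
  have hKL : Function.Injective (algebraMap K L) := (algebraMap K L).injective
  have hCL : CharZero L := by
    have h1 : Function.Injective (algebraMap ℤ_[p] (PolyA p)) := MvPolynomial.C_injective _ _
    have h2 : Function.Injective (algebraMap ℤ_[p] L) := by
      rw [IsScalarTower.algebraMap_eq ℤ_[p] (PolyA p) L]
      exact hAL.comp h1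
    exact charZero_of_injective_algebraMap h2
  have hCK : CharZero K := (algebraMap K L).charZero
  -- the field extension
  obtain ⟨hfin, σ, hσ1, hσ2, hσ3, hσ4⟩ := A5_fraction_fields' (gHom p) p hp0 (gHom_iterate p)
    (by
      refine ⟨X (0, ⟨0, by omega⟩), ?_⟩
      intro h0
      unfold gHom at h0
      rw [aeval_X] at h0
      unfold gvar at h0
      rw [dif_pos (show (0 : ℕ) + 1 < p - 1 by omega)] at h0
      have h1 : (X (0, ⟨(0 : ℕ) + 1, by omega⟩) : PolyA p) = 0 := by
        have := add_eq_left.1 h0
        exact this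
      exact X_ne_zero _ h1) hinj hB (K := K) (L := L)
  obtain ⟨hint, -, -, -⟩ := A4_fixed_ring' (gHom p) p hp0.pos (gHom_iterate p) hinj hB
  have hFRK : IsFractionRing R K := by
    refine IsFractionRing.of_field (R := R) (K := K) (fun x => ?_)
    obtain ⟨a, b, hb, rfl⟩ := IsFractionRing.div_surjective (A := B) x
    exact ⟨algebraMap B R a, algebraMap B R b, rfl⟩
  have tRKL : IsScalarTower R K L := inferInstance
  have tBRL : IsScalarTower B R L := by
    refine IsScalarTower.of_algebraMap_eq fun b => ?_
    rw [IsScalarTower.algebraMap_apply B K L, IsScalarTower.algebraMap_apply R K L]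
    rfl
  have tZRL : IsScalarTower ℤ_[p] R L := by
    refine IsScalarTower.of_algebraMap_eq fun b => ?_
    rw [IsScalarTower.algebraMap_apply ℤ_[p] K L, IsScalarTower.algebraMap_apply R K L]
    rfl
  obtain ⟨hDed, hFinT, hFrac, hinjRT, τ, hτ1, hτ2, hτ3, hτ4⟩ :=
    A6_integral_closure (R := R) (K := K) (L := L) σ p hσ2 hσ3 hσ4
  -- the map from `A` to `T`
  have hmem : ∀ a : PolyA p, algebraMap (PolyA p) L a ∈ integralClosure R L := by
    intro a
    have h1 : IsIntegral B (algebraMap (PolyA p) L a) := (hint.isIntegral a).algebraMap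
    exact h1.tower_top
  let algAT : Algebra (PolyA p) (integralClosure R L) :=
    ((algebraMap (PolyA p) L).codRestrict (integralClosure R L) hmem).toAlgebra
  have hATL : ∀ a : PolyA p, ((algebraMap (PolyA p) (integralClosure R L) a : integralClosure R L) : L) =
      algebraMap (PolyA p) L a := fun a => rfl
  have tZRT : IsScalarTower ℤ_[p] R (integralClosure R L) := inferInstance
  have tZTL : IsScalarTower ℤ_[p] (integralClosure R L) L := inferInstance
  have tZAT : IsScalarTower ℤ_[p] (PolyA p) (integralClosure R L) := by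
    refine IsScalarTower.of_algebraMap_eq fun b => ?_
    apply Subtype.ext
    rw [hATL, ← IsScalarTower.algebraMap_apply ℤ_[p] (PolyA p) L]
    rfl
  have hATinj : Function.Injective (algebraMap (PolyA p) (integralClosure R L)) := by
    intro x y hxy
    exact hAL (congrArg (fun t : integralClosure R L => (t : L)) hxy)
  have key := MI_main_inequality p (A := PolyA p) (R := R) (T := integralClosure R L) (L := L)
    hinjRT τ hτ2 hτ3 hτ4 hp (fun i => X i)
    (fun i => (map_ne_zero_iff _ hATinj).2 (X_ne_zero i)) ?_ ?_
    (fun i => algebraMap B (PolyA p) (z i)) (fun i => algebraMap B R (z i)) ?_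
    (Matrix.of fun i j => pderiv j (algebraMap B (PolyA p) (z i))) ?_
    (algebraMap B R h) ?_
  · rw [map_natCast]
    exact key
  · exact (A7c_polynomial (R₀ := ℤ_[p]) (ι := Fin 2 × Fin (p - 1)) (L := L)).1
  · intro a j hj hj'
    apply Subtype.ext
    show ((τ (algebraMap (PolyA p) (integralClosure R L) (X (a, ⟨j, hj⟩))) : integralClosure R L) : L) -
      algebraMap (PolyA p) L (X (a, ⟨j, hj⟩)) = algebraMap (PolyA p) L (X (a, ⟨j + 1, hj'⟩))
    rw [hτ1, hATL, hσ1]
    unfold gHom
    rw [aeval_X]
    unfold gvar
    rw [dif_pos hj', map_add]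
    ring
  · intro i
    apply Subtype.ext
    rw [hATL, ← IsScalarTower.algebraMap_apply B (PolyA p) L, IsScalarTower.algebraMap_apply B R L]
    rfl
  · intro i
    exact A7d_expand _
  · rw [← hh]
    apply Subtype.ext
    rw [hATL, ← IsScalarTower.algebraMap_apply B (PolyA p) L, IsScalarTower.algebraMap_apply B R L]
    rfl


/-- TARGET: the main inequality for a divisorial valuation ring `R` of `Frac B`. -/
theorem LCR1 (p : ℕ) [Fact p.Prime] (hp : 2 < p)
    {B : Type} [CommRing B] [IsDomain B] [Algebra ℤ_[p] B] [Algebra B (PolyA p)]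
    [IsScalarTower ℤ_[p] B (PolyA p)]
    (hinj : Function.Injective (algebraMap B (PolyA p)))
    (hB : ∀ a, a ∈ Set.range (algebraMap B (PolyA p)) ↔ gHom p a = a)
    (R : Subalgebra B (FractionRing B)) [IsDiscreteValuationRing R]
    (hess : Algebra.EssFiniteType ℤ_[p] R)
    (z : Fin 2 × Fin (p - 1) → B) (h : B)
    (hh : algebraMap B (PolyA p) h =
      (Matrix.of fun i j => pderiv j (algebraMap B (PolyA p) (z i))).det) :
    addVal R (algebraMap B R h) + addVal R (algebraMap B R (p : B)) ≤
      Module.length R (Ω[R⁄ℤ_[p]] ⧸ Submodule.span R (Set.range fun i =>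
        D ℤ_[p] R (algebraMap B R (z i)))) + 1 := by
  have hAL : Function.Injective (algebraMap (PolyA p) (FractionRing (PolyA p))) :=
    IsFractionRing.injective _ _
  have hBLeq : ∀ b : B, algebraMap B (FractionRing (PolyA p)) b =
      algebraMap (PolyA p) (FractionRing (PolyA p)) (algebraMap B (PolyA p) b) := fun b => rfl
  have hBL : Function.Injective (algebraMap B (FractionRing (PolyA p))) := by
    intro x y hxy
    rw [hBLeq, hBLeq] at hxy
    exact hinj (hAL hxy)
  have : FaithfulSMul B (FractionRing (PolyA p)) := (faithfulSMul_iff_algebraMap_injective _ _).2 hBL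
  let algKL : Algebra (FractionRing B) (FractionRing (PolyA p)) :=
    FractionRing.liftAlgebra B (FractionRing (PolyA p))
  have tBKL : IsScalarTower B (FractionRing B) (FractionRing (PolyA p)) :=
    FractionRing.isScalarTower_liftAlgebra B (FractionRing (PolyA p))
  have tBAL : IsScalarTower B (PolyA p) (FractionRing (PolyA p)) := inferInstance
  have tZKL : IsScalarTower ℤ_[p] (FractionRing B) (FractionRing (PolyA p)) := by
    refine IsScalarTower.of_algebraMap_eq fun b => ?_
    rw [IsScalarTower.algebraMap_apply ℤ_[p] B (FractionRing B),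
      ← IsScalarTower.algebraMap_apply B (FractionRing B) (FractionRing (PolyA p)),
      IsScalarTower.algebraMap_apply B (PolyA p) (FractionRing (PolyA p)),
      ← IsScalarTower.algebraMap_apply ℤ_[p] B (PolyA p),
      ← IsScalarTower.algebraMap_apply ℤ_[p] (PolyA p) (FractionRing (PolyA p))]
  exact LCR1_abs p hp hinj hB (K := FractionRing B) (L := FractionRing (PolyA p)) R hess z h hh

end LcP.LCR1
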