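import Mathlib
import Pool.Agent.Helper142.Lc.Setup
import Pool.Agent.Helper142.Lc.A1
import Pool.Agent.Helper142.Lc.A4p
import Pool.Agent.Helper142.Lc.A6
import Pool.Agent.Helper142.Lc.A7
import Pool.Agent.Helper142.Lc.K4T
import Pool.Agent.Helper142.Lc.K4b

/-! Helper lemmas for MP_18dec4_ag, part LCR2 (team job 13779). -/

set_option linter.all false

namespace LcP.LCR2

open LcP.A1 LcP.A4p LcP.A6 LcP.A7 LcP.K4T LcP.K4b
open IsDiscreteValuationRing (addVal)
open IsLocalRing KaehlerDifferential MvPolynomial
open scoped TensorProduct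

/-! All theorems before the last one are PROVED ELSEWHERE: leave them as `sorry` and use them.
Only prove the LAST theorem (TARGET). -/

universe u v w x

theorem LCR2_aux (p : ℕ) [Fact p.Prime] (hp : 2 < p)
    {B : Type} [CommRing B] [IsDomain B] [Algebra ℤ_[p] B] [Algebra B (PolyA p)]
    [IsScalarTower ℤ_[p] B (PolyA p)]
    (hinj : Function.Injective (algebraMap B (PolyA p)))
    (hB : ∀ a, a ∈ Set.range (algebraMap B (PolyA p)) ↔ gHom p a = a)
    {K L R : Type} [Field K] [CharZero K] [Algebra B K] [IsFractionRing B K] [Field L] [CharZero L]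
    [Algebra (PolyA p) L] [IsFractionRing (PolyA p) L] [Algebra K L] [Algebra B L]
    [IsScalarTower B K L] [IsScalarTower B (PolyA p) L] [Algebra ℤ_[p] L]
    [IsScalarTower ℤ_[p] (PolyA p) L]
    [CommRing R] [IsDomain R] [IsDiscreteValuationRing R] [Algebra ℤ_[p] R]
    [Algebra.EssFiniteType ℤ_[p] R] [Algebra B R] [Algebra R K] [IsFractionRing R K]
    [IsScalarTower B R K] [Algebra R L] [IsScalarTower R K L] [IsScalarTower ℤ_[p] R L]
    (z : Fin 2 × Fin (p - 1) → B) (h : B)
    (hh : algebraMap B (PolyA p) h =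
      (Matrix.of fun i j => pderiv j (algebraMap B (PolyA p) (z i))).det)
    (hht : ((maximalIdeal R).comap (algebraMap B R)).height = 1) :
    Module.length R (Ω[R⁄ℤ_[p]] ⧸ Submodule.span R (Set.range fun i =>
        D ℤ_[p] R (algebraMap B R (z i)))) = addVal R (algebraMap B R h) := by
  have hpp : p.Prime := Fact.out
  have hBL : ∀ b, algebraMap R L (algebraMap B R b) = algebraMap (PolyA p) L (algebraMap B (PolyA p) b) := by
    intro b
    rw [IsScalarTower.algebraMap_apply R K L, ← IsScalarTower.algebraMap_apply B R K,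
      ← IsScalarTower.algebraMap_apply B K L, IsScalarTower.algebraMap_apply B (PolyA p) L]
  haveI hBRL : IsScalarTower B R L := by
    apply IsScalarTower.of_algebraMap_eq
    intro b
    rw [hBL, IsScalarTower.algebraMap_apply B (PolyA p) L]
  obtain ⟨hint, hft, -, -⟩ := A4_fixed_ring' (R₀ := ℤ_[p]) (gHom p) p hpp.pos (gHom_iterate p) hinj hB
  have hgX : ∀ (a : Fin 2) (j : ℕ) (hj : j < p - 1) (hj1 : j + 1 < p - 1),
      gHom p (X (a, ⟨j, hj⟩)) = X (a, ⟨j, hj⟩) + X (a, ⟨j + 1, hj1⟩) := by
    intro a j hj hj1
    unfold gHom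
    rw [aeval_X]
    unfold gvar
    rw [dif_pos hj1]
  have hg1 : ∃ x, gHom p x ≠ x := by
    refine ⟨X (0, ⟨0, by omega⟩), ?_⟩
    rw [hgX 0 0 (by omega) (by omega)]
    intro hc
    have h1 : (X (0, ⟨0 + 1, by omega⟩) : PolyA p) = 0 := by
      have := sub_eq_zero.2 hc
      rwa [add_sub_cancel_left] at this
    exact X_ne_zero _ h1
  obtain ⟨hfd, σ, hσ, hσp, hσ1, hσK⟩ := A5_fraction_fields' (gHom p) p hpp (gHom_iterate p) hg1 hinj hB
    (K := K) (L := L)
  obtain ⟨hded, hfin, hfr, hinjRT, τ, hτ, hτp, hτ1, hτR⟩ :=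
    A6_integral_closure (R := R) (K := K) (L := L) σ p hσp hσ1 hσK
  have hmemT : ∀ a : PolyA p, algebraMap (PolyA p) L a ∈ integralClosure R L := by
    intro a
    have h1 : IsIntegral B a := hint.isIntegral a
    have h2 : IsIntegral B (algebraMap (PolyA p) L a) := h1.algebraMap
    exact h2.tower_top
  let φ : PolyA p →+* integralClosure R L :=
    (algebraMap (PolyA p) L).codRestrict (integralClosure R L) hmemT
  letI algAT : Algebra (PolyA p) (integralClosure R L) := φ.toAlgebra
  have hφ : ∀ a, ((algebraMap (PolyA p) (integralClosure R L) a : integralClosure R L) : L) =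
      algebraMap (PolyA p) L a := fun a => rfl
  haveI hATL : IsScalarTower (PolyA p) (integralClosure R L) L :=
    IsScalarTower.of_algebraMap_eq (fun x => rfl)
  haveI hZAT : IsScalarTower ℤ_[p] (PolyA p) (integralClosure R L) := by
    apply IsScalarTower.of_algebraMap_eq
    intro x
    apply Subtype.ext
    rw [hφ, ← IsScalarTower.algebraMap_apply ℤ_[p] (PolyA p) L]
    rfl
  have hBT : ∀ b, algebraMap (PolyA p) (integralClosure R L) (algebraMap B (PolyA p) b) =
      algebraMap R (integralClosure R L) (algebraMap B R b) := by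
    intro b
    apply Subtype.ext
    rw [hφ, ← hBL]
    rfl
  obtain ⟨M, hM⟩ := Ideal.exists_maximal (integralClosure R L)
  haveI := hM
  have hMR : M.comap (algebraMap R (integralClosure R L)) = maximalIdeal R :=
    eq_maximalIdeal (Ideal.isMaximal_comap_of_isIntegral_of_isMaximal M)
  have hQ : ((M.comap (algebraMap (PolyA p) (integralClosure R L))).comap
      (algebraMap B (PolyA p))).height = 1 := by
    rw [← hht]
    congr 1
    ext b
    rw [← hMR]
    simp only [Ideal.mem_comap]
    rw [hBT]
  haveI hQp : (M.comap (algebraMap (PolyA p) (integralClosure R L))).IsPrime := Ideal.comap_isPrime _ _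
  obtain ⟨π, hπ, hQπ⟩ := K4h_height_one hinj (M.comap (algebraMap (PolyA p) (integralClosure R L))) hQ
  have hτA : ∀ a : PolyA p, τ (algebraMap (PolyA p) (integralClosure R L) a) =
      algebraMap (PolyA p) (integralClosure R L) (gHom p a) := by
    intro a
    apply Subtype.ext
    rw [hτ, hφ, hφ, hσ]
  have hx₀ : ∃ x₀ : integralClosure R L, τ x₀ - x₀ ∉ M := by
    by_contra hall
    push Not at hall
    have hXm : ∀ a : Fin 2, π ∣ (X (a, ⟨p - 3 + 1, by omega⟩) : PolyA p) := by
      intro a
      rw [← Ideal.mem_span_singleton, ← hQπ, Ideal.mem_comap]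
      have h1 := hall (algebraMap (PolyA p) (integralClosure R L) (X (a, ⟨p - 3, by omega⟩)))
      rw [hτA, hgX a (p - 3) (by omega) (by omega), map_add, add_sub_cancel_left] at h1
      exact h1
    have h0 := hπ.associated_of_dvd (X_prime (i := ((0 : Fin 2), (⟨p - 3 + 1, by omega⟩ : Fin (p - 1)))) (R := ℤ_[p])) (hXm 0)
    have h1 := hXm 1
    rw [h0.dvd_iff_dvd_left, X_dvd_X] at h1
    have := congrArg Prod.fst h1
    simp at this
  obtain ⟨x₀, hx₀⟩ := hx₀
  have hloc := K4b_fractions (A := PolyA p) (T := integralClosure R L) (L := L)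
    (Subtype.val_injective) M π hπ hQπ
  refine K4T_codim_one p (A := PolyA p) (R := R) (T := integralClosure R L) (L := L) hinjRT τ hτp hτ1 hτR
    M x₀ hx₀ (fun i => X i) ?_ ?_ hloc (fun i => algebraMap B (PolyA p) (z i))
    (fun i => algebraMap B R (z i)) (fun i => hBT (z i))
    (Matrix.of fun i j => pderiv j (algebraMap B (PolyA p) (z i))) ?_ (algebraMap B R h) ?_
  · exact (A7c_polynomial (R₀ := ℤ_[p]) (ι := Fin 2 × Fin (p - 1)) (L := L)).1
  · intro a
    rw [A7d_expand]
    apply Submodule.sum_mem
    intro j _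
    exact Submodule.smul_mem _ _ (Submodule.subset_span ⟨j, rfl⟩)
  · intro i
    rw [A7d_expand]
    rfl
  · rw [← hh, hBT]

/-- TARGET: exactness for a divisorial valuation ring `R` of `Frac B` with centre of height one. -/
theorem LCR2 (p : ℕ) [Fact p.Prime] (hp : 2 < p)
    {B : Type} [CommRing B] [IsDomain B] [Algebra ℤ_[p] B] [Algebra B (PolyA p)]
    [IsScalarTower ℤ_[p] B (PolyA p)]
    (hinj : Function.Injective (algebraMap B (PolyA p)))
    (hB : ∀ a, a ∈ Set.range (algebraMap B (PolyA p)) ↔ gHom p a = a)
    (R : Subalgebra B (FractionRing B)) [IsDiscreteValuationRing R]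
    (hess : Algebra.EssFiniteType ℤ_[p] R)
    (z : Fin 2 × Fin (p - 1) → B) (h : B)
    (hh : algebraMap B (PolyA p) h =
      (Matrix.of fun i j => pderiv j (algebraMap B (PolyA p) (z i))).det)
    (hht : ((maximalIdeal R).comap (algebraMap B R)).height = 1) :
    Module.length R (Ω[R⁄ℤ_[p]] ⧸ Submodule.span R (Set.range fun i =>
        D ℤ_[p] R (algebraMap B R (z i)))) = addVal R (algebraMap B R h) := by
  have hZinj : Function.Injective (algebraMap ℤ_[p] (PolyA p)) := MvPolynomial.C_injective _ _
  haveI hBA : FaithfulSMul B (PolyA p) := (faithfulSMul_iff_algebraMap_injective _ _).2 hinj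
  have hBLinj : Function.Injective (algebraMap B (FractionRing (PolyA p))) := by
    rw [IsScalarTower.algebraMap_eq B (PolyA p) (FractionRing (PolyA p))]
    exact (IsFractionRing.injective (PolyA p) (FractionRing (PolyA p))).comp hinj
  haveI hBLf : FaithfulSMul B (FractionRing (PolyA p)) := (faithfulSMul_iff_algebraMap_injective _ _).2 hBLinj
  letI algKL : Algebra (FractionRing B) (FractionRing (PolyA p)) :=
    FractionRing.liftAlgebra B (FractionRing (PolyA p))
  haveI hBKL : IsScalarTower B (FractionRing B) (FractionRing (PolyA p)) :=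
    FractionRing.isScalarTower_liftAlgebra B (FractionRing (PolyA p))
  haveI hcL : CharZero (FractionRing (PolyA p)) := by
    haveI : CharZero (PolyA p) := charZero_of_injective_algebraMap hZinj
    exact charZero_of_injective_algebraMap (IsFractionRing.injective (PolyA p) (FractionRing (PolyA p)))
  haveI hcK : CharZero (FractionRing B) := by
    haveI : CharZero B := by
      have h1 : Function.Injective (algebraMap ℤ_[p] B) := by
        have h2 : Function.Injective ((algebraMap B (PolyA p)).comp (algebraMap ℤ_[p] B)) := by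
          rw [← IsScalarTower.algebraMap_eq]
          exact hZinj
        exact Function.Injective.of_comp h2
      exact charZero_of_injective_algebraMap h1
    exact charZero_of_injective_algebraMap (IsFractionRing.injective B (FractionRing B))
  haveI hRK : IsFractionRing R (FractionRing B) := by
    refine ⟨?_, ?_, ?_⟩
    · rintro ⟨y, hy⟩
      have hy0 : y ≠ 0 := nonZeroDivisors.ne_zero hy
      refine IsUnit.mk0 _ ?_
      intro hc
      exact hy0 (Subtype.ext hc)
    · intro x
      obtain ⟨a, b, hb, rfl⟩ := IsFractionRing.div_surjective (A := B) x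
      have hb0 : b ≠ 0 := nonZeroDivisors.ne_zero hb
      have hbK : algebraMap B (FractionRing B) b ≠ 0 := by
        intro hc
        exact hb0 ((IsFractionRing.injective B (FractionRing B)) (by rw [hc, map_zero]))
      refine ⟨(algebraMap B R a, ⟨algebraMap B R b, ?_⟩), ?_⟩
      · rw [mem_nonZeroDivisors_iff_ne_zero]
        intro hc
        apply hbK
        exact congrArg Subtype.val hc
      · show algebraMap B (FractionRing B) a / algebraMap B (FractionRing B) b *
          algebraMap B (FractionRing B) b = algebraMap B (FractionRing B) a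
        exact div_mul_cancel₀ _ hbK
    · intro x y hxy
      exact ⟨1, by rw [Subtype.ext hxy]⟩
  haveI hRKL : IsScalarTower R (FractionRing B) (FractionRing (PolyA p)) :=
    IsScalarTower.of_algebraMap_eq (fun x => rfl)
  haveI hZRL : IsScalarTower ℤ_[p] R (FractionRing (PolyA p)) := by
    apply IsScalarTower.of_algebraMap_eq
    intro x
    have h1 : algebraMap R (FractionRing (PolyA p)) (algebraMap ℤ_[p] R x) =
        algebraMap (FractionRing B) (FractionRing (PolyA p)) (algebraMap ℤ_[p] (FractionRing B) x) := rfl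
    rw [h1, IsScalarTower.algebraMap_apply ℤ_[p] B (FractionRing B),
      ← IsScalarTower.algebraMap_apply B (FractionRing B) (FractionRing (PolyA p)),
      IsScalarTower.algebraMap_apply B (PolyA p) (FractionRing (PolyA p)),
      ← IsScalarTower.algebraMap_apply ℤ_[p] B (PolyA p),
      ← IsScalarTower.algebraMap_apply ℤ_[p] (PolyA p) (FractionRing (PolyA p))]
  exact LCR2_aux p hp hinj hB (K := FractionRing B) (L := FractionRing (PolyA p)) (R := R) z h hh hht

end LcP.LCR2
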