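import Mathlib
import Pool.Agent.Helper142.Lc.Defs
import Pool.Agent.Helper142.Lc.Setup
import Pool.Agent.Helper142.Lc.A1
import Pool.Agent.Helper142.Lc.A4p
import Pool.Agent.Helper142.Lc.A7
import Pool.Agent.Helper142.Lc.E5
import Pool.Agent.Helper142.Lc.A3
import Pool.Agent.Helper142.Lc.LCR1
import Pool.Agent.Helper142.Lc.LCR2

/-! Helper lemmas for MP_18dec4_ag, part LC (team job 13915). -/

set_option linter.all false

namespace LcP.LC

open LcP.A1 LcP.A4p LcP.A7 LcP.E5 LcP.A3 LcP.LCR1 LcP.LCR2
open IsDiscreteValuationRing (addVal)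
open IsLocalRing KaehlerDifferential MvPolynomial
open scoped TensorProduct

/-! All theorems before the last one are PROVED ELSEWHERE: leave them as `sorry` and use them.
Only prove the LAST theorem (TARGET). -/

universe u v w x

variable (p : ℕ) [Fact p.Prime] (B : Type) [CommRing B] [IsDomain B] [Algebra ℤ_[p] B]

theorem lcf_exists_h (p : ℕ) [Fact p.Prime] (hp : 2 < p)
    {B : Type} [CommRing B] [IsDomain B] [Algebra ℤ_[p] B] [Algebra B (PolyA p)]
    [IsScalarTower ℤ_[p] B (PolyA p)]
    (hinj : Function.Injective (algebraMap B (PolyA p)))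
    (hB : ∀ a, a ∈ Set.range (algebraMap B (PolyA p)) ↔ gHom p a = a)
    {K L : Type} [Field K] [Field L] [CharZero K] [Algebra B K] [IsFractionRing B K]
    [Algebra (PolyA p) L] [IsFractionRing (PolyA p) L] [Algebra K L]
    [FiniteDimensional K L]
    [Algebra B L] [IsScalarTower B K L] [IsScalarTower B (PolyA p) L]
    [Algebra ℤ_[p] K] [IsScalarTower ℤ_[p] B K]
    [Algebra ℤ_[p] L] [IsScalarTower ℤ_[p] K L] [IsScalarTower ℤ_[p] (PolyA p) L]
    {n : ℕ} (z : Fin n → B)
    (h1 : LinearIndependent K (fun i => D ℤ_[p] K (algebraMap B K (z i))))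
    (h2 : Submodule.span K (Set.range fun i => D ℤ_[p] K (algebraMap B K (z i))) = ⊤) :
    ∃ (e : Fin 2 × Fin (p - 1) ≃ Fin n) (h : B), h ≠ 0 ∧
      algebraMap B (PolyA p) h =
        (Matrix.of fun i j => pderiv j (algebraMap B (PolyA p) (z (e i)))).det := by
  classical
  obtain ⟨l1, s1⟩ := A7b_extend (R₀ := ℤ_[p]) (L := L) (fun i => algebraMap B K (z i)) h1 h2
  obtain ⟨l2, s2⟩ := A7c_polynomial (R₀ := ℤ_[p]) (ι := Fin 2 × Fin (p - 1)) (L := L)
  let b1 : Module.Basis (Fin n) L (Ω[L⁄ℤ_[p]]) := Module.Basis.mk l1 s1.ge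
  let b2 : Module.Basis (Fin 2 × Fin (p - 1)) L (Ω[L⁄ℤ_[p]]) := Module.Basis.mk l2 s2.ge
  let e : Fin 2 × Fin (p - 1) ≃ Fin n := b2.indexEquiv b1
  set J : Matrix (Fin 2 × Fin (p - 1)) (Fin 2 × Fin (p - 1)) (PolyA p) :=
    Matrix.of fun i j => pderiv j (algebraMap B (PolyA p) (z (e i))) with hJ
  have hfix : ∀ b : B, gHom p (algebraMap B (PolyA p) b) = algebraMap B (PolyA p) b :=
    fun b => (hB _).1 ⟨b, rfl⟩
  have hdet := A3_det_invariant p hp (fun i => algebraMap B (PolyA p) (z (e i)))
    (fun i => hfix _)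
  obtain ⟨h, hh⟩ := (hB _).2 hdet
  refine ⟨e, h, ?_, hh⟩
  rintro rfl
  rw [map_zero] at hh
  have hJdet : (J.map (algebraMap (PolyA p) L)).det = 0 := by
    have := RingHom.map_det (algebraMap (PolyA p) L) J
    rw [RingHom.mapMatrix_apply] at this
    rw [← this, hJ, ← hh, map_zero]
  obtain ⟨c, hc0, hc⟩ := Matrix.exists_vecMul_eq_zero_iff.2 hJdet
  have hexp : ∀ i, D ℤ_[p] L (algebraMap K L (algebraMap B K (z (e i)))) =
      ∑ j, algebraMap (PolyA p) L (J i j) • D ℤ_[p] L (algebraMap (PolyA p) L (X j)) := by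
    intro i
    have h7 := A7d_expand (R₀ := ℤ_[p]) (algebraMap B (PolyA p) (z (e i)))
    have h8 := congrArg (KaehlerDifferential.map ℤ_[p] ℤ_[p] (PolyA p) L) h7
    rw [map_sum, KaehlerDifferential.map_D, ← IsScalarTower.algebraMap_apply B (PolyA p) L,
      IsScalarTower.algebraMap_apply B K L] at h8
    rw [h8]
    refine Finset.sum_congr rfl fun j _ => ?_
    rw [map_smul, KaehlerDifferential.map_D, algebraMap_smul, hJ, Matrix.of_apply]
  have hlin : LinearIndependent L (fun i : Fin 2 × Fin (p - 1) =>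
      D ℤ_[p] L (algebraMap K L (algebraMap B K (z (e i))))) := l1.comp e e.injective
  apply hc0
  rw [Fintype.linearIndependent_iff] at hlin
  funext i
  refine hlin c ?_ i
  simp only [hexp, Finset.smul_sum, smul_smul]
  rw [Finset.sum_comm]
  apply Finset.sum_eq_zero
  intro j _
  rw [← Finset.sum_smul]
  have := congrFun hc j
  simp only [Matrix.vecMul, dotProduct, Matrix.map_apply, Pi.zero_apply] at this
  rw [this, zero_smul]

theorem lcf_isFractionRing {B : Type} [CommRing B] [IsDomain B]
    (R : Subalgebra B (FractionRing B)) : IsFractionRing R (FractionRing B) := by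
  have : FaithfulSMul R (FractionRing B) :=
    (faithfulSMul_iff_algebraMap_injective _ _).2 Subtype.val_injective
  apply IsFractionRing.of_field
  intro x
  obtain ⟨a, b, hb, rfl⟩ := IsFractionRing.div_surjective (A := B) x
  exact ⟨algebraMap B R a, algebraMap B R b, rfl⟩

theorem lcf_key (p : ℕ) [Fact p.Prime] (hp : 2 < p)
    {B : Type} [CommRing B] [IsDomain B] [Algebra ℤ_[p] B] [Algebra B (PolyA p)]
    [IsScalarTower ℤ_[p] B (PolyA p)]
    (hinj : Function.Injective (algebraMap B (PolyA p)))
    (hB : ∀ a, a ∈ Set.range (algebraMap B (PolyA p)) ↔ gHom p a = a)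
    {n : ℕ} (z : Fin n → B) (hz : IsReference p B z) :
    ∃ h : B, h ≠ 0 ∧ ∀ (R : Subalgebra B (FractionRing B)) [IsDiscreteValuationRing R],
      Algebra.EssFiniteType ℤ_[p] R → formOrder p B R z ≠ ⊤ ∧
        addVal R (algebraMap B R h) + addVal R (algebraMap B R (p : B)) ≤
          formOrder p B R z + 1 ∧
        ((centre B R).height = 1 → formOrder p B R z = addVal R (algebraMap B R h)) := by
  classical
  have hinjL : Function.Injective (algebraMap B (FractionRing (PolyA p))) := by
    rw [IsScalarTower.algebraMap_eq B (PolyA p) (FractionRing (PolyA p))]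
    exact (IsFractionRing.injective (PolyA p) (FractionRing (PolyA p))).comp hinj
  have : FaithfulSMul B (FractionRing (PolyA p)) :=
    (faithfulSMul_iff_algebraMap_injective _ _).2 hinjL
  letI : Algebra (FractionRing B) (FractionRing (PolyA p)) :=
    FractionRing.liftAlgebra B (FractionRing (PolyA p))
  have : IsScalarTower B (FractionRing B) (FractionRing (PolyA p)) :=
    FractionRing.isScalarTower_liftAlgebra B (FractionRing (PolyA p))
  have : IsScalarTower ℤ_[p] (FractionRing B) (FractionRing (PolyA p)) := by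
    apply IsScalarTower.of_algebraMap_eq
    intro r
    rw [IsScalarTower.algebraMap_apply ℤ_[p] B (FractionRing B),
      ← IsScalarTower.algebraMap_apply B (FractionRing B) (FractionRing (PolyA p)),
      IsScalarTower.algebraMap_apply B (PolyA p) (FractionRing (PolyA p)),
      ← IsScalarTower.algebraMap_apply ℤ_[p] B (PolyA p),
      ← IsScalarTower.algebraMap_apply ℤ_[p] (PolyA p) (FractionRing (PolyA p))]
  have hg1 : ∃ x, gHom p x ≠ x := by
    refine ⟨X (0, ⟨0, by omega⟩), ?_⟩
    rw [gHom, aeval_X, gvar, dif_pos (by simp; omega)]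
    intro hcon
    rw [add_eq_left] at hcon
    exact X_ne_zero _ hcon
  obtain ⟨hfd, -⟩ := A5_fraction_fields' (gHom p) p Fact.out (gHom_iterate p) hg1 hinj hB
    (K := FractionRing B) (L := FractionRing (PolyA p))
  have hCB : CharZero B := by
    constructor
    intro a b hab
    have := congrArg (algebraMap B (PolyA p)) hab
    rw [map_natCast, map_natCast] at this
    exact_mod_cast this
  have hCK : CharZero (FractionRing B) :=
    charZero_of_injective_algebraMap (IsFractionRing.injective B (FractionRing B))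
  obtain ⟨e, h, hh0, hh⟩ := lcf_exists_h p hp hinj hB (K := FractionRing B)
    (L := FractionRing (PolyA p)) z hz.1 hz.2
  refine ⟨h, hh0, ?_⟩
  intro R hR hess
  have hfr := lcf_isFractionRing R
  have hrange : (Set.range fun i => D ℤ_[p] R (algebraMap B R (z i))) =
      Set.range fun i => D ℤ_[p] R (algebraMap B R (z (e i))) :=
    (e.surjective.range_comp fun i => D ℤ_[p] R (algebraMap B R (z i))).symm
  refine ⟨?_, ?_, ?_⟩
  · exact E5_length_ne_top (K := FractionRing B) (fun i => algebraMap B R (z i)) hz.2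
  · have := LCR1 p hp hinj hB R hess (fun i => z (e i)) h hh
    rw [formOrder, hrange]
    exact this
  · intro hht
    have := LCR2 p hp hinj hB R hess (fun i => z (e i)) h hh hht
    rw [formOrder, hrange]
    exact this

/-- TARGET: `(X, X_p)` is log canonical for `X = Spec B`. -/
theorem LC_final (p : ℕ) [Fact p.Prime] (hp : 2 < p)
    {B : Type} [CommRing B] [IsDomain B] [Algebra ℤ_[p] B] [Algebra B (PolyA p)]
    [IsScalarTower ℤ_[p] B (PolyA p)]
    (hinj : Function.Injective (algebraMap B (PolyA p)))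
    (hB : ∀ a, a ∈ Set.range (algebraMap B (PolyA p)) ↔ gHom p a = a) :
    IsLogCanonicalPairAux p B := by
  classical
  have hCB : CharZero B := by
    constructor
    intro a b hab
    have := congrArg (algebraMap B (PolyA p)) hab
    rw [map_natCast, map_natCast] at this
    exact_mod_cast this
  obtain ⟨-, hft, -⟩ := A4_fixed_ring' (gHom p) p (by omega) (gHom_iterate p) hinj hB
  have hess1 : Algebra.EssFiniteType ℤ_[p] B := Algebra.EssFiniteType.of_finiteType ℤ_[p] B
  have hess2 : Algebra.EssFiniteType ℤ_[p] (FractionRing B) := by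
    have : Algebra.EssFiniteType B (FractionRing B) :=
      Algebra.EssFiniteType.of_isLocalization _ (nonZeroDivisors B)
    exact Algebra.EssFiniteType.comp ℤ_[p] B (FractionRing B)
  have hex : ∃ (n : ℕ) (z : Fin n → B), IsReference p B z :=
    A7a_exists (R₀ := ℤ_[p]) (B := B) (K := FractionRing B)
  refine ⟨hex, ?_, ?_⟩
  · intro R hR hess hht
    obtain ⟨n, z, hz⟩ := hex
    obtain ⟨h, hh0, hkey⟩ := lcf_key p hp hinj hB z hz
    obtain ⟨k1, k2, k3⟩ := hkey R hess
    have k4 := k3 hht
    rw [k4] at k1 k2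
    rwa [ENat.add_le_add_iff_left k1] at k2
  · intro n z hz
    obtain ⟨h, hh0, hkey⟩ := lcf_key p hp hinj hB z hz
    refine ⟨1, one_pos, ?_⟩
    intro x
    have hp0 : (p : B) ≠ 0 := by
      exact_mod_cast (Fact.out : p.Prime).ne_zero
    refine ⟨(p : B) * h, 1, mul_ne_zero hp0 hh0, one_ne_zero, ?_, ?_⟩
    · intro R hR hess hht _
      obtain ⟨k1, k2, k3⟩ := hkey R hess
      have k4 := k3 hht
      obtain ⟨k, hk⟩ := ENat.ne_top_iff_exists.1 k1
      refine ⟨k, hk.symm, ?_⟩
      rw [map_one, IsDiscreteValuationRing.addVal_one, map_mul,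
        IsDiscreteValuationRing.addVal_mul, ← k4, ← hk, Nat.cast_one, one_mul, zero_add, add_comm]
    · intro R hR hess hht _
      obtain ⟨k1, k2, k3⟩ := hkey R hess
      obtain ⟨k, hk⟩ := ENat.ne_top_iff_exists.1 k1
      refine ⟨k, hk.symm, ?_⟩
      rw [map_one, IsDiscreteValuationRing.addVal_one, map_mul,
        IsDiscreteValuationRing.addVal_mul, Nat.cast_one, one_mul, zero_add, add_comm, hk]
      exact k2

end LcP.LC
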