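import Mathlib
import Pool.Agent.Helper142.Lc.Defs

/-! Helper lemmas for MP_18dec4_ag, part S1 (team job 13365). -/

set_option linter.all false

namespace LcP.S1

open IsLocalRing

theorem S1_not_S2 {C E : Type*} [CommRing C] [IsNoetherianRing C] [IsDomain C]
    [CommRing E] [IsDomain E] [Algebra C E] (hinj : Function.Injective (algebraMap C E))
    (c' : E) (hc' : c' ∉ Set.range (algebraMap C E)) (I : Ideal C)
    (hI : ∀ x ∈ I, algebraMap C E x * c' ∈ Set.range (algebraMap C E))
    (hdim : ∀ z : PrimeSpectrum C, I ≤ z.asIdeal → 2 ≤ z.asIdeal.height) :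
    ¬ IsS2 C := by
  intro hS2
  let N : Submodule C E := LinearMap.range (Algebra.linearMap C E)
  have hNmem : ∀ e : E, e ∈ N ↔ e ∈ Set.range (algebraMap C E) := by
    intro e
    constructor
    · rintro ⟨a, ha⟩
      exact ⟨a, ha⟩
    · rintro ⟨a, ha⟩
      exact ⟨a, ha⟩
  have hx0 : (Submodule.Quotient.mk c' : E ⧸ N) ≠ 0 := by
    intro h
    rw [Submodule.Quotient.mk_eq_zero] at h
    exact hc' ((hNmem _).1 h)
  obtain ⟨P, hP, hle⟩ := exists_le_isAssociatedPrime_of_isNoetherianRing C _ hx0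
  rw [isAssociatedPrime_iff] at hP
  obtain ⟨hPp, m, hm⟩ := hP
  obtain ⟨e, rfl⟩ := Submodule.Quotient.mk_surjective N m
  have hzP : ∀ a : C, a ∈ P ↔ algebraMap C E a * e ∈ Set.range (algebraMap C E) := by
    intro a
    rw [hm, Submodule.mem_colon_singleton, Submodule.mem_bot, ← Submodule.Quotient.mk_smul,
      Submodule.Quotient.mk_eq_zero, hNmem, Algebra.smul_def]
  have hIP : I ≤ P := by
    intro a ha
    apply hle
    rw [Submodule.mem_colon_singleton, Submodule.mem_bot, ← Submodule.Quotient.mk_smul,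
      Submodule.Quotient.mk_eq_zero, hNmem, Algebra.smul_def]
    exact hI a ha
  have hht := hdim ⟨P, hPp⟩ hIP
  have hkd : ((2:ℕ) : WithBot ℕ∞) ≤ ringKrullDim (Localization.AtPrime P) := by
    rw [IsLocalization.AtPrime.ringKrullDim_eq_height P (Localization.AtPrime P)]
    have hht' : ((2:ℕ) : ℕ∞) ≤ P.height := hht
    exact WithBot.coe_le_coe.2 hht'
  have hS := hS2 ⟨P, hPp⟩ 2 le_rfl hkd
  change ∃ rs : List (Localization.AtPrime P), rs.length = 2 ∧
      (∀ r ∈ rs, r ∈ maximalIdeal (Localization.AtPrime P)) ∧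
      RingTheory.Sequence.IsRegular (Localization.AtPrime P) rs at hS
  obtain ⟨rs, hlen, hmax, hreg⟩ := hS
  obtain ⟨r, s, rfl⟩ : ∃ r s, rs = [r, s] := List.length_eq_two.1 hlen
  have hr : r ∈ maximalIdeal (Localization.AtPrime P) := hmax r (by simp)
  have hs : s ∈ maximalIdeal (Localization.AtPrime P) := hmax s (by simp)
  rw [RingTheory.Sequence.isRegular_cons_iff] at hreg
  obtain ⟨hr1, hreg2⟩ := hreg
  rw [RingTheory.Sequence.isRegular_cons_iff] at hreg2
  obtain ⟨hs1, -⟩ := hreg2
  replace hs1 := (isSMulRegular_quotient_iff_mem_of_smul_mem _ _).1 hs1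
  obtain ⟨r1, u, rfl⟩ := IsLocalization.exists_mk'_eq P.primeCompl r
  obtain ⟨s1, v, rfl⟩ := IsLocalization.exists_mk'_eq P.primeCompl s
  rw [IsLocalization.AtPrime.mk'_mem_maximal_iff (Localization.AtPrime P) P] at hr hs
  obtain ⟨a, ha⟩ := (hzP r1).1 hr
  obtain ⟨b, hb⟩ := (hzP s1).1 hs
  have hab : s1 * a = r1 * b := by
    apply hinj
    rw [map_mul, map_mul, ha, hb]
    ring
  have hs2 : ∀ x y : Localization.AtPrime P,
      IsLocalization.mk' (Localization.AtPrime P) s1 v * x =
        IsLocalization.mk' (Localization.AtPrime P) r1 u * y →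
      ∃ z, IsLocalization.mk' (Localization.AtPrime P) r1 u * z = x := by
    intro x y h
    have h1 := hs1 x ((Submodule.mem_smul_pointwise_iff_exists _ _ _).2 ⟨y, trivial, h.symm⟩)
    obtain ⟨z, -, hz⟩ := (Submodule.mem_smul_pointwise_iff_exists _ _ _).1 h1
    exact ⟨z, hz⟩
  obtain ⟨γ, hγ⟩ := hs2 (IsLocalization.mk' (Localization.AtPrime P) a u)
    (IsLocalization.mk' (Localization.AtPrime P) b v) (by
      rw [← IsLocalization.mk'_mul, ← IsLocalization.mk'_mul, hab, mul_comm u v])
  obtain ⟨c, w, rfl⟩ := IsLocalization.exists_mk'_eq P.primeCompl γ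
  rw [← IsLocalization.mk'_mul, IsLocalization.mk'_eq_iff_eq] at hγ
  have hinjL : Function.Injective (algebraMap C (Localization.AtPrime P)) :=
    IsLocalization.injective (Localization.AtPrime P) P.primeCompl_le_nonZeroDivisors
  have h3 := hinjL hγ
  have hu0 : (u : C) ≠ 0 := by
    intro h
    exact u.2 (by rw [h]; exact P.zero_mem)
  have hr0 : r1 ≠ 0 := by
    rintro rfl
    have h4 : IsLocalization.mk' (Localization.AtPrime P) (0:C) u = 0 :=
      IsLocalization.mk'_zero u
    have h5 : (1 : Localization.AtPrime P) = 0 := by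
      apply hr1
      simp only [smul_eq_mul, h4, zero_mul]
    exact one_ne_zero h5
  have h4 : (u : C) * (r1 * c) = (u : C) * (a * w) := by
    rw [h3]
    push_cast
    ring
  have h5 : r1 * c = a * w := mul_left_cancel₀ hu0 h4
  have h6 : algebraMap C E r1 * algebraMap C E c = algebraMap C E r1 * (algebraMap C E w * e) := by
    rw [← map_mul, h5, map_mul, ha]
    ring
  have hr0' : algebraMap C E r1 ≠ 0 := by
    intro h
    exact hr0 (hinj (by rw [h, map_zero]))
  have h7 := mul_left_cancel₀ hr0' h6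
  exact w.2 ((hzP w).2 ⟨c, h7⟩)

end LcP.S1
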