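import Mathlib

/-! Helper lemmas for MP_18dec4_ag, part S3 (team job 13367). -/

set_option linter.all false

namespace LcP.S3

/-- Height of contraction along an integral extension. -/
theorem S3_height {C E : Type*} [CommRing C] [CommRing E] [IsDomain E] [Algebra C E]
    [Algebra.IsIntegral C E] (hinj : Function.Injective (algebraMap C E))
    (Q₁ Q : Ideal E) [Q₁.IsPrime] [Q.IsPrime] (h0 : Q₁ ≠ ⊥) (h1 : Q₁ < Q) :
    2 ≤ (Q.comap (algebraMap C E)).height := by
  have : IsDomain C := hinj.isDomain _
  have hP1 : (Q₁.comap (algebraMap C E)).IsPrime := Ideal.IsPrime.comap _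
  have hP : (Q.comap (algebraMap C E)).IsPrime := Ideal.IsPrime.comap _
  have hne : Q₁.comap (algebraMap C E) ≠ ⊥ := by
    obtain ⟨x, hx, hx0⟩ := Submodule.exists_mem_ne_zero_of_ne_bot h0
    exact Ideal.comap_ne_bot_of_integral_mem hx0 hx (Algebra.IsIntegral.isIntegral x)
  have hlt : Q₁.comap (algebraMap C E) < Q.comap (algebraMap C E) := by
    obtain ⟨x, hxQ, hx1⟩ := Set.exists_of_ssubset h1
    exact Ideal.comap_lt_comap_of_integral_mem_sdiff h1.le ⟨hxQ, hx1⟩
      (Algebra.IsIntegral.isIntegral x)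
  have hb : (⊥ : Ideal C) < Q₁.comap (algebraMap C E) := bot_lt_iff_ne_bot.2 hne
  have : (⊥ : Ideal C).IsPrime := Ideal.isPrime_bot
  have e1 := Ideal.height_add_one_le_of_lt_of_isPrime hb
  have e2 := Ideal.height_add_one_le_of_lt_of_isPrime hlt
  calc (2 : ℕ∞) = (0 + 1) + 1 := by norm_num
    _ ≤ ((⊥ : Ideal C).height + 1) + 1 := by gcongr; exact bot_le
    _ ≤ (Q₁.comap (algebraMap C E)).height + 1 := by gcongr
    _ ≤ _ := e2

/-- Artin-Dedekind: if a prime contains all traces then the group acts trivially modulo it. -/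
theorem S4_trace {E : Type*} [CommRing E] (g : E →+* E) (p : ℕ) (hp : p.Prime)
    (hg : ∀ x, g^[p] x = x) (Q : Ideal E) [Q.IsPrime]
    (hQ : ∀ a, ∑ i ∈ Finset.range p, g^[i] a ∈ Q) (a : E) : g a - a ∈ Q := by
  classical
  -- the characters
  let κ := FractionRing (E ⧸ Q)
  let π : E →+* κ := (algebraMap (E ⧸ Q) κ).comp (Ideal.Quotient.mk Q)
  have hπ : ∀ x, π x = 0 ↔ x ∈ Q := by
    intro x
    simp only [π, RingHom.comp_apply]
    rw [map_eq_zero_iff _ (IsFractionRing.injective (E ⧸ Q) κ), Ideal.Quotient.eq_zero_iff_mem]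
  let G : ℕ → (E →+* E) := fun i => g ^ i
  have hG : ∀ i x, (G i) x = g^[i] x := by
    intro i x
    simp only [G]
    rw [RingHom.coe_pow]
  let χ : Fin p → (E →* κ) := fun i => (π.comp (G i) : E →* κ)
  have hχ : ∀ i x, χ i x = π (g^[(i : ℕ)] x) := by
    intro i x
    simp only [χ, MonoidHom.coe_coe, RingHom.comp_apply, hG]
  have hni : ¬ Function.Injective χ := by
    intro hinj
    have hli := (linearIndependent_monoidHom E κ).comp χ hinj
    rw [Fintype.linearIndependent_iff] at hli
    have := hli (fun _ => 1) (by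
      funext x
      simp only [Function.comp, one_smul, Finset.sum_apply, Pi.zero_apply]
      simp only [hχ]
      rw [← map_sum, hπ]
      have := hQ x
      rwa [Finset.sum_range] at this) ⟨0, hp.pos⟩
    exact one_ne_zero this
  have key : ∃ i j : ℕ, i < j ∧ j < p ∧ ∀ a, g^[j] a - g^[i] a ∈ Q := by
    rw [Function.not_injective_iff] at hni
    obtain ⟨i, j, hij, hne⟩ := hni
    have hgen : ∀ x, π (g^[(i : ℕ)] x) = π (g^[(j : ℕ)] x) := by
      intro x
      rw [← hχ, ← hχ, hij]
    rcases lt_or_gt_of_ne hne with h | h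
    · refine ⟨i, j, h, j.2, fun a => ?_⟩
      rw [← hπ, map_sub, hgen a, sub_self]
    · refine ⟨j, i, h, i.2, fun a => ?_⟩
      rw [← hπ, map_sub, hgen a, sub_self]
  obtain ⟨i, j, hij, hjp, hk⟩ := key
  -- d = j - i
  obtain ⟨d, rfl⟩ : ∃ d, j = i + d := ⟨j - i, by omega⟩
  have hd0 : 0 < d := by omega
  have hdp : d < p := by omega
  have hd : ∀ a, g^[d] a - a ∈ Q := by
    intro a
    have := hk (g^[p - i] a)
    rw [← Function.iterate_add_apply, ← Function.iterate_add_apply] at this
    have e1 : i + d + (p - i) = d + p := by omega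
    have e2 : i + (p - i) = p := by omega
    rw [e1, e2, Function.iterate_add_apply, hg] at this
    exact this
  have hmul : ∀ l a, g^[d * l] a - a ∈ Q := by
    intro l
    induction l with
    | zero => intro a; simp
    | succ l ih =>
      intro a
      have h1 := ih (g^[d] a)
      rw [← Function.iterate_add_apply] at h1
      have h2 := hd a
      have := Q.add_mem h1 h2
      rw [show d * (l + 1) = d * l + d by ring]
      simpa using this
  have hcop : Nat.Coprime d p := by
    rw [Nat.coprime_comm]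
    exact (Nat.Prime.coprime_iff_not_dvd hp).2 (fun h => absurd (Nat.le_of_dvd hd0 h) (by omega))
  obtain ⟨l, hl⟩ : ∃ l, d * l % p = 1 % p := by
    have := Nat.exists_mul_mod_eq_one_of_coprime hcop hp.one_lt
    obtain ⟨m, hm, hm'⟩ := this
    exact ⟨m, by rw [hm', Nat.mod_eq_of_lt hp.one_lt]⟩
  have hper : ∀ m a, g^[p * m] a = a := by
    intro m
    induction m with
    | zero => intro a; simp
    | succ m ih =>
      intro a
      rw [show p * (m + 1) = p * m + p by ring, Function.iterate_add_apply, hg, ih]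
  rw [Nat.mod_eq_of_lt hp.one_lt] at hl
  have hdl : d * l = 1 + p * (d * l / p) := by
    have := Nat.mod_add_div (d * l) p
    omega
  have := hmul l a
  rw [hdl, Function.iterate_add_apply, hper] at this
  simpa using this

end LcP.S3
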