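import Mathlib
import Pool.Agent.Helper142.Lc.Setup

/-! Helper lemmas for MP_18dec4_ag, part S6 (team job 13360). -/

set_option linter.all false

namespace LcP.S6

open MvPolynomial

theorem S6_coeff_mul {σ R : Type*} [CommRing R] (f g : MvPolynomial σ R) (i : σ) :
    coeff (Finsupp.single i 1) (f * g) =
      coeff 0 f * coeff (Finsupp.single i 1) g + coeff (Finsupp.single i 1) f * coeff 0 g := by
  classical
  rw [coeff_mul, Finsupp.antidiagonal_single, Finset.sum_map]
  simp [Finset.Nat.antidiagonal_succ]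

theorem S6_coeff0 (p : ℕ) [Fact p.Prime] (m : Fin 2 × Fin (p - 1)) : coeff 0 (gvar p m) = 0 := by
  unfold gvar
  split_ifs with h
  · simp
  · rw [coeff_sub, coeff_zero_X, coeff_sum, Finset.sum_eq_zero, sub_zero]
    intro k _
    rw [coeff_C_mul, coeff_zero_X, mul_zero]

theorem S6_coeff0_gHom (p : ℕ) [Fact p.Prime] (b : PolyA p) :
    coeff 0 (gHom p b) = coeff 0 b := by
  induction b using MvPolynomial.induction_on with
  | C a => simp [gHom]
  | add f g hf hg => rw [map_add, coeff_add, coeff_add, hf, hg]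
  | mul_X f n hf =>
    rw [map_mul]
    have h1 : gHom p (X n) = gvar p n := by simp [gHom]
    rw [h1]
    have h2 := S6_coeff0 p n
    have h3 : coeff 0 (gHom p f * gvar p n) = coeff 0 (gHom p f) * coeff 0 (gvar p n) := by
      have := map_mul (constantCoeff (R := ℤ_[p]) (σ := Fin 2 × Fin (p - 1))) (gHom p f) (gvar p n)
      simpa [constantCoeff_eq] using this
    have h4 : coeff 0 (f * X n) = coeff 0 f * coeff 0 (X n : PolyA p) := by
      have := map_mul (constantCoeff (R := ℤ_[p]) (σ := Fin 2 × Fin (p - 1))) f (X n)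
      simpa [constantCoeff_eq] using this
    rw [h3, h4, h2]
    simp

theorem S6_linear (p : ℕ) [Fact p.Prime] (b : PolyA p) (i : Fin 2 × Fin (p - 1)) :
    coeff (Finsupp.single i 1) (gHom p b) =
      ∑ m, coeff (Finsupp.single m 1) b * coeff (Finsupp.single i 1) (gvar p m) := by
  classical
  induction b using MvPolynomial.induction_on with
  | C a =>
    have h1 : ∀ m : Fin 2 × Fin (p - 1), coeff (Finsupp.single m 1) (C a : PolyA p) = 0 := by
      intro m
      rw [coeff_C, if_neg]
      intro h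
      have := congrArg (fun f => f m) h
      simp at this
    have h2 : gHom p (C a) = C a := by simp [gHom]
    rw [h2, h1]
    simp [h1]
  | add f g hf hg =>
    rw [map_add, coeff_add, hf, hg, ← Finset.sum_add_distrib]
    refine Finset.sum_congr rfl fun m _ => ?_
    rw [coeff_add]; ring
  | mul_X f n hf =>
    have h1 : gHom p (X n) = gvar p n := by simp [gHom]
    rw [map_mul, h1, S6_coeff_mul, S6_coeff0, mul_zero, add_zero, S6_coeff0_gHom]
    rw [Finset.sum_eq_single n]
    · rw [S6_coeff_mul]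
      simp
    · intro m _ hm
      rw [S6_coeff_mul]
      have h2 : coeff (Finsupp.single m 1) (X n : PolyA p) = 0 := by
        rw [coeff_X, if_neg]
        intro h
        exact hm ((Finsupp.single_left_inj one_ne_zero).1 h).symm
      rw [h2]
      simp
    · intro h; exact absurd (Finset.mem_univ n) h

theorem S6_X (p : ℕ) [Fact p.Prime] (i m : Fin 2 × Fin (p - 1)) :
    coeff (Finsupp.single i 1) (X m : PolyA p) = if m = i then 1 else 0 := by
  classical
  rw [coeff_X]
  congr 1
  rw [Finsupp.single_left_inj one_ne_zero]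

/-- the coefficients of the linear forms `gvar m - X m` -/
theorem S6_g (p : ℕ) [Fact p.Prime] (i m : Fin 2 × Fin (p - 1)) :
    coeff (Finsupp.single i 1) (gvar p m) = (if m = i then 1 else 0) +
      (if (m.2 : ℕ) + 1 < p - 1 then (if m.1 = i.1 ∧ (m.2 : ℕ) + 1 = i.2 then 1 else 0)
       else (if m.1 = i.1 then -((p.choose ((i.2 : ℕ) + 1) : ℕ) : ℤ_[p]) else 0)) := by
  classical
  unfold gvar
  by_cases h : (m.2 : ℕ) + 1 < p - 1
  · rw [dif_pos h, if_pos h, coeff_add, S6_X, S6_X]
    congr 1
    refine if_congr ?_ rfl rfl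
    constructor
    · intro h3
      have h4 := congrArg Prod.fst h3
      have h5 := congrArg (fun q => (q.2 : ℕ)) h3
      exact ⟨h4, h5⟩
    · rintro ⟨h3, h4⟩
      exact Prod.ext h3 (Fin.ext h4)
  · rw [dif_neg h, if_neg h, coeff_sub, S6_X, coeff_sum, sub_eq_add_neg]
    congr 1
    have h1 : ∀ k : Fin (p - 1), coeff (Finsupp.single i 1)
        (C ((p.choose ((k : ℕ) + 1) : ℕ) : ℤ_[p]) * X (m.1, k) : PolyA p) =
        if m.1 = i.1 ∧ k = i.2 then ((p.choose ((k : ℕ) + 1) : ℕ) : ℤ_[p]) else 0 := by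
      intro k
      rw [coeff_C_mul, S6_X]
      by_cases h2 : m.1 = i.1 ∧ k = i.2
      · rw [if_pos h2, if_pos (show (m.1, k) = i from Prod.ext h2.1 h2.2), mul_one]
      · have h6 : ¬ ((m.1, k) = i) := by
          intro h3
          have h4 := congrArg Prod.fst h3
          have h5 := congrArg Prod.snd h3
          exact h2 ⟨h4, h5⟩
        rw [if_neg h2, if_neg h6, mul_zero]
    rw [Finset.sum_congr rfl fun k _ => h1 k]
    by_cases h2 : m.1 = i.1
    · simp [h2]
    · simp [h2]

theorem S6_eq (p : ℕ) [Fact p.Prime] (b : PolyA p) (hb : gHom p b = b)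
    (i : Fin 2 × Fin (p - 1)) :
    ∑ m, coeff (Finsupp.single m 1) b *
      (if (m.2 : ℕ) + 1 < p - 1 then (if m.1 = i.1 ∧ (m.2 : ℕ) + 1 = i.2 then 1 else 0)
       else (if m.1 = i.1 then -((p.choose ((i.2 : ℕ) + 1) : ℕ) : ℤ_[p]) else 0)) = 0 := by
  classical
  have h := S6_linear p b i
  rw [hb] at h
  simp only [S6_g, mul_add] at h
  rw [Finset.sum_add_distrib] at h
  have h1 : ∑ m, coeff (Finsupp.single m 1) b * (if m = i then (1 : ℤ_[p]) else 0) =
      coeff (Finsupp.single i 1) b := by
    rw [Finset.sum_eq_single i]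
    · simp
    · intro m _ hm; simp [hm]
    · intro h; exact absurd (Finset.mem_univ i) h
  rw [h1] at h
  exact left_eq_add.1 h

theorem S6_zero (p : ℕ) [Fact p.Prime] (b : PolyA p) (hb : gHom p b = b)
    (i : Fin 2 × Fin (p - 1)) : coeff (Finsupp.single i 1) b = 0 := by
  classical
  have hp : p.Prime := Fact.out
  have hp2 := hp.two_le
  have hpp : 0 < p - 1 := by omega
  have hp0 : (p : ℤ_[p]) ≠ 0 := by exact_mod_cast hp.ne_zero
  -- the last variables
  have hlast : ∀ m : Fin 2 × Fin (p - 1), ¬ ((m.2 : ℕ) + 1 < p - 1) →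
      coeff (Finsupp.single m 1) b = 0 := by
    intro m hm
    have h := S6_eq p b hb (m.1, ⟨0, hpp⟩)
    rw [Finset.sum_eq_single m] at h
    · rw [if_neg hm, if_pos rfl] at h
      simp only [zero_add, Nat.choose_one_right] at h
      rcases mul_eq_zero.1 h with h1 | h1
      · exact h1
      · exact absurd (neg_eq_zero.1 h1) hp0
    · intro m' _ hm'
      by_cases h2 : (m'.2 : ℕ) + 1 < p - 1
      · rw [if_pos h2, if_neg (by simp), mul_zero]
      · rw [if_neg h2]
        by_cases h3 : m'.1 = m.1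
        · exfalso
          apply hm'
          refine Prod.ext h3 (Fin.ext ?_)
          have := m'.2.2
          have := m.2.2
          omega
        · rw [if_neg h3, mul_zero]
    · intro h; exact absurd (Finset.mem_univ m) h
  by_cases hi : (i.2 : ℕ) + 1 < p - 1
  · have h := S6_eq p b hb (i.1, ⟨(i.2 : ℕ) + 1, hi⟩)
    rw [Finset.sum_eq_single i] at h
    · rw [if_pos hi, if_pos ⟨rfl, rfl⟩, mul_one] at h
      exact h
    · intro m _ hm
      by_cases h2 : (m.2 : ℕ) + 1 < p - 1
      · rw [if_pos h2]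
        by_cases h3 : m.1 = i.1 ∧ (m.2 : ℕ) + 1 = (i.2 : ℕ) + 1
        · exfalso
          apply hm
          exact Prod.ext h3.1 (Fin.ext (by omega))
        · rw [if_neg h3, mul_zero]
      · rw [hlast m h2, zero_mul]
    · intro h; exact absurd (Finset.mem_univ i) h
  · exact hlast i hi

/-- TARGET 1: no invariant is congruent mod `p` to the last variable of a block. -/
theorem S6_not_lift (p : ℕ) [Fact p.Prime] (a : Fin 2) (j : Fin (p - 1)) (b : PolyA p)
    (hb : gHom p b = b) : b - X (a, j) ∉ Ideal.span {(p : PolyA p)} := by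
  intro h
  rw [Ideal.mem_span_singleton] at h
  obtain ⟨q, hq⟩ := h
  have h1 := congrArg (coeff (Finsupp.single (a, j) 1)) hq
  have h2 : (p : PolyA p) = C (p : ℤ_[p]) := by simp
  rw [coeff_sub, S6_zero p b hb, S6_X, if_pos rfl, h2, coeff_C_mul] at h1
  have h3 : IsUnit (p : ℤ_[p]) := by
    refine IsUnit.of_mul_eq_one (-(coeff (Finsupp.single (a, j) 1) q)) ?_
    linear_combination h1
  exact (PadicInt.prime_p (p := p)).not_isUnit h3

/-- TARGET 2: the last variable of a block is invariant mod `p`. -/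
theorem S6_last (p : ℕ) [Fact p.Prime] (a : Fin 2) (j : Fin (p - 1))
    (hj : ¬ ((j : ℕ) + 1 < p - 1)) :
    gHom p (X (a, j)) - X (a, j) ∈ Ideal.span {(p : PolyA p)} := by
  have hp : p.Prime := Fact.out
  have h1 : gHom p (X (a, j)) = gvar p (a, j) := by simp [gHom]
  rw [h1]
  unfold gvar
  rw [dif_neg hj, sub_sub_cancel_left, neg_mem_iff]
  refine Ideal.sum_mem _ fun k _ => ?_
  rw [Ideal.mem_span_singleton]
  refine Dvd.dvd.mul_right ?_ _
  obtain ⟨c, hc⟩ := hp.dvd_choose_self (Nat.succ_ne_zero (k : ℕ)) (by have := k.2; omega)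
  rw [Nat.succ_eq_add_one] at hc
  rw [hc]
  refine ⟨C ((c : ℕ) : ℤ_[p]), ?_⟩
  have h2 : (p : PolyA p) = C (p : ℤ_[p]) := by simp
  rw [h2, ← C_mul]
  push_cast
  rfl

end LcP.S6
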