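import Mathlib
import Pool.Agent.Helper142.Lc.Defs
import Pool.Agent.Helper142.Lc.Setup
import Pool.Agent.Helper142.Lc.A1
import Pool.Agent.Helper142.Lc.A4p
import Pool.Agent.Helper142.Lc.S1
import Pool.Agent.Helper142.Lc.S3
import Pool.Agent.Helper142.Lc.S6

/-! Helper lemmas for MP_18dec4_ag, part S8 (team job 13777). -/

set_option linter.all false

namespace LcP.S8

open LcP.A1 LcP.A4p LcP.S1 LcP.S3 LcP.S6
open IsDiscreteValuationRing (addVal)
open IsLocalRing KaehlerDifferential MvPolynomial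
open scoped TensorProduct

/-! All theorems before the last one are PROVED ELSEWHERE: leave them as `sorry` and use them.
Only prove the LAST theorem (TARGET). -/

universe u v w x

theorem aux_prime_span777 (p : ℕ) [Fact p.Prime] : (Ideal.span {(p : PolyA p)}).IsPrime := by
  have h : Prime ((p : PolyA p)) := by
    have h1 : (p : PolyA p) = C (p : ℤ_[p]) := (map_natCast C p).symm
    rw [h1]
    exact (MvPolynomial.prime_C_iff _).2 PadicInt.prime_p
  exact (Ideal.span_singleton_prime h.ne_zero).2 h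

theorem aux_X777 {σ R : Type*} [CommRing R] (I : Ideal R) [I.IsPrime]
    (J : Ideal (MvPolynomial σ R)) (hJ : J = Ideal.map C I) (i j : σ) (hij : i ≠ j) :
    Prime (Ideal.Quotient.mk J (X i)) ∧
      ¬ Ideal.Quotient.mk J (X i) ∣ Ideal.Quotient.mk J (X j) := by
  subst hJ
  have e1 : ∀ i, MvPolynomial.quotientEquivQuotientMvPolynomial (σ := σ) I (X i) =
      Ideal.Quotient.mk _ (X i) := fun i => eval₂Hom_X' _ _ _
  rw [← e1, ← e1, map_dvd_iff, MulEquiv.prime_iff]
  exact ⟨X_prime, fun h => hij (X_dvd_X.1 h)⟩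

theorem aux_X777' (p : ℕ) [Fact p.Prime] (i j : Fin 2 × Fin (p - 1)) (hij : i ≠ j) :
    Prime (Ideal.Quotient.mk (Ideal.span {(p : PolyA p)}) (X i)) ∧
      ¬ Ideal.Quotient.mk (Ideal.span {(p : PolyA p)}) (X i) ∣
        Ideal.Quotient.mk (Ideal.span {(p : PolyA p)}) (X j) := by
  haveI : (Ideal.span {(p : ℤ_[p])}).IsPrime :=
    (Ideal.span_singleton_prime PadicInt.prime_p.ne_zero).2 PadicInt.prime_p
  refine aux_X777 (Ideal.span {(p : ℤ_[p])}) _ ?_ i j hij
  rw [Ideal.map_span, Set.image_singleton, map_natCast]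

/-- the trace -/
noncomputable def Tr777 (p : ℕ) [Fact p.Prime] (a : PolyA p) : PolyA p :=
  ∑ i ∈ Finset.range p, (gHom p)^[i] a

theorem Tr_inv777 (p : ℕ) [Fact p.Prime] (a : PolyA p) : gHom p (Tr777 p a) = Tr777 p a := by
  unfold Tr777
  rw [map_sum]
  have h1 : ∀ i, gHom p ((gHom p)^[i] a) = (gHom p)^[i + 1] a := fun i =>
    (Function.iterate_succ_apply' _ _ _).symm
  simp only [h1]
  have h2 := Finset.sum_range_succ' (fun i => (gHom p)^[i] a) p
  have h3 := Finset.sum_range_succ (fun i => (gHom p)^[i] a) p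
  rw [h2, gHom_iterate] at h3
  exact add_right_cancel h3

theorem iter_last777 (p : ℕ) [Fact p.Prime] (a : Fin 2) (j : Fin (p - 1))
    (hj : ¬ ((j : ℕ) + 1 < p - 1)) (i : ℕ) :
    (gHom p)^[i] (X (a, j)) - X (a, j) ∈ Ideal.span {(p : PolyA p)} := by
  induction i with
  | zero => simp
  | succ i ih =>
    rw [Function.iterate_succ_apply']
    have h1 : gHom p ((gHom p)^[i] (X (a, j))) - X (a, j) =
        gHom p ((gHom p)^[i] (X (a, j)) - X (a, j)) + (gHom p (X (a, j)) - X (a, j)) := by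
      rw [map_sub]; ring
    rw [h1]
    refine Ideal.add_mem _ ?_ (S6_last p a j hj)
    rw [Ideal.mem_span_singleton] at ih ⊢
    obtain ⟨c, hc⟩ := ih
    rw [hc, map_mul, map_natCast]
    exact dvd_mul_right _ _

theorem Tr_mul777 (p : ℕ) [Fact p.Prime] (a : Fin 2) (j : Fin (p - 1))
    (hj : ¬ ((j : ℕ) + 1 < p - 1)) (y : PolyA p) :
    Ideal.Quotient.mk (Ideal.span {(p : PolyA p)}) (Tr777 p y) *
      Ideal.Quotient.mk (Ideal.span {(p : PolyA p)}) (X (a, j)) =
      Ideal.Quotient.mk (Ideal.span {(p : PolyA p)}) (Tr777 p (y * X (a, j))) := by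
  unfold Tr777
  rw [map_sum, map_sum, Finset.sum_mul]
  refine Finset.sum_congr rfl fun i _ => ?_
  have h1 : Ideal.Quotient.mk (Ideal.span {(p : PolyA p)}) ((gHom p)^[i] (X (a, j))) =
      Ideal.Quotient.mk (Ideal.span {(p : PolyA p)}) (X (a, j)) :=
    Ideal.Quotient.eq.2 (iter_last777 p a j hj i)
  rw [iterate_map_mul, map_mul, h1]

/-- TARGET: `B` = ring of invariants of `g`; `B/pB` is a domain and is not `S₂`. -/
theorem S8_not_S2 (p : ℕ) [Fact p.Prime] (hp : 2 < p)
    {B : Type} [CommRing B] [Algebra ℤ_[p] B] [Algebra B (PolyA p)]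
    [IsScalarTower ℤ_[p] B (PolyA p)]
    (hinj : Function.Injective (algebraMap B (PolyA p)))
    (hB : ∀ a, a ∈ Set.range (algebraMap B (PolyA p)) ↔ gHom p a = a) :
    IsDomain (B ⧸ Ideal.span {((p : ℕ) : B)}) ∧ ¬ IsS2 (B ⧸ Ideal.span {((p : ℕ) : B)}) := by
  have hpp : p.Prime := Fact.out
  obtain ⟨hint, hft, -, hdiv⟩ := A4_fixed_ring' (R₀ := ℤ_[p]) (A := PolyA p) (B := B) (gHom p) p
    hpp.pos (gHom_iterate p) hinj hB
  obtain ⟨PA, hPA⟩ : ∃ PA : Ideal (PolyA p), PA = Ideal.span {(p : PolyA p)} := ⟨_, rfl⟩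
  obtain ⟨PB, hPB⟩ : ∃ PB : Ideal B, PB = Ideal.span {((p : ℕ) : B)} := ⟨_, rfl⟩
  have hPAp : PA.IsPrime := hPA ▸ aux_prime_span777 p
  have hle : PB ≤ PA.comap (algebraMap B (PolyA p)) := by
    rw [hPB, Ideal.span_le, Set.singleton_subset_iff]
    show algebraMap B (PolyA p) (p : B) ∈ PA
    rw [map_natCast, hPA]
    exact Ideal.mem_span_singleton_self _
  have hge : PA.comap (algebraMap B (PolyA p)) ≤ PB := by
    intro b hb
    rw [Ideal.mem_comap, hPA, Ideal.mem_span_singleton] at hb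
    obtain ⟨a, ha⟩ := hb
    have hp0 : (p : PolyA p) ≠ 0 := Nat.cast_ne_zero.2 hpp.ne_zero
    obtain ⟨b', hb'⟩ := hdiv (p : ℤ_[p]) (fun a ha => by
      rw [Algebra.smul_def, map_natCast] at ha
      exact (mul_eq_zero.1 ha).resolve_left hp0) b a (by
      rw [ha, Algebra.smul_def, map_natCast])
    rw [hb', hPB, Ideal.mem_span_singleton, Algebra.smul_def, map_natCast]
    exact dvd_mul_right _ _
  rw [← hPB]
  obtain ⟨f, hf⟩ : ∃ f : B ⧸ PB →+* PolyA p ⧸ PA,
    f = Ideal.quotientMap PA (algebraMap B (PolyA p)) hle := ⟨_, rfl⟩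
  have hfmk : ∀ b, f (Ideal.Quotient.mk PB b) = Ideal.Quotient.mk PA (algebraMap B (PolyA p) b) :=
    fun b => by rw [hf]; exact Ideal.quotientMap_mk
  have hfinj : Function.Injective f := by
    rw [hf]; exact Ideal.quotientMap_injective' hge
  haveI hEdom : IsDomain (PolyA p ⧸ PA) := Ideal.Quotient.isDomain PA
  haveI hCdom : IsDomain (B ⧸ PB) := hfinj.isDomain f
  refine ⟨hCdom, ?_⟩
  haveI hBn : IsNoetherianRing B := Algebra.FiniteType.isNoetherianRing ℤ_[p] B
  letI algCE : Algebra (B ⧸ PB) (PolyA p ⧸ PA) := f.toAlgebra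
  have halg : ∀ x, algebraMap (B ⧸ PB) (PolyA p ⧸ PA) x = f x := fun _ => rfl
  haveI hCE : Algebra.IsIntegral (B ⧸ PB) (PolyA p ⧸ PA) := by
    refine ⟨fun e => ?_⟩
    obtain ⟨a, rfl⟩ := Ideal.Quotient.mk_surjective e
    obtain ⟨q, hq1, hq2⟩ := hint.isIntegral a
    refine ⟨q.map (Ideal.Quotient.mk PB), hq1.map _, ?_⟩
    rw [Polynomial.eval₂_map]
    have h1 : (algebraMap (B ⧸ PB) (PolyA p ⧸ PA)).comp (Ideal.Quotient.mk PB) =
        (Ideal.Quotient.mk PA).comp (algebraMap B (PolyA p)) := RingHom.ext fun b => hfmk b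
    rw [h1, ← Polynomial.hom_eval₂, hq2, map_zero]
  -- indices
  have hp1 : p - 2 < p - 1 := by omega
  have hp2 : p - 3 < p - 1 := by omega
  obtain ⟨last, hlast⟩ : ∃ last : Fin (p - 1), last = ⟨p - 2, hp1⟩ := ⟨_, rfl⟩
  have hlastn : ¬ ((last : ℕ) + 1 < p - 1) := by rw [hlast]; simp only; omega
  have hX := aux_X777' p (0, last) (1, last) (by simp)
  rw [← hPA] at hX
  have hTrm : ∀ y : PolyA p, Ideal.Quotient.mk PA (Tr777 p y) *
      Ideal.Quotient.mk PA (X (0, last)) = Ideal.Quotient.mk PA (Tr777 p (y * X (0, last))) := by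
    intro y
    have := Tr_mul777 p 0 last hlastn y
    rw [← hPA] at this
    exact this
  have hTrB : ∀ y : PolyA p, ∃ b : B, algebraMap B (PolyA p) b = Tr777 p y := fun y =>
    (hB _).2 (Tr_inv777 p y)
  -- the automorphism of the quotient
  have hgle : PA ≤ PA.comap (gHom p : PolyA p →+* PolyA p) := by
    rw [hPA, Ideal.span_le, Set.singleton_subset_iff]
    show (gHom p : PolyA p →+* PolyA p) (p : PolyA p) ∈ Ideal.span {(p : PolyA p)}
    rw [map_natCast]
    exact Ideal.mem_span_singleton_self _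
  obtain ⟨gb, hgb⟩ : ∃ gb : PolyA p ⧸ PA →+* PolyA p ⧸ PA,
    gb = Ideal.quotientMap PA (gHom p : PolyA p →+* PolyA p) hgle := ⟨_, rfl⟩
  have hgbmk : ∀ a, gb (Ideal.Quotient.mk PA a) = Ideal.Quotient.mk PA (gHom p a) :=
    fun a => by rw [hgb]; exact Ideal.quotientMap_mk
  have hgbi : ∀ (i : ℕ) (a : PolyA p), gb^[i] (Ideal.Quotient.mk PA a) =
      Ideal.Quotient.mk PA ((gHom p)^[i] a) := by
    intro i a
    induction i with
    | zero => rfl
    | succ i ih => rw [Function.iterate_succ_apply', Function.iterate_succ_apply', ih, hgbmk]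
  have hgbp : ∀ e, gb^[p] e = e := by
    intro e
    obtain ⟨a, rfl⟩ := Ideal.Quotient.mk_surjective e
    rw [hgbi, gHom_iterate]
  -- conductor ideal
  let I : Ideal (B ⧸ PB) := Submodule.comap
    (LinearMap.toSpanSingleton (B ⧸ PB) (PolyA p ⧸ PA) (Ideal.Quotient.mk PA (X (0, last))))
    (LinearMap.range (Algebra.linearMap (B ⧸ PB) (PolyA p ⧸ PA)))
  have hImem : ∀ x, x ∈ I ↔ f x * Ideal.Quotient.mk PA (X (0, last)) ∈ Set.range f := by
    intro x
    show LinearMap.toSpanSingleton (B ⧸ PB) (PolyA p ⧸ PA) (Ideal.Quotient.mk PA (X (0, last))) x ∈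
      LinearMap.range (Algebra.linearMap (B ⧸ PB) (PolyA p ⧸ PA)) ↔ _
    rw [LinearMap.toSpanSingleton_apply, Algebra.smul_def, LinearMap.mem_range]
    rfl
  refine S1_not_S2 (C := B ⧸ PB) (E := PolyA p ⧸ PA) hfinj (Ideal.Quotient.mk PA (X (0, last)))
    ?_ I (fun x hx => (hImem x).1 hx) ?_
  · rintro ⟨c, hc⟩
    obtain ⟨b, rfl⟩ := Ideal.Quotient.mk_surjective c
    rw [halg, hfmk, Ideal.Quotient.eq, hPA] at hc
    exact S6_not_lift p 0 last _ ((hB _).1 ⟨b, rfl⟩) hc
  · intro z hz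
    obtain ⟨Q, hQ, hQz⟩ := Ideal.exists_ideal_over_prime_of_isIntegral_of_isDomain
      (S := PolyA p ⧸ PA) z.asIdeal (by
        have : RingHom.ker (algebraMap (B ⧸ PB) (PolyA p ⧸ PA)) = ⊥ :=
          (RingHom.injective_iff_ker_eq_bot _).1 hfinj
        rw [this]; exact bot_le)
    have hTrQ : ∀ a : PolyA p, Ideal.Quotient.mk PA (Tr777 p a) ∈ Q := by
      intro a
      obtain ⟨b, hb⟩ := hTrB a
      obtain ⟨b', hb'⟩ := hTrB (a * X (0, last))
      have h1 : Ideal.Quotient.mk PB b ∈ I := by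
        rw [hImem]
        refine ⟨Ideal.Quotient.mk PB b', ?_⟩
        rw [hfmk, hfmk, hb, hb', hTrm]
      have h2 := hz h1
      rw [← hQz, Ideal.mem_comap, halg, hfmk, hb] at h2
      exact h2
    have hgQ := S4_trace gb p hpp hgbp Q (fun e => by
      obtain ⟨a, rfl⟩ := Ideal.Quotient.mk_surjective e
      simp only [hgbi]
      rw [← map_sum]
      exact hTrQ a)
    have hXQ : ∀ a : Fin 2, Ideal.Quotient.mk PA (X (a, last)) ∈ Q := by
      intro a
      have h1 := hgQ (Ideal.Quotient.mk PA (X (a, (⟨p - 3, hp2⟩ : Fin (p - 1)))))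
      have h2 : gHom p (X (a, (⟨p - 3, hp2⟩ : Fin (p - 1)))) =
          X (a, (⟨p - 3, hp2⟩ : Fin (p - 1))) + X (a, last) := by
        unfold gHom
        rw [aeval_X]
        unfold gvar
        have h3 : p - 3 + 1 < p - 1 := by omega
        rw [dif_pos h3]
        congr 2
        rw [hlast]
        congr 2
        show p - 3 + 1 = p - 2
        omega
      rw [hgbmk, h2, map_add, add_sub_cancel_left] at h1
      exact h1
    haveI hQ1 : (Ideal.span {Ideal.Quotient.mk PA (X (0, last) : PolyA p)}).IsPrime :=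
      (Ideal.span_singleton_prime hX.1.ne_zero).2 hX.1
    have h0 : Ideal.span {Ideal.Quotient.mk PA (X (0, last) : PolyA p)} ≠ ⊥ := by
      rw [Ne, Ideal.span_singleton_eq_bot]
      exact hX.1.ne_zero
    have h1 : Ideal.span {Ideal.Quotient.mk PA (X (0, last) : PolyA p)} < Q := by
      refine lt_of_le_of_ne ?_ ?_
      · rw [Ideal.span_le, Set.singleton_subset_iff]
        exact hXQ 0
      · intro h2
        have h3 := hXQ 1
        rw [← h2, Ideal.mem_span_singleton] at h3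
        exact hX.2 h3
    have h2 := S3_height (C := B ⧸ PB) (E := PolyA p ⧸ PA) hfinj _ Q h0 h1
    rw [hQz] at h2
    exact h2

end LcP.S8
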